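import Pool.Agent.MP_66cee2_co.X.SpecJ

/-
Facts about the measure on the sphere.
-/

namespace Pool.Agent.MP_66cee2_co.X

open MeasureTheory Set Filter Metric Topology
open scoped ENNReal RealInnerProductSpace

theorem sig_meas (d : ℕ) : Measurable fun z : E d => ‖z‖⁻¹ • z := by fun_prop

theorem sig_apply {d : ℕ} {s : Set (E d)} (hs : MeasurableSet s) :
    sig d s = volume ((fun z : E d => ‖z‖⁻¹ • z) ⁻¹' s ∩ ball 0 1) := by
  rw [sig, Measure.map_apply (sig_meas d) hs, Measure.restrict_apply (sig_meas d hs)]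

theorem sig_unit (d : ℕ) (hd : 1 ≤ d) : ∀ᵐ ω ∂sig d, ‖ω‖ = 1 := by
  have : Nonempty (Fin d) := ⟨⟨0, hd⟩⟩
  rw [sig, ae_map_iff (sig_meas d).aemeasurable
    (isClosed_eq continuous_norm continuous_const).measurableSet]
  refine ae_restrict_of_ae ?_
  filter_upwards [compl_mem_ae_iff.2 (measure_singleton (0 : E d))] with z hz
  rw [norm_smul, norm_inv, norm_norm, inv_mul_cancel₀ (norm_ne_zero_iff.2 hz)]

theorem sig_point (d : ℕ) (hd : 2 ≤ d) (n : E d) : sig d {n} = 0 := by
  rw [sig_apply (measurableSet_singleton n)]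
  have h : (ℝ ∙ n : Submodule ℝ (E d)) ≠ ⊤ := fun h => by
    have h1 := finrank_span_le_card (R := ℝ) ({n} : Set (E d))
    rw [h, finrank_top, finrank_euclideanSpace_fin] at h1
    simp at h1
    omega
  refine measure_mono_null (fun z hz => ?_) (Measure.addHaar_submodule volume _ h)
  by_cases h0 : z = 0
  · rw [h0]; exact zero_mem _
  · refine Submodule.mem_span_singleton.2 ⟨‖z‖, ?_⟩
    rw [← show ‖z‖⁻¹ • z = n from hz.1, smul_inv_smul₀ (norm_ne_zero_iff.2 h0)]

theorem sig_cap (d : ℕ) (w : E d) (r : ℝ) (hw : ‖w‖ = 1) (hr : 0 < r) : sig d (ball w r) ≠ 0 := by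
  rw [sig_apply measurableSet_ball]
  have h1 : ‖(1 / 2 : ℝ) • w‖ = 1 / 2 := by rw [norm_smul, hw]; norm_num
  have hc : ContinuousAt (fun z : E d => ‖z‖⁻¹ • z) ((1 / 2 : ℝ) • w) :=
    (continuous_norm.continuousAt.inv₀ (by rw [h1]; norm_num)).smul continuousAt_id
  refine (Measure.measure_pos_of_mem_nhds volume (x := (1 / 2 : ℝ) • w)
    (inter_mem (hc.preimage_mem_nhds ?_) (isOpen_ball.mem_nhds ?_))).ne'
  · rw [h1, smul_smul, inv_mul_cancel₀ (by norm_num), one_smul]
    exact ball_mem_nhds w hr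
  · rw [mem_ball_zero_iff, h1]; norm_num

theorem sig_inv (d : ℕ) (A : E d ≃ₗᵢ[ℝ] E d) : (sig d).map A = sig d := by
  ext s hs
  have hA : Measurable A := A.continuous.measurable
  rw [Measure.map_apply hA hs, sig_apply hs, sig_apply (hA hs),
    ← A.measurePreserving.measure_preimage
      ((sig_meas d hs).inter measurableSet_ball).nullMeasurableSet]
  congr 1
  ext z
  simp

theorem sig_char {d : ℕ} {μ : Measure (E d)} (h : ∀ A : E d ≃ₗᵢ[ℝ] E d, μ.map A = μ)
    {t t' : E d} (e : ‖t‖ = ‖t'‖) : charFun μ t' = charFun μ t := by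
  obtain ⟨A, rfl⟩ : ∃ A : E d ≃ₗᵢ[ℝ] E d, A t = t' := ⟨_, Submodule.reflection_sub e⟩
  conv_lhs => rw [← h A]
  rw [charFun_apply, charFun_apply, integral_map A.continuous.measurable.aemeasurable
    (Continuous.aestronglyMeasurable (by fun_prop))]
  simp

theorem sig_half {d : ℕ} (μ ν : Measure (E d)) (hν : ∀ᵐ ω ∂ν, ‖ω‖ = 1)
    (h : ∀ A : E d ≃ₗᵢ[ℝ] E d, μ.map A = μ) (t : E d) :
    ∫ y, ∫ x, Complex.exp ((‖t‖ * ⟪x, y⟫ : ℝ) * Complex.I) ∂μ ∂ν = ν.real univ • charFun μ t := by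
  rw [← integral_const]
  refine integral_congr_ae (hν.mono fun y hy => ?_)
  simp only
  rw [← sig_char h (t' := ‖t‖ • y) (by rw [norm_smul, hy, norm_norm, mul_one]), charFun_apply]
  simp only [real_inner_smul_right]

theorem sig_uniq (d : ℕ) (μ ν : Measure (E d)) [IsFiniteMeasure μ] [IsFiniteMeasure ν]
    (h1 : ∀ᵐ ω ∂μ, ‖ω‖ = 1) (h2 : ∀ᵐ ω ∂ν, ‖ω‖ = 1) (h3 : ∀ A : E d ≃ₗᵢ[ℝ] E d, μ.map A = μ)
    (h4 : ∀ A : E d ≃ₗᵢ[ℝ] E d, ν.map A = ν) (h5 : μ univ = ν univ) : μ = ν := by
  by_cases h0 : μ univ = 0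
  · rw [Measure.measure_univ_eq_zero.1 h0, Measure.measure_univ_eq_zero.1 (h5.symm.trans h0)]
  refine Measure.ext_of_charFun (funext fun t => ?_)
  have e1 := sig_half μ ν h2 h3 t
  have e2 := sig_half ν μ h1 h4 t
  rw [integral_integral_swap] at e1
  · simp only [real_inner_comm] at e1 e2
    rw [e1, measureReal_def, measureReal_def, ← h5] at e2
    exact smul_right_injective _ (ENNReal.toReal_ne_zero.2 ⟨h0, measure_ne_top _ _⟩) e2
  · refine (integrable_const (1 : ℝ)).mono' (Continuous.aestronglyMeasurable ?_)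
      (ae_of_all _ fun z => ?_)
    · unfold Function.uncurry
      fun_prop
    · exact (Complex.norm_exp_ofReal_mul_I _).le

theorem sig_swap (d : ℕ) (p : E d → E d → Prop) (hp : MeasurableSet {z : E d × E d | p z.1 z.2})
    (h : AePair p) : AePair fun x y => p y x := by
  have h1 : ∀ᵐ z ∂(volume : Measure (E d)).prod (sig d), p z.1 (z.1 + z.2) :=
    (Measure.ae_prod_iff_ae_ae
      ((by fun_prop : Measurable fun z : E d × E d => (z.1, z.1 + z.2)) hp)).2 h
  have h2 : MeasurePreserving (fun ω : E d => -ω) (sig d) (sig d) :=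
    ⟨measurable_neg, sig_inv d (LinearIsometryEquiv.neg ℝ)⟩
  have h3 := ((MeasurePreserving.id (volume : Measure (E d))).prod h2).comp
    (measurePreserving_add_prod (volume : Measure (E d)) (sig d))
  have h4 := Measure.ae_ae_of_ae_prod (h3.quasiMeasurePreserving.ae h1)
  simpa [AePair] using h4

theorem sig_right (d : ℕ) (q : E d → Prop) (h : ∀ᵐ x, q x) : AePair fun _ y => q y := by
  have h1 : ∀ᵐ z ∂(volume : Measure (E d)).prod (sig d), q z.1 :=
    Measure.quasiMeasurePreserving_fst.ae h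
  exact Measure.ae_ae_of_ae_prod ((measurePreserving_add_prod (volume : Measure (E d))
    (sig d)).quasiMeasurePreserving.ae h1)

theorem sSig : SSig where
  ne d _ h := by
    have := sig_apply (d := d) MeasurableSet.univ
    rw [h, preimage_univ, univ_inter] at this
    exact (measure_ball_pos volume (0 : E d) one_pos).ne this
  unit := sig_unit
  point := sig_point
  cap := sig_cap
  inv := sig_inv
  uniq := sig_uniq
  swap := sig_swap
  right := sig_right

end Pool.Agent.MP_66cee2_co.X
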