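import Pool.Agent.MP_66cee2_co.X.SpecJ

/-
Row Up: from almost every unit vector to every unit vector.
-/

namespace Pool.Agent.MP_66cee2_co.X

open MeasureTheory Set Filter Metric Topology

theorem up_seq {d : ℕ} {F : Type} [NormedAddCommGroup F] {g : E d → F} (hg : Integrable g)
    {w : E d} {v : ℕ → E d} (hv : Tendsto v atTop (𝓝 w)) :
    ∃ ns : ℕ → ℕ, ∀ᵐ y, Tendsto (fun k => g (y + v (ns k))) atTop (𝓝 (g (y + w))) := by
  let T : E d → C(E d, E d) := fun u => ⟨fun y => y + u, by fun_prop⟩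
  have hT : Continuous T := ContinuousMap.continuous_of_continuous_uncurry _ (by
    change Continuous fun p : E d × E d => p.2 + p.1
    fun_prop)
  have hm : ∀ u, MeasurePreserving (T u) volume volume := fun u =>
    measurePreserving_add_right volume u
  have h1 := (tendsto_const_nhds (x := hg.toL1 g)).compMeasurePreservingLp
    ((hT.tendsto w).comp hv) (fun k => hm (v k)) (hm w) ENNReal.one_ne_top
  obtain ⟨ns, -, h2⟩ := (tendstoInMeasure_of_tendsto_Lp h1).exists_seq_tendsto_ae
  have h3 : ∀ u, ∀ᵐ y, Lp.compMeasurePreserving (T u) (hm u) (hg.toL1 g) y = g (y + u) :=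
    fun u => (Lp.coeFn_compMeasurePreserving _ (hm u)).trans
      ((hm u).quasiMeasurePreserving.ae_eq_comp hg.coeFn_toL1)
  refine ⟨ns, ?_⟩
  filter_upwards [h2, h3 w, ae_all_iff.2 fun k => h3 (v k)] with y a1 a2 a3
  rw [a2] at a1
  exact a1.congr fun k => a3 _

theorem sUp (hS : SSig) : SUp := by
  intro d ι _ ξ b hξ hb h w hw
  have hb' : Measurable b := measurable_pi_lambda _ hb
  have h1 : ∀ᵐ ω ∂sig d, ∀ᵐ y, ξ y ⬝ᵥ b (y + ω) = 0 := by
    refine (Measure.ae_ae_comm ?_).1 h
    refine measurableSet_eq_fun (Finset.measurable_sum _ fun a _ => ?_) measurable_const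
    exact ((hξ a).comp measurable_fst).mul ((hb a).comp (measurable_fst.add measurable_snd))
  have h2 : ∀ k : ℕ, ∃ v ∈ ball w (1 / ((k : ℝ) + 1)), ∀ᵐ y, ξ y ⬝ᵥ b (y + v) = 0 := fun k =>
    Measure.exists_mem_of_measure_ne_zero_of_ae (hS.cap d w _ hw (by positivity))
      (ae_restrict_of_ae h1)
  choose v hv1 hv2 using h2
  have hv : Tendsto v atTop (𝓝 w) := by
    rw [tendsto_iff_dist_tendsto_zero]
    exact squeeze_zero (fun _ => dist_nonneg) (fun k => (mem_ball.1 (hv1 k)).le)
      tendsto_one_div_add_atTop_nhds_zero_nat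
  obtain ⟨φ, φ0, φm, φi⟩ := exists_pos_lintegral_lt_of_sigmaFinite (volume : Measure (E d))
    one_ne_zero
  have φi' : Integrable fun x => (φ x : ℝ) :=
    ⟨φm.coe_nnreal_real.aestronglyMeasurable, by
      rw [hasFiniteIntegral_iff_ofNNReal]
      exact φi.trans ENNReal.one_lt_top⟩
  let c : E d → ℝ := fun x => φ x / (1 + ‖b x‖)
  have c0 : ∀ x, 0 < c x := fun x => div_pos (φ0 x) (by positivity)
  have cm : Measurable c := φm.coe_nnreal_real.div (hb'.norm.const_add 1)
  have hg : Integrable fun x => c x • b x := by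
    refine φi'.mono' (cm.smul hb').aestronglyMeasurable (Eventually.of_forall fun x => ?_)
    rw [norm_smul, Real.norm_of_nonneg (c0 x).le, div_mul_eq_mul_div, div_le_iff₀ (by positivity)]
    gcongr
    linarith
  obtain ⟨ns, h3⟩ := up_seq hg hv
  filter_upwards [h3, ae_all_iff.2 hv2] with y a1 a2
  have hc : Continuous fun u : ι → ℝ => ξ y ⬝ᵥ u := continuous_const.dotProduct continuous_id
  have a3 := (hc.tendsto _).comp a1
  have a4 : ξ y ⬝ᵥ (c (y + w) • b (y + w)) = 0 :=
    tendsto_nhds_unique a3 (tendsto_const_nhds.congr fun k => by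
      simp only [Function.comp_apply, dotProduct_smul, a2, smul_zero])
  rw [dotProduct_smul, smul_eq_mul] at a4
  exact (mul_eq_zero.1 a4).resolve_left (c0 _).ne'

end Pool.Agent.MP_66cee2_co.X
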