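import Pool.Agent.MP_66cee2_co.X.BasicJ

/-
Exponential lower bound: density points, approximate continuity and the diagonal argument.
-/

namespace Pool.Agent.MP_66cee2_co.X

open MeasureTheory Set Filter Metric Topology
open scoped ENNReal

theorem app_dens (d : ℕ) (S : Set (E d)) (hS : MeasurableSet S) :
    ∀ᵐ y, y ∈ S → Small fun _ => {η | y + η ∉ S} := by
  filter_upwards [Besicovitch.ae_tendsto_measure_inter_div_of_measurableSet
    (volume : Measure (E d)) hS.compl] with y hy hyS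
  have h0 : (Sᶜ.indicator (1 : E d → ℝ≥0∞)) y = 0 :=
    indicator_of_notMem (by simpa using hyS) _
  rw [h0] at hy
  refine tendsto_of_tendsto_of_tendsto_of_le_of_le' tendsto_const_nhds hy
    (Eventually.of_forall fun _ => zero_le) (ev_pos.mono fun τ hτ => ?_)
  have e : volume (closedBall y τ) = volume (ball (0 : E d) τ) := by
    rw [Measure.addHaar_closedBall _ _ hτ.le, Measure.addHaar_ball_of_pos _ _ hτ]
  simp only
  rw [e]
  refine ENNReal.div_le_div_right ?_ _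
  rw [← measure_preimage_add volume y (Sᶜ ∩ closedBall y τ)]
  refine measure_mono fun η hη => ⟨hη.1, ?_⟩
  have h2 := hη.2
  rw [mem_ball_zero_iff] at h2
  rw [mem_closedBall, dist_eq_norm, add_sub_cancel_left]
  exact h2.le

theorem app_apc (d : ℕ) (f : E d → ℝ) (hf : Measurable f) :
    ∀ᵐ y, ApC (fun η => f (y + η)) (f y) := by
  have h : ∀ᵐ y, ∀ p : ℚ × ℚ, y ∈ f ⁻¹' Ioo (p.1 : ℝ) p.2 →
      Small fun _ => {η | y + η ∉ f ⁻¹' Ioo (p.1 : ℝ) p.2} :=
    ae_all_iff.2 fun p => app_dens d _ (hf measurableSet_Ioo)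
  filter_upwards [h] with y hy ε hε
  obtain ⟨p, hp1, hp2⟩ := exists_rat_btwn (show f y - ε < f y by linarith)
  obtain ⟨q, hq1, hq2⟩ := exists_rat_btwn (show f y < f y + ε by linarith)
  refine small_iff.2 ((small_iff.1 (hy (p, q) ⟨hp2, hq1⟩)).mono' fun τ η hη h' => ?_)
  have h1 : ε < |f (y + η) - f y| := hη
  have h2 : (p : ℝ) < f (y + η) := h'.1
  have h3 : f (y + η) < q := h'.2
  have h4 : |f (y + η) - f y| < ε := abs_lt.2 ⟨by linarith, by linarith⟩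
  linarith

theorem app_diag (d : ℕ) (S : ℝ → ℝ → Set (E d)) (h : ∀ ε, 0 < ε → Small (S ε)) :
    ∃ o : ℝ → ℝ, (∀ τ, 0 < o τ) ∧ Tendsto o (𝓝[>] 0) (𝓝 0) ∧ Small fun τ => S (o τ) τ := by
  classical
  have h1 : ∀ k : ℕ, ∃ δ : ℝ, 0 < δ ∧ ∀ τ, 0 < τ → τ < δ →
      volume (S (1 / ((k : ℝ) + 1)) τ ∩ ball 0 τ) / volume (ball (0 : E d) τ) ≤
        ENNReal.ofReal (1 / ((k : ℝ) + 1)) := by
    intro k
    have hk : (0 : ℝ) < 1 / ((k : ℝ) + 1) := by positivity
    have h2 := (h _ hk).eventually (Iic_mem_nhds (ENNReal.ofReal_pos.2 hk))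
    obtain ⟨δ, hδ, h3⟩ := mem_nhdsGT_iff_exists_Ioo_subset.1 h2
    exact ⟨δ, hδ, fun τ h0 hτ => h3 ⟨h0, hτ⟩⟩
  choose δ hδ hS using h1
  let K : ℝ → ℕ := fun τ => Nat.findGreatest (fun k => τ < δ k) ⌊1 / τ⌋₊
  have hK : ∀ k : ℕ, ∀ᶠ τ in 𝓝[>] (0 : ℝ), k ≤ K τ ∧ τ < δ (K τ) := by
    intro k
    have hk : (0 : ℝ) < 1 / ((k : ℝ) + 1) := by positivity
    filter_upwards [ev_pos, ev_lt (hδ k), ev_lt hk] with τ h0 h2 h3
    have h4 : k ≤ ⌊1 / τ⌋₊ := by
      refine Nat.le_floor ?_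
      rw [le_div_iff₀ h0]
      rw [lt_div_iff₀ (by positivity)] at h3
      nlinarith
    exact ⟨Nat.le_findGreatest h4 h2, Nat.findGreatest_spec (P := fun k => τ < δ k) h4 h2⟩
  have hT : Tendsto K (𝓝[>] 0) atTop :=
    tendsto_atTop.2 fun k => (hK k).mono fun _ h => h.1
  have ho : Tendsto (fun τ => 1 / ((K τ : ℝ) + 1)) (𝓝[>] 0) (𝓝 0) :=
    tendsto_one_div_add_atTop_nhds_zero_nat.comp hT
  refine ⟨fun τ => 1 / ((K τ : ℝ) + 1), fun τ => by positivity, ho, ?_⟩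
  have h5 := ENNReal.tendsto_ofReal ho
  rw [ENNReal.ofReal_zero] at h5
  refine tendsto_of_tendsto_of_tendsto_of_le_of_le' tendsto_const_nhds h5
    (Eventually.of_forall fun _ => zero_le) ?_
  filter_upwards [ev_pos, hK 0] with τ h0 h2
  exact hS _ τ h0 h2.2

theorem sApp : SApp := ⟨app_apc, app_dens, app_diag⟩

end Pool.Agent.MP_66cee2_co.X
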