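import Pool.Agent.MP_66cee2_co.X.BasicJ

/-
Row Base: approximate Taylor expansions of order one half exist almost everywhere.
-/

namespace Pool.Agent.MP_66cee2_co.X

open MeasureTheory Set Filter Metric Topology
open scoped ENNReal

/-- the oscillation of a polynomial with small coefficients on a small ball. -/
theorem base_osc (d D : ℕ) : ∃ N : ℝ, ∀ (p : MvPolynomial (Fin d) ℝ) (R t M : ℝ) (η : E d),
    p.totalDegree ≤ D → 0 ≤ R → 0 ≤ t → t ≤ 1 →
    (∀ m : Fin d →₀ ℕ, |p.coeff m| * R ^ m.degree ≤ M) → ‖η‖ ≤ t * R →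
    |ev p η - ev p 0| ≤ N * (M * t) := by
  refine ⟨(Finsupp.finite_of_degree_le (σ := Fin d) D).toFinset.card,
    fun p R t M η hD hR h0 h1 hM hη => ?_⟩
  have hM0 : 0 ≤ M := le_trans (by positivity) (hM 0)
  have h2 : p.support ⊆ (Finsupp.finite_of_degree_le (σ := Fin d) D).toFinset := fun m hm => by
    simp only [Set.Finite.mem_toFinset, mem_ofPred_eq]
    exact (MvPolynomial.le_totalDegree hm).trans hD
  have h3 : ∀ m : Fin d →₀ ℕ,
      |p.coeff m * ∏ i, η i ^ m i - p.coeff m * ∏ i, (0 : E d) i ^ m i| ≤ M * t := by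
    intro m
    by_cases hm : m = 0
    · subst hm
      simpa using mul_nonneg hM0 h0
    · have h4 : ∏ i, (0 : E d) i ^ m i = 0 := by
        obtain ⟨i, hi⟩ := Finsupp.ne_iff.1 hm
        exact Finset.prod_eq_zero (Finset.mem_univ i) (by simpa using hi)
      have h5 : |∏ i, η i ^ m i| ≤ (t * R) ^ m.degree := by
        rw [Finsupp.degree_eq_sum, ← Finset.prod_pow_eq_pow_sum, Finset.abs_prod]
        refine Finset.prod_le_prod (fun i _ => abs_nonneg _) fun i _ => ?_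
        rw [abs_pow]
        exact pow_le_pow_left₀ (abs_nonneg _) ((PiLp.norm_apply_le η i).trans hη) _
      have h6 : t ^ m.degree ≤ t :=
        pow_le_of_le_one h0 h1 fun e => hm ((Finsupp.degree_eq_zero_iff m).1 e)
      rw [h4, mul_zero, sub_zero, abs_mul]
      calc |p.coeff m| * |∏ i, η i ^ m i| ≤ |p.coeff m| * (t * R) ^ m.degree :=
            mul_le_mul_of_nonneg_left h5 (abs_nonneg _)
        _ = |p.coeff m| * R ^ m.degree * t ^ m.degree := by rw [mul_pow]; ring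
        _ ≤ M * t := mul_le_mul (hM m) h6 (by positivity) hM0
  simp only [ev, MvPolynomial.eval_eq']
  rw [← Finset.sum_sub_distrib]
  refine (Finset.abs_sum_le_sum_abs _ _).trans
    ((Finset.sum_le_card_nsmul _ _ _ fun m _ => h3 m).trans ?_)
  rw [nsmul_eq_mul]
  exact mul_le_mul_of_nonneg_right (Nat.cast_le.2 (Finset.card_le_card h2)) (mul_nonneg hM0 h0)

theorem base_lin {A ε : ℝ} (hε : 0 < ε) : ∀ᶠ t in 𝓝[>] (0 : ℝ), A * t ≤ ε := by
  have : Tendsto (fun t : ℝ => A * t) (𝓝 0) (𝓝 (A * 0)) := tendsto_id.const_mul A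
  rw [mul_zero] at this
  exact (this.mono_left nhdsWithin_le_nhds).eventually (Iic_mem_nhds hε)

/-- a function close to a constant and much closer to a polynomial is flat at smaller scales. -/
theorem base_flat (hP : SPoly) {d : ℕ} {f : E d → ℝ} {g o c : ℝ → ℝ} {C : ℝ} (hg : ∀ τ, 0 ≤ g τ)
    (ho : ∀ τ, 0 ≤ o τ) (ho' : Tendsto o (𝓝[>] 0) (𝓝 0))
    (h1 : Small fun τ => {η | C * g τ < |f η - c τ|}) (h2 : Approx f fun τ => g τ * o τ) :
    ∃ v : ℝ → ℝ, ∀ᶠ t in 𝓝[>] (0 : ℝ),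
      SmR (2 * t ^ 2) fun τ => {η | t / 2 * g τ < |f η - v τ|} := by
  obtain ⟨D, p, hD, h2⟩ := h2
  obtain ⟨C', c', -, hc0, hc1, h2⟩ := h2.exists_pos fun τ => mul_nonneg (hg τ) (ho τ)
  obtain ⟨K, hK⟩ := hP d D
  obtain ⟨N, hN⟩ := base_osc d D
  have h3 : ∀ ε : ℝ, 0 < ε → ∀ᶠ τ in 𝓝[>] (0 : ℝ), C' * o τ ≤ ε := fun ε hε => by
    have := ho'.const_mul C'
    rw [mul_zero] at this
    exact this.eventually (Iic_mem_nhds hε)
  have h4 : SmR c' fun τ => {η | (|C| + 1) * g τ < |ev (p τ - MvPolynomial.C (c τ)) η|} := by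
    refine (((small_iff.1 h1).mono_rad hc1).union h2).mono ((h3 1 one_pos).mono fun τ hτ η _ hη => ?_)
    by_contra hn
    simp only [mem_union, mem_ofPred_eq, not_or, not_lt, ev_sub, ev_C] at hn hη
    have k1 := abs_sub_le (ev (p τ) η) (f η) (c τ)
    rw [abs_sub_comm (ev (p τ) η) (f η)] at k1
    have k2 : C * g τ ≤ |C| * g τ := mul_le_mul_of_nonneg_right (le_abs_self C) (hg τ)
    have k3 : C' * o τ * g τ ≤ 1 * g τ := mul_le_mul_of_nonneg_right hτ (hg τ)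
    linarith [hn.1, hn.2]
  refine ⟨fun τ => ev (p τ) 0, ?_⟩
  filter_upwards [ev_pos, ev_lt one_pos, base_lin (A := 2) hc0,
    base_lin (A := N * (K * (|C| + 1) * 2 / c')) (ε := 1 / 4) (by norm_num)] with t t0 t1 t2 t3
  have t4 : 2 * t ^ 2 ≤ c' := by nlinarith
  refine (h2.mono_rad t4).mono ?_
  filter_upwards [ev_pos, h4.half hc0, h3 (t / 4) (by positivity)] with τ τ0 k1 k2 η hη k3
  by_contra hn
  simp only [not_lt] at hn
  have hq : (p τ - MvPolynomial.C (c τ)).totalDegree ≤ D :=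
    (MvPolynomial.totalDegree_sub _ _).trans (max_le (hD τ) (by simp))
  have k4 := hK _ (c' * τ) _ hq (mul_pos hc0 τ0) (mul_nonneg (by positivity) (hg τ)) k1
  have k5 := hN _ (c' * τ) (2 * t ^ 2 / c') _ η hq (by positivity) (by positivity)
    ((div_le_one hc0).2 t4) k4 (by
      rw [← mul_assoc, div_mul_cancel₀ _ hc0.ne']
      exact (mem_ball_zero_iff.1 hη).le)
  simp only [ev_sub, ev_C, sub_sub_sub_cancel_right] at k5
  have k6 := abs_sub_le (f η) (ev (p τ) η) (ev (p τ) 0)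
  have k7 : C' * o τ * g τ ≤ t / 4 * g τ := mul_le_mul_of_nonneg_right k2 (hg τ)
  have k8 : N * (K * (|C| + 1) * 2 / c') * t * (t * g τ) ≤ 1 / 4 * (t * g τ) :=
    mul_le_mul_of_nonneg_right t3 (mul_nonneg t0.le (hg τ))
  have k9 : N * (K * ((|C| + 1) * g τ) * (2 * t ^ 2 / c')) =
      N * (K * (|C| + 1) * 2 / c') * t * (t * g τ) := by ring
  linarith

/-- iteration over the scales. -/
theorem base_iter {G : ℝ → ℝ} {t : ℝ} (t0 : 0 < t) (t1 : t < 1)
    (h : ∀ᶠ s in 𝓝[>] (0 : ℝ), G s ≤ 2 ∧ G (t ^ 2 * s) ≤ t * G s) :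
    ∃ K : ℝ, ∀ᶠ s in 𝓝[>] (0 : ℝ), G s ≤ K * √s := by
  obtain ⟨r, hr, h⟩ := mem_nhdsGT_iff_exists_Ioo_subset.1 h
  have r0 : 0 < r := hr
  have q0 : 0 < t ^ 2 := by positivity
  have hs : 0 < t * √r := mul_pos t0 (Real.sqrt_pos.2 r0)
  have e : ∀ s : ℝ, √(t ^ 2 * s) = t * √s := fun s => by
    rw [Real.sqrt_mul q0.le, Real.sqrt_sq t0.le]
  have key : ∀ (n : ℕ) (s : ℝ), (t ^ 2) ^ n * r ≤ s → s < r → G s ≤ 2 / (t * √r) * √s := by
    intro n
    induction n with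
    | zero => exact fun s h1 h2 => absurd h2 (by simpa using h1)
    | succ n ih =>
      intro s h1 h2
      have s0 : 0 < s := lt_of_lt_of_le (by positivity) h1
      rcases le_or_gt (t ^ 2 * r) s with h3 | h3
      · have h4 := Real.sqrt_le_sqrt h3
        rw [e] at h4
        refine (h ⟨s0, h2⟩).1.trans ?_
        rw [div_mul_eq_mul_div, le_div_iff₀ hs]
        linarith
      · obtain ⟨s', rfl⟩ : ∃ s', s = t ^ 2 * s' := ⟨s / t ^ 2, by field_simp⟩
        have h4 : s' < r := lt_of_mul_lt_mul_left h3 q0.le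
        have h5 : (t ^ 2) ^ n * r ≤ s' := by
          rw [pow_succ', mul_assoc] at h1
          exact le_of_mul_le_mul_left h1 q0
        refine (h ⟨pos_of_mul_pos_right s0 q0.le, h4⟩).2.trans ?_
        rw [e]
        exact (mul_le_mul_of_nonneg_left (ih s' h5 h4) t0.le).trans (le_of_eq (by ring))
  refine ⟨2 / (t * √r), ?_⟩
  filter_upwards [ev_pos, ev_lt r0] with s s0 s1
  obtain ⟨n, hn⟩ := exists_pow_lt_of_lt_one (div_pos s0 r0) (show t ^ 2 < 1 by nlinarith)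
  exact key n s ((lt_div_iff₀ r0).1 hn).le s1

/-- the oscillation is at most `r` off a set of density `κ`. -/
def base_good {d : ℕ} {ι : Type} (f : E d → ι → ℝ) (κ τ r : ℝ) (c : ι → ℝ) : Prop :=
  volume ({η | ∃ a, r < |f η a - c a|} ∩ ball 0 τ) ≤ ENNReal.ofReal κ * volume (ball (0 : E d) τ)

theorem base_quant {d : ℕ} {ι : Type} (f : E d → ι → ℝ) (κ : ℝ) :
    ∃ (G : ℝ → ℝ) (c : ℝ → ι → ℝ), (∀ τ, |τ| ≤ G τ) ∧ ∀ τ r c', 0 < τ → 0 ≤ r →
      base_good f κ τ r c' → G τ ≤ r + τ ∧ base_good f κ τ (G τ) (c τ) := by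
  have h1 : ∀ τ r : ℝ, ∃ c, (∃ c', base_good f κ τ r c') → base_good f κ τ r c := fun τ r => by
    by_cases h : ∃ c', base_good f κ τ r c'
    · exact ⟨h.choose, fun _ => h.choose_spec⟩
    · exact ⟨0, fun h' => absurd h' h⟩
  choose c hc using h1
  refine ⟨fun τ => sInf {r | 0 ≤ r ∧ ∃ c', base_good f κ τ r c'} + |τ|, fun τ => c τ _,
    fun τ => le_add_of_nonneg_left (Real.sInf_nonneg fun r hr => hr.1),
    fun τ r c' τ0 r0 h => ⟨?_, hc _ _ ?_⟩⟩
  · exact add_le_add (csInf_le ⟨0, fun r hr => hr.1⟩ ⟨r0, c', h⟩) (abs_of_pos τ0).le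
  · obtain ⟨r', ⟨-, c'', h'⟩, h2⟩ := exists_lt_of_csInf_lt
      (s := {r | 0 ≤ r ∧ ∃ c', base_good f κ τ r c'}) ⟨r, r0, c', h⟩
      (lt_add_of_pos_right _ (abs_pos.2 τ0.ne'))
    refine ⟨c'', le_trans (measure_mono (inter_subset_inter_left _ ?_)) h'⟩
    rintro η ⟨a, ha⟩
    exact ⟨a, h2.trans ha⟩

theorem base_loc (hP : SPoly) (hT : STele) {d : ℕ} {ι : Type} [Finite ι] {f : E d → ι → ℝ}
    {f₀ : ι → ℝ} {κ C : ℝ} {o : ℝ → ℝ} (hκ : 0 < κ) (hap : ∀ a, ApC (fun η => f η a) (f₀ a))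
    (ho : ∀ τ, 0 ≤ o τ) (ho' : Tendsto o (𝓝[>] 0) (𝓝 0))
    (hB : ∀ (c : ℝ → ι → ℝ) (F : ℝ → ℝ), (∀ τ, 0 ≤ F τ) →
      (∀ᶠ τ in 𝓝[>] (0 : ℝ), base_good f κ τ (F τ) (c τ)) →
      SmR (1 / 2) fun τ => {η | ∃ a, C * F τ < |f η a - c τ a|})
    (hC : ∀ (c : ℝ → ι → ℝ) (g : ℝ → ℝ), (∀ τ, 0 ≤ g τ) →
      (Small fun τ => {η | ∃ a, C * g τ < |f η a - c τ a|}) →
      ∀ a, Approx (fun η => f η a) fun τ => g τ * o τ) (a : ι) :
    HasTay (fun η => f η a) (1 / 2) := by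
  obtain ⟨G, c, G0, hG⟩ := base_quant f κ
  have G1 : ∀ τ, 0 ≤ G τ := fun τ => (abs_nonneg τ).trans (G0 τ)
  have h1 : ∀ᶠ τ in 𝓝[>] (0 : ℝ), G τ ≤ 1 + τ ∧ base_good f κ τ (G τ) (c τ) := by
    filter_upwards [ev_pos, (smR_exists fun a => small_iff.1 (hap a 1 one_pos)).eventually_le
      one_pos hκ] with τ τ0 h
    rw [one_mul] at h
    exact hG τ 1 f₀ τ0 zero_le_one h
  have h2 : Small fun τ => {η | ∃ a, C * G (2 * τ) < |f η a - c (2 * τ) a|} := by
    have := (hB c G G1 (h1.mono fun τ h => h.2)).scale two_pos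
    rw [one_div, inv_mul_cancel₀ two_ne_zero] at this
    exact small_iff.2 this
  have h3 : ∀ a, Small fun τ => {η | C * G (2 * τ) < |f η a - c (2 * τ) a|} := fun a =>
    small_iff.2 ((small_iff.1 h2).mono' fun τ η h => ⟨a, h⟩)
  choose v hv using fun a => base_flat hP (fun τ => G1 (2 * τ)) ho ho' (h3 a)
    (hC (fun τ => c (2 * τ)) (fun τ => G (2 * τ)) (fun τ => G1 _) h2 a)
  obtain ⟨t, ht, t0, t1⟩ :=
    ((eventually_all.2 hv).and (ev_pos.and (ev_lt (a := 1 / 2) (by norm_num)))).exists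
  have q0 : 0 < 2 * t ^ 2 := by positivity
  have h4 : ∀ᶠ τ in 𝓝[>] (0 : ℝ), G (t ^ 2 * (2 * τ)) ≤ t * G (2 * τ) := by
    filter_upwards [ev_pos, (smR_exists ht).eventually_le q0 hκ] with τ τ0 h
    have k1 := (hG (2 * t ^ 2 * τ) (t / 2 * G (2 * τ)) (fun a => v a τ) (mul_pos q0 τ0)
      (mul_nonneg (by positivity) (G1 _)) h).1
    have k2 : 2 * τ ≤ G (2 * τ) := (le_abs_self _).trans (G0 _)
    have k3 : t * (2 * τ) ≤ 1 / 2 * G (2 * τ) := mul_le_mul t1.le k2 (by positivity) (by norm_num)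
    have k4 := mul_le_mul_of_nonneg_left k3 t0.le
    rw [show t ^ 2 * (2 * τ) = 2 * t ^ 2 * τ by ring]
    nlinarith
  obtain ⟨K, hK⟩ := base_iter (G := G) t0 (by linarith) (by
    filter_upwards [h1, ev_lt one_pos,
      (tendsto_scale (a := 1 / 2) (by norm_num)).eventually h4] with s k1 k2 k3
    rw [show 2 * (1 / 2 * s) = s by ring] at k3
    exact ⟨by linarith [k1.1], k3⟩)
  refine hT d _ _ (by norm_num) (fun k hk => ?_)
    ⟨0, fun τ => MvPolynomial.C (c (2 * τ) a), fun τ => by simp, ?_⟩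
  · have k1 : ((2 * k : ℕ) : ℝ) = (1 : ℕ) := by
      push_cast
      linarith
    have := Nat.cast_injective k1
    omega
  · refine Neg.mono_err (e := fun τ => G (2 * τ)) (K := K * √2)
      ⟨C, 1, one_pos, by simpa only [ev_C] using small_iff.1 (h3 a)⟩ (fun τ => G1 _) ?_
    filter_upwards [ev_pos, (tendsto_scale two_pos).eventually hK] with τ τ0 h
    rwa [abs_of_pos τ0, ← Real.sqrt_eq_rpow, mul_assoc, ← Real.sqrt_mul zero_le_two]

theorem base_diag (hA : SApp) {d : ℕ} {ι β : Type} [Finite ι] [Finite β]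
    (b : E d → E d → β → ι → ℝ) (b₀ : E d → β → ι → ℝ) (F : Finset (E d))
    (hF : ∀ x ∈ F, ∀ k a, ApC (fun η => b x η k a) (b₀ x k a)) :
    ∃ o : ℝ → ℝ, (∀ τ, 0 ≤ o τ) ∧ Tendsto o (𝓝[>] 0) (𝓝 0) ∧
      ∀ x ∈ F, ∀ k, Small fun τ => {η | ∃ a, o τ < |b x η k a - b₀ x k a|} := by
  obtain ⟨o, o0, o1, o2⟩ := hA.diag d
    (fun ε _ => {η | ∃ x ∈ F, ∃ k a, ε < |b x η k a - b₀ x k a|}) fun ε hε =>
      small_iff.2 (smR_biUnion F
        (S := fun x _ => {η | ∃ k a, ε < |b x η k a - b₀ x k a|}) fun x hx =>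
        smR_exists (S := fun k _ => {η | ∃ a, ε < |b x η k a - b₀ x k a|}) fun k =>
        smR_exists (S := fun a _ => {η | ε < |b x η k a - b₀ x k a|}) fun a =>
        small_iff.1 (hF x hx k a ε hε))
  exact ⟨o, fun τ => (o0 τ).le, o1,
    fun x hx k => small_iff.2 ((small_iff.1 o2).mono' fun τ η h => ⟨x, hx, k, h⟩)⟩

theorem sBase (hA : SApp) (hP : SPoly) (hT : STele) (hC : SCore) (hB : SBaseA) : SBase := by
  intro d ι β _ _ b J ξ hd hD
  have h1 : ∀ᵐ x : E d, ∀ k a, ApC (fun η => b (x + η) k a) (b x k a) :=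
    ae_all_iff.2 fun k => ae_all_iff.2 fun a => hA.apc d (fun x => b x k a) (hD.mb k a)
  have h2 : ∀ᵐ y : E d, ∀ a, ApC (fun η => ξ (y + η) a) (ξ y a) :=
    ae_all_iff.2 fun a => hA.apc d (fun x => ξ x a) (hD.mξ a)
  refine ((hB d ι β b J ξ hd hD).and ((hC d ι β b J ξ
    (fun x => ∀ k a, ApC (fun η => b (x + η) k a) (b x k a)) hd hD h1).and h2)).mono ?_
  rintro y ⟨⟨κ, C, hκ, k1⟩, ⟨F, hF, k2⟩, k3⟩
  obtain ⟨o, o0, o1, o3⟩ := base_diag hA (fun x η => b (x + η)) b F hF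
  refine base_loc hP hT (f := fun η => ξ (y + η)) (f₀ := ξ y) (C := C) hκ k3 o0 o1 k1
    fun c g g0 hg => ?_
  refine k2 0 (fun τ a => MvPolynomial.C (c τ a)) (fun x k a => MvPolynomial.C (b x k a))
    (fun τ => C * g τ) o o (fun _ => 0) (fun τ => g τ * o τ) (fun τ a => by simp)
    (fun x _ k a => by simp) ?_ o3 ?_ (Eventually.of_forall fun τ a η _ η' _ => by simp)
    (fun τ => mul_nonneg (g0 τ) (o0 τ)) ⟨C, Eventually.of_forall fun τ => le_of_eq (by ring)⟩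
  · simpa only [ev_C] using hg
  · simpa only [ev_C] using o3

end Pool.Agent.MP_66cee2_co.X
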