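import Pool.Agent.MP_66cee2_co.X.BasicJ

/-
A fixed quantile of the oscillation controls the oscillation on a set of density one.
-/

namespace Pool.Agent.MP_66cee2_co.X

open MeasureTheory Set Filter Metric Topology
open scoped ENNReal

section

variable {d : ℕ} {ι β : Type} [Fintype ι] [Fintype β] {b : E d → β → ι → ℝ} {J : E d → Finset ι}
  {ξ : E d → ι → ℝ}

omit [Fintype β] in
/-- the family can be taken bounded. -/
theorem basea_norm (h : Dual b J ξ) :
    ∃ b' : E d → β → ι → ℝ, Dual b' J ξ ∧ ∀ x k a, |b' x k a| ≤ 1 := by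
  have hp : ∀ x k, 0 < 1 + ‖b x k‖ := fun x k => by positivity
  have he : ∀ (ζ : ι → ℝ) x k, ζ ⬝ᵥ ((1 + ‖b x k‖)⁻¹ • b x k) = 0 ↔ ζ ⬝ᵥ b x k = 0 := by
    intro ζ x k
    rw [dotProduct_smul, smul_eq_mul, mul_eq_zero, or_iff_right (inv_pos.2 (hp x k)).ne']
  refine ⟨fun x k => (1 + ‖b x k‖)⁻¹ • b x k, ⟨fun k a => ?_, h.mJ, h.mξ, h.nrm, fun k => ?_, ?_⟩,
    fun x k a => ?_⟩
  · exact (measurable_const.add (measurable_pi_lambda _ (h.mb k)).norm).inv.mul (h.mb k a)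
  · simpa only [he] using h.orth k
  · simpa only [he] using h.uniq
  · have := norm_le_pi_norm (b x k) a
    beta_reduce
    rw [Pi.smul_apply, smul_eq_mul, abs_mul, abs_of_pos (inv_pos.2 (hp x k)),
      inv_mul_le_iff₀ (hp x k)]
    rw [Real.norm_eq_abs] at this
    linarith

theorem basea_dot {ζ v : ι → ℝ} {r : ℝ} (hζ : ∀ a, |ζ a| ≤ r) (hv : ∀ a, |v a| ≤ 1) :
    |ζ ⬝ᵥ v| ≤ Fintype.card ι * r := by
  refine (Finset.abs_sum_le_sum_abs _ _).trans ?_
  refine (Finset.sum_le_card_nsmul _ _ r fun a _ => ?_).trans (by simp)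
  rw [abs_mul]
  exact (mul_le_of_le_one_right (abs_nonneg _) (hv a)).trans (hζ a)

omit [Fintype ι] in
theorem basea_sq {t : β → ℝ} {r : ℝ} (h : ∀ k, |t k| ≤ r) :
    ∑ k, t k ^ 2 ≤ Fintype.card β * r ^ 2 := by
  refine (Finset.sum_le_card_nsmul _ _ (r ^ 2) fun k _ => ?_).trans (by simp)
  rw [← sq_abs]
  exact pow_le_pow_left₀ (abs_nonneg _) (h k) 2

/-- the Gram matrix. -/
noncomputable def baseaG (b : E d → β → ι → ℝ) (a a' : ι) (y : E d) : ℝ :=
  ∫ ω, ∑ k, b (y + ω) k a * b (y + ω) k a' ∂sig d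

omit [Fintype ι] in
theorem basea_measG (hb : ∀ k a, Measurable fun x => b x k a) (a a' : ι) :
    Measurable (baseaG b a a') := by
  have : Measurable fun z : E d × E d => ∑ k, b (z.1 + z.2) k a * b (z.1 + z.2) k a' :=
    Finset.measurable_sum _ fun k _ =>
      ((hb k a).comp measurable_add).mul ((hb k a').comp measurable_add)
  exact (this.stronglyMeasurable.integral_prod_right' (ν := sig d)).measurable

theorem basea_measq (hb : ∀ k a, Measurable fun x => b x k a) (ζ : ι → ℝ) (y : E d) :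
    Measurable fun ω => ∑ k, (ζ ⬝ᵥ b (y + ω) k) ^ 2 :=
  Finset.measurable_sum _ fun k _ => (Finset.measurable_sum _ fun a _ =>
    measurable_const.mul ((hb k a).comp (measurable_const_add y))).pow_const 2

theorem basea_qle (h1 : ∀ x k a, |b x k a| ≤ 1) (ζ : ι → ℝ) (x : E d) :
    ∑ k, (ζ ⬝ᵥ b x k) ^ 2 ≤ Fintype.card β * (Fintype.card ι * ‖ζ‖) ^ 2 :=
  basea_sq fun k => basea_dot (fun a => norm_le_pi_norm ζ a) (h1 x k)

theorem basea_intq (hb : ∀ k a, Measurable fun x => b x k a) (h1 : ∀ x k a, |b x k a| ≤ 1)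
    (ζ : ι → ℝ) (y : E d) : Integrable (fun ω => ∑ k, (ζ ⬝ᵥ b (y + ω) k) ^ 2) (sig d) :=
  Integrable.of_bound (basea_measq hb ζ y).aestronglyMeasurable _ (Eventually.of_forall fun ω => by
    rw [Real.norm_eq_abs, abs_of_nonneg (by positivity)]
    exact basea_qle h1 ζ _)

theorem basea_q (hb : ∀ k a, Measurable fun x => b x k a) (h1 : ∀ x k a, |b x k a| ≤ 1)
    (ζ : ι → ℝ) (y : E d) : ∫ ω, ∑ k, (ζ ⬝ᵥ b (y + ω) k) ^ 2 ∂sig d =
      ∑ a, ∑ a', ζ a * ζ a' * baseaG b a a' y := by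
  have hi : ∀ a a', Integrable
      (fun ω => ζ a * ζ a' * ∑ k, b (y + ω) k a * b (y + ω) k a') (sig d) := by
    intro a a'
    refine Integrable.const_mul (integrable_finsetSum _ fun k _ => Integrable.of_bound
      (((hb k a).comp (measurable_const_add y)).mul
        ((hb k a').comp (measurable_const_add y))).aestronglyMeasurable 1
      (Eventually.of_forall fun ω => ?_)) _
    rw [Real.norm_eq_abs, Pi.mul_apply, abs_mul]
    exact mul_le_one₀ (h1 _ _ _) (abs_nonneg _) (h1 _ _ _)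
  have e : ∀ ω, ∑ k, (ζ ⬝ᵥ b (y + ω) k) ^ 2 =
      ∑ a, ∑ a', ζ a * ζ a' * ∑ k, b (y + ω) k a * b (y + ω) k a' := by
    intro ω
    simp only [dotProduct, sq, Finset.sum_mul_sum]
    simp only [Finset.mul_sum]
    rw [Finset.sum_comm]
    refine Finset.sum_congr rfl fun a _ => ?_
    rw [Finset.sum_comm]
    exact Finset.sum_congr rfl fun a' _ => Finset.sum_congr rfl fun k _ => by ring
  simp only [e]
  rw [integral_finsetSum _ fun a _ => integrable_finsetSum _ fun a' _ => hi a a']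
  refine Finset.sum_congr rfl fun a _ => ?_
  rw [integral_finsetSum _ fun a' _ => hi a a']
  exact Finset.sum_congr rfl fun a' _ => integral_const_mul _ _

/-- the Gram matrix is positive definite on the vectors that vanish on `S`. -/
theorem basea_low (hb : ∀ k a, Measurable fun x => b x k a) (h1 : ∀ x k a, |b x k a| ≤ 1)
    (y : E d) (S : Finset ι)
    (hu : ∀ ζ : ι → ℝ, (∀ᵐ ω ∂sig d, ∀ k, ζ ⬝ᵥ b (y + ω) k = 0) → (∀ a ∈ S, ζ a = 0) → ζ = 0) :
    ∃ l : ℝ, 0 < l ∧ ∀ ζ : ι → ℝ, (∀ a ∈ S, ζ a = 0) →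
      l * ‖ζ‖ ^ 2 ≤ ∑ a, ∑ a', ζ a * ζ a' * baseaG b a a' y := by
  have hK : IsCompact (sphere (0 : ι → ℝ) 1 ∩ {ζ | ∀ a ∈ S, ζ a = 0}) := by
    refine (isCompact_sphere 0 1).inter_right ?_
    simp only [ofPred_forall]
    exact isClosed_iInter fun a => isClosed_iInter fun _ =>
      isClosed_eq (continuous_apply a) continuous_const
  have hc : Continuous fun ζ : ι → ℝ => ∑ a, ∑ a', ζ a * ζ a' * baseaG b a a' y := by fun_prop
  obtain ⟨l, hl, h⟩ := hK.exists_forall_le' hc.continuousOn (a := 0) fun ζ hζ => by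
    rw [← basea_q hb h1]
    have h0 : 0 ≤ fun ω => ∑ k, (ζ ⬝ᵥ b (y + ω) k) ^ 2 := fun ω => by positivity
    refine (integral_nonneg h0).lt_of_ne' fun e => ?_
    have h2 := (integral_eq_zero_iff_of_nonneg h0 (basea_intq hb h1 ζ y)).1 e
    have h3 := hu ζ (h2.mono fun ω hω k => pow_eq_zero_iff two_ne_zero |>.1
      ((Finset.sum_eq_zero_iff_of_nonneg fun k _ => sq_nonneg _).1 hω k (Finset.mem_univ k))) hζ.2
    have h4 := hζ.1
    rw [h3] at h4
    simp at h4
  refine ⟨l, hl, fun ζ hζ => ?_⟩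
  by_cases h0 : ζ = 0
  · simp [h0]
  have hn : 0 < ‖ζ‖ := norm_pos_iff.2 h0
  have h2 := h (‖ζ‖⁻¹ • ζ) ⟨by simp [norm_smul, hn.ne'], fun a ha => by simp [hζ a ha]⟩
  have e : ∑ a, ∑ a', (‖ζ‖⁻¹ • ζ) a * (‖ζ‖⁻¹ • ζ) a' * baseaG b a a' y =
      (∑ a, ∑ a', ζ a * ζ a' * baseaG b a a' y) / ‖ζ‖ ^ 2 := by
    simp only [Finset.sum_div, Pi.smul_apply, smul_eq_mul]
    refine Finset.sum_congr rfl fun a _ => Finset.sum_congr rfl fun a' _ => ?_
    field_simp
  rwa [e, le_div_iff₀ (pow_pos hn 2)] at h2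

omit [Fintype β] in
theorem basea_pert {G G' : ι → ι → ℝ} {ε : ℝ} (h : ∀ a a', |G' a a' - G a a'| ≤ ε) (ζ : ι → ℝ) :
    ∑ a, ∑ a', ζ a * ζ a' * G a a' ≤
      ∑ a, ∑ a', ζ a * ζ a' * G' a a' + (Fintype.card ι : ℝ) ^ 2 * ε * ‖ζ‖ ^ 2 := by
  have e : (Fintype.card ι : ℝ) ^ 2 * ε * ‖ζ‖ ^ 2 = ∑ _a : ι, ∑ _a' : ι, ‖ζ‖ * ‖ζ‖ * ε := by
    simp only [Finset.sum_const, Finset.card_univ, nsmul_eq_mul]
    ring
  rw [e, ← Finset.sum_add_distrib]
  refine Finset.sum_le_sum fun a _ => ?_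
  rw [← Finset.sum_add_distrib]
  refine Finset.sum_le_sum fun a' _ => ?_
  have h1 : |ζ a * ζ a' * (G' a a' - G a a')| ≤ ‖ζ‖ * ‖ζ‖ * ε := by
    rw [abs_mul, abs_mul]
    exact mul_le_mul (mul_le_mul (norm_le_pi_norm ζ a) (norm_le_pi_norm ζ a') (abs_nonneg _)
      (norm_nonneg _)) (h a a') (abs_nonneg _) (by positivity)
  linarith [(abs_le.1 h1).1]

/-- the upper bound through the coupling. -/
theorem basea_up (hb : ∀ k a, Measurable fun x => b x k a) (h1 : ∀ x k a, |b x k a| ≤ 1)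
    (μ : Measure (E d × E d)) [IsFiniteMeasure μ] (hμ : μ.map Prod.snd = sig d) (x : E d)
    (ζ : ι → ℝ) (r : ℝ) (N : Set (E d × E d)) (hN : MeasurableSet N)
    (h : ∀ᵐ z ∂μ, z ∉ N → ∀ k, |ζ ⬝ᵥ b (x + z.2) k| ≤ Fintype.card ι * r) :
    ∑ a, ∑ a', ζ a * ζ a' * baseaG b a a' x ≤
      Fintype.card β * (Fintype.card ι * ‖ζ‖) ^ 2 * μ.real N +
        Fintype.card β * (Fintype.card ι * r) ^ 2 * (sig d).real univ := by
  have hi := basea_intq hb h1 ζ x
  have hm := (basea_measq hb ζ x).aestronglyMeasurable (μ := μ.map Prod.snd)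
  rw [← basea_q hb h1, ← hμ, integral_map measurable_snd.aemeasurable hm,
    map_measureReal_apply measurable_snd MeasurableSet.univ, preimage_univ]
  rw [← hμ, integrable_map_measure hm measurable_snd.aemeasurable] at hi
  have h2 : Integrable (N.indicator fun _ =>
      (Fintype.card β * (Fintype.card ι * ‖ζ‖) ^ 2 : ℝ)) μ := (integrable_const _).indicator hN
  refine (integral_mono_ae hi (h2.add (integrable_const
    (Fintype.card β * (Fintype.card ι * r) ^ 2 : ℝ))) (h.mono fun z hz => ?_)).trans (le_of_eq ?_)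
  · simp only [Function.comp, Pi.add_apply]
    by_cases hz' : z ∈ N
    · rw [indicator_of_mem hz']
      exact (basea_qle h1 ζ _).trans (le_add_of_nonneg_right (by positivity))
    · rw [indicator_of_notMem hz', zero_add]
      exact basea_sq (hz hz')
  · simp only [Pi.add_apply]
    rw [integral_add h2 (integrable_const _), integral_indicator_const _ hN, integral_const,
      smul_eq_mul, smul_eq_mul, mul_comm (μ.real N), mul_comm (μ.real univ)]

omit [Fintype ι] [Fintype β] in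
theorem basea_exists {N D : Set (E d)} {τ κ : ℝ} (hτ : 0 < τ) (hκ : κ ≤ 1 / 4)
    (hN : volume (N ∩ ball 0 τ) ≤ ENNReal.ofReal κ * volume (ball (0 : E d) τ))
    (hD : volume (D ∩ ball 0 τ) ≤ ENNReal.ofReal (1 / 4) * volume (ball (0 : E d) τ)) :
    ∃ η ∈ ball (0 : E d) τ, η ∉ N ∧ η ∉ D := by
  by_contra hc
  push Not at hc
  have h1 : ball (0 : E d) τ ⊆ (N ∩ ball 0 τ) ∪ (D ∩ ball 0 τ) := fun η hη => by
    by_cases h : η ∈ N
    · exact Or.inl ⟨h, hη⟩
    · exact Or.inr ⟨hc η hη h, hη⟩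
  have h2 := (measure_mono h1).trans ((measure_union_le _ _).trans (add_le_add
    (hN.trans (mul_le_mul_left (ENNReal.ofReal_le_ofReal hκ) _)) hD))
  rw [← add_mul, ← ENNReal.ofReal_add (by norm_num) (by norm_num)] at h2
  have h3 : ENNReal.ofReal (1 / 4 + 1 / 4) * volume (ball (0 : E d) τ) <
      1 * volume (ball (0 : E d) τ) :=
    ENNReal.mul_lt_mul_left (vol_ball_ne_zero hτ) vol_ball_ne_top
      (ENNReal.ofReal_lt_one.2 (by norm_num))
  rw [one_mul] at h3
  exact absurd h2 (not_le.2 h3)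

omit [Fintype ι] [Fintype β] in
theorem basea_mass {μ : Measure (E d × E d)} {τ κ : ℝ} (hτ : 0 < τ) (hκ : 0 ≤ κ)
    (hμ : ∀ N : Set (E d), MeasurableSet N →
      μ (Prod.fst ⁻¹' N) * volume (ball (0 : E d) (τ / 2)) ≤ sig d univ * volume N)
    {N : Set (E d)} (hm : MeasurableSet N)
    (hN : volume N ≤ ENNReal.ofReal κ * volume (ball (0 : E d) τ)) (η : E d) :
    μ.real (Prod.fst ⁻¹' ((fun h => η + h) ⁻¹' N)) ≤
      (sig d).real univ * (κ * 2 ^ Module.finrank ℝ (E d)) := by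
  have h1 := hμ _ (measurable_const_add η hm)
  rw [measure_preimage_add] at h1
  have e : τ = 2 * (τ / 2) := by ring
  rw [e, vol_ball_mul two_pos, ← mul_assoc, ← ENNReal.ofReal_mul hκ] at hN
  have h2 := h1.trans (mul_le_mul_right hN _)
  rw [← mul_assoc, ENNReal.mul_le_mul_iff_left (vol_ball_ne_zero (half_pos hτ))
    vol_ball_ne_top] at h2
  refine (ENNReal.toReal_mono (ENNReal.mul_ne_top (measure_ne_top _ _) ENNReal.ofReal_ne_top)
    h2).trans (le_of_eq ?_)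
  rw [ENNReal.toReal_mul, ENNReal.toReal_ofReal (by positivity)]
  rfl

theorem basea_pairs (hS : SSig) (hd : 2 ≤ d) (h : Dual b J ξ) (y : E d)
    (μ : Measure (E d × E d)) [IsFiniteMeasure μ] (hμ : μ.map Prod.snd = sig d)
    (h2 : ∀ᵐ z ∂μ, ‖z.2 - z.1‖ = 1) : ∀ᵐ η : E d, ∀ᵐ z ∂μ, ∀ k,
      ξ (y + η) ⬝ᵥ b (y + η + z.2) k = 0 ∧ ξ (y + (η + z.1)) ⬝ᵥ b (y + η + z.2) k = 0 := by
  have h1 : ∀ᵐ z ∂μ, ‖z.2‖ = 1 := by
    have := hS.unit d (by omega)
    rw [← hμ] at this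
    exact ae_of_ae_map measurable_snd.aemeasurable this
  have h3 : ∀ᵐ η : E d, ∀ k, ∀ᵐ z ∂μ,
      ξ (y + η) ⬝ᵥ b (y + η + z.2) k = 0 ∧ ξ (y + (η + z.1)) ⬝ᵥ b (y + η + z.2) k = 0 := by
    refine ae_all_iff.2 fun k => ?_
    have hm := measurableSet_orth h.mξ (h.mb k)
    have a1 := Measure.ae_ae_of_ae_prod (allPair_prod hm (h.orth k) μ (s := fun _ => y)
      (w := Prod.snd) measurable_const measurable_snd)
    have a2 := Measure.ae_ae_of_ae_prod (allPair_prod hm (h.orth k) μ (s := fun z => y + z.1)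
      (w := fun z => z.2 - z.1) (by fun_prop) (by fun_prop))
    filter_upwards [a1, a2] with η b1 b2
    filter_upwards [b1, b2, h1, h2] with z c1 c2 c3 c4
    have c5 := c1 c3
    have c6 := c2 c4
    rw [add_comm η y] at c5
    rw [show η + (y + z.1) + (z.2 - z.1) = y + η + z.2 by abel,
      show η + (y + z.1) = y + (η + z.1) by abel] at c6
    exact ⟨c5, c6⟩
  exact h3.mono fun η hη => ae_all_iff.2 hη

end

theorem basea_arith {l A σ κ p x F q m : ℝ} (hl : 0 < l) (hA : 0 ≤ A) (hσ : 0 ≤ σ) (hx : 0 ≤ x)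
    (hF : 0 ≤ F) (hκ : κ * (A * σ * p + 1) ≤ l / 4) (hκ0 : 0 ≤ κ) (hm : m ≤ σ * (κ * p))
    (h1 : l * x ^ 2 ≤ q + l / 2 * x ^ 2) (h2 : q ≤ A * x ^ 2 * m + A * (2 * F) ^ 2 * σ) :
    x ≤ (16 * A * σ / l + 1) * F := by
  have h3 : A * m ≤ l / 4 := by nlinarith [mul_le_mul_of_nonneg_left hm hA]
  have h4 : l / 4 * x ^ 2 ≤ A * (2 * F) ^ 2 * σ := by
    nlinarith [mul_le_mul_of_nonneg_right h3 (sq_nonneg x)]
  have h5 : x ^ 2 ≤ 16 * A * σ / l * F ^ 2 := by
    rw [div_mul_eq_mul_div, le_div_iff₀ hl]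
    linarith
  have h6 : 0 ≤ 16 * A * σ / l := by positivity
  refine (pow_le_pow_iff_left₀ hx (by positivity) two_ne_zero).1 (h5.trans ?_)
  rw [mul_pow]
  exact mul_le_mul_of_nonneg_right (by nlinarith) (sq_nonneg F)

theorem sBaseA (hS : SSig) (hA : SApp) (hP : SPair) : SBaseA := by
  intro d ι β _ _ b₀ J ξ hd h₀
  classical
  obtain ⟨b, h, h1⟩ := basea_norm h₀
  have hJ : ∀ᵐ y : E d, ∀ S, y ∈ {y | J y = S} → Small fun _ => {η | y + η ∉ {y | J y = S}} :=
    ae_all_iff.2 fun S => hA.dens d _ (h.mJ S)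
  have hG : ∀ᵐ y : E d, ∀ a a', ApC (fun η => baseaG b a a' (y + η)) (baseaG b a a' y) :=
    ae_all_iff.2 fun a => ae_all_iff.2 fun a' => hA.apc d _ (basea_measG h.mb a a')
  filter_upwards [hJ, hG, h.uniq] with y hJ hG hu
  obtain ⟨l, hl, hlow⟩ := basea_low h.mb h1 y (J y) hu
  set n : ℝ := (Fintype.card ι : ℝ) with hn
  set A : ℝ := Fintype.card β * n ^ 2 with hA'
  set σ : ℝ := (sig d).real univ with hσ
  set p : ℝ := 2 ^ Module.finrank ℝ (E d) with hp
  have hA0 : 0 ≤ A := by positivity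
  have hσ0 : 0 ≤ σ := measureReal_nonneg
  have hden : 0 < A * σ * p + 1 := by positivity
  set κ : ℝ := min (1 / 4) (l / 4 / (A * σ * p + 1)) with hκ
  have hκ0 : 0 < κ := lt_min (by norm_num) (by positivity)
  have hκ1 : κ * (A * σ * p + 1) ≤ l / 4 := (le_div_iff₀ hden).1 (min_le_right _ _)
  set ε : ℝ := l / 2 / (n ^ 2 + 1) with hε
  have hε0 : 0 < ε := by positivity
  have hε1 : n ^ 2 * ε ≤ l / 2 := by
    have : ε * (n ^ 2 + 1) = l / 2 := div_mul_cancel₀ _ (by positivity)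
    nlinarith
  have sJ : SmR 1 fun _ => {η : E d | J (y + η) ≠ J y} := small_iff.1 (hJ (J y) rfl)
  have sG : SmR 1 fun _ => {η : E d | ∃ a a', ε < |baseaG b a a' (y + η) - baseaG b a a' y|} :=
    smR_exists fun a => smR_exists fun a' => small_iff.1 (hG a a' ε hε0)
  refine ⟨κ, 16 * A * σ / l + 1 + 1, hκ0, fun c F hF hN => ?_⟩
  set D : Set (E d) := {η | J (y + η) ≠ J y} ∪
    {η | ∃ a a', ε < |baseaG b a a' (y + η) - baseaG b a a' y|} with hD
  have sD : SmR (1 / 2) fun _ => D := (sJ.union sG).mono_rad (by norm_num)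
  have sZ : SmR (1 / 2) fun τ =>
      {η | ∃ a, (16 * A * σ / l + 1 + 1) * F τ < |ξ (y + η) a - c τ a|} \ D := by
    refine smR_of_null ?_
    filter_upwards [hN, ev_pos, ev_lt one_pos,
      sJ.eventually_le one_pos (κ := 1 / 4) (by norm_num)] with τ hN hτ hτ1 hJ4
    rw [one_mul] at hJ4
    obtain ⟨η₀, -, hη₀, hη₀'⟩ := basea_exists hτ (min_le_left _ _) hN hJ4
    simp only [mem_ofPred_eq, not_exists, not_lt, not_not] at hη₀ hη₀'
    set c' : ι → ℝ := fun a => if a ∈ J y then ξ y a else c τ a with hc'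
    have hcc : ∀ a, |c' a - c τ a| ≤ F τ := fun a => by
      simp only [hc']
      split_ifs with ha
      · rw [h.nrm y (y + η₀) hη₀'.symm a ha]
        exact hη₀ a
      · simpa using hF τ
    obtain ⟨μ, hfin, hμ, hae, hmass⟩ := hP d (τ / 2) hd (half_pos hτ) (by linarith)
    set N : Set (E d) := {η | ∃ a, F τ < |ξ (y + η) a - c τ a|} ∩ ball 0 τ with hNd
    have hNm : MeasurableSet N := by
      refine MeasurableSet.inter ?_ measurableSet_ball
      simp only [ofPred_exists]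
      exact MeasurableSet.iUnion fun a => measurableSet_lt measurable_const
        (((h.mξ a).comp (measurable_const_add y)).sub_const _).abs
    refine measure_mono_null (fun η hη => ?_)
      (ae_iff.1 (basea_pairs hS hd h y μ hμ (hae.mono fun z hz => hz.2)))
    obtain ⟨⟨⟨a, ha⟩, hηD⟩, hηb⟩ := hη
    simp only [hD, mem_union, mem_ofPred_eq, not_or, not_exists, not_lt, not_not] at hηD
    rw [mem_ball_zero_iff] at hηb
    intro hpair
    have hζ : ∀ a ∈ J y, (ξ (y + η) - c') a = 0 := fun a ha => by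
      simp only [hc', Pi.sub_apply, if_pos ha]
      rw [h.nrm y (y + η) hηD.1.symm a ha, sub_self]
    have e1 := (hlow _ hζ).trans (basea_pert (G := fun a a' => baseaG b a a' y)
      (G' := fun a a' => baseaG b a a' (y + η)) hηD.2 (ξ (y + η) - c'))
    have e2 := basea_up h.mb h1 μ hμ (y + η) (ξ (y + η) - c') (2 * F τ) _
      (measurable_fst (measurable_const_add η hNm)) (by
        filter_upwards [hpair, hae] with z hz hz' hzN k
        have hb : η + z.1 ∈ ball (0 : E d) τ := by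
          rw [mem_ball_zero_iff]
          linarith [norm_add_le η z.1, hz'.1]
        have h3 : ∀ a, |ξ (y + (η + z.1)) a - c τ a| ≤ F τ := fun a =>
          not_lt.1 fun hlt => hzN ⟨⟨a, hlt⟩, hb⟩
        rw [sub_dotProduct, (hz k).1, ← (hz k).2, ← sub_dotProduct]
        refine basea_dot (fun a => ?_) (h1 _ k)
        have h4 := abs_sub_le (ξ (y + (η + z.1)) a) (c τ a) (c' a)
        rw [abs_sub_comm (c τ a)] at h4
        rw [Pi.sub_apply]
        linarith [h3 a, hcc a])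
    have e3 := basea_arith (q := ∑ a, ∑ a', (ξ (y + η) - c') a * (ξ (y + η) - c') a' *
        baseaG b a a' (y + η)) hl hA0 hσ0 (norm_nonneg (ξ (y + η) - c')) (hF τ) hκ1 hκ0.le
      (basea_mass hτ hκ0.le hmass hNm hN η)
      (e1.trans (add_le_add_right (mul_le_mul_of_nonneg_right hε1 (sq_nonneg _)) _))
      (e2.trans (le_of_eq (by rw [hA']; ring)))
    have e4 := (norm_le_pi_norm (ξ (y + η) - c') a).trans e3
    have e5 := abs_sub_le (ξ (y + η) a) (c' a) (c τ a)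
    rw [Real.norm_eq_abs, Pi.sub_apply] at e4
    linarith [hcc a]
  refine (sD.union sZ).mono' fun τ η hη => ?_
  by_cases hη' : η ∈ D
  · exact Or.inl hη'
  · exact Or.inr ⟨hη, hη'⟩

end Pool.Agent.MP_66cee2_co.X
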