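import Pool.Agent.MP_66cee2_co.X.BasicJ

/-
Exponential lower bound, first half: the common core of the base case and of the induction step.
-/

namespace Pool.Agent.MP_66cee2_co.X

open MeasureTheory Set Filter Metric Topology
open scoped ENNReal

theorem sCore (hS : SSig) (hA : SApp) (hP : SPick) (hR : SRidge) (hK : SKey) (hL : SLow) :
    SCore := by
  classical
  intro d ι β _ _ b J ξ Q hd hD hQ
  filter_upwards [hD.uniq, hS.right d Q hQ,
    ae_all_iff.2 fun S : Finset ι => hA.dens d _ (hD.mJ S)] with y h1 h2 h3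
  have hJ : SmR 1 fun _ => {η | ¬J y = J (y + η)} :=
    (small_iff.1 (h3 (J y) rfl)).mono' fun τ η hη e => hη (Eq.symm e)
  obtain ⟨r, r', n, n', c, c', hn, hn', hne, hc⟩ :=
    hP d ι β (fun w => b (y + w)) (J y) (fun w => Q (y + w)) hd h2 h1
  refine ⟨Finset.univ.image (fun i => y + n i) ∪ Finset.univ.image fun l => y + n' l, ?_,
    fun D T S e₁ e₂ e₃ e₄ e hT hSd s₁ s₂ s₃ s₄ he hC a => ?_⟩
  · simp only [Finset.mem_union, Finset.mem_image, Finset.mem_univ, true_and]
    rintro x (⟨i, rfl⟩ | ⟨l, rfl⟩)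
    exacts [(hn i).2, (hn' l).2]
  by_cases ha : a ∈ J y
  · refine ⟨0, fun _ => MvPolynomial.C (ξ y a), fun _ => by simp,
      neg_zero'.congr one_pos (hJ.mono' fun τ η hη e => hη ?_)⟩
    rw [ev_C, hD.nrm _ _ e a ha, sub_self]
  have ridge : ∀ (w : E d) (k : β) (γ : ℝ), ‖w‖ = 1 →
      y + w ∈ Finset.univ.image (fun i => y + n i) ∪ Finset.univ.image (fun l => y + n' l) →
      Ridge w (fun η => γ * ((fun a => if a ∈ J y then 0 else ξ (y + η) a) ⬝ᵥ b (y + w) k))
        (2 * D) e := fun w k γ hw hF =>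
    hR d D ι ξ (fun x => b x k) y w T (S (y + w) k) (b (y + w) k) e₁ e₂ e₃ e₄ e _ γ
      (-(γ * ((fun a => if a ∈ J y then ξ y a else 0) ⬝ᵥ b (y + w) k))) hD.mξ (hD.mb k)
      (hD.orth k) hw hT (hSd _ hF k) s₁ (s₂ _ hF k) (s₃ _ hF k) s₄ he hC
      (small_iff.2 (hJ.mono' fun τ η hη e => hη (by
        rw [← sub_eq_add_neg, ← mul_sub, ← sub_dotProduct]
        congr 2
        funext a'
        by_cases h : a' ∈ J y
        · simp [h, hD.nrm _ _ e a' h]
        · simp [h])))
  have key := fun η => hc (fun a => if a ∈ J y then 0 else ξ (y + η) a) (fun a h => if_pos h) a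
  simp only [if_neg ha] at key
  obtain ⟨M, hM, hN⟩ := hK d (2 * D) (Fin r × β) (Fin r' × β) (fun i => n i.1) (fun l => n' l.1)
    (fun η => ξ (y + η) a) _ _ e (fun i => (hn _).1) (fun l => (hn' _).1) (fun i l => hne _ _) he
    (fun η => (key η).1) (fun η => (key η).2)
    (fun i => ridge (n i.1) i.2 (c a i) (hn _).1 (by simp))
    fun l => ridge (n' l.1) l.2 (c' a l) (hn' _).1 (by simp)
  exact hL d M _ e hM ((hD.mξ a).comp (measurable_const_add y)) he hN

end Pool.Agent.MP_66cee2_co.X
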