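import Pool.Agent.MP_66cee2_co.X.SpecJ

/-
Exponential lower bound, first half: the closure of the field.
-/

namespace Pool.Agent.MP_66cee2_co.X

open MeasureTheory Set Filter Metric Topology

theorem gal_span {ι β Ω : Type} [Fintype ι] [DecidableEq ι] [MeasurableSpace Ω] {μ : Measure Ω}
    {c : Ω → β → ι → ℝ} {J : Finset ι} {ξ : ι → ι → ℝ}
    (hn : ∀ j, ∀ a ∈ J, ξ j a = if a = j then 1 else 0)
    (ho : ∀ j, ∀ᵐ ω ∂μ, ∀ k, ξ j ⬝ᵥ c ω k = 0)
    (hu : ∀ ζ : ι → ℝ, (∀ᵐ ω ∂μ, ∀ k, ζ ⬝ᵥ c ω k = 0) → (∀ a ∈ J, ζ a = 0) → ζ = 0)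
    (ζ : ι → ℝ) (hζ : ∀ᵐ ω ∂μ, ∀ k, ζ ⬝ᵥ c ω k = 0) : ζ = ∑ j ∈ J, ζ j • ξ j := by
  refine sub_eq_zero.1 (hu _ ?_ fun a ha => ?_)
  · filter_upwards [hζ, ae_all_iff.2 ho] with ω h1 h2 k
    rw [sub_dotProduct, h1 k, sum_dotProduct, Finset.sum_eq_zero, sub_zero]
    intro j _
    rw [smul_dotProduct, h2 j k, smul_zero]
  · rw [Pi.sub_apply, Finset.sum_apply, Finset.sum_eq_single a, Pi.smul_apply, hn a a ha]
    · simp
    · intro j _ hj
      rw [Pi.smul_apply, hn j a ha, if_neg (Ne.symm hj), smul_zero]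
    · exact fun h => absurd ha h

theorem gal_perp {n : ℕ} {J : Finset (Ix n)} {ξ : Ix n → Ix n → ℝ} {ζ v : Ix n → ℝ}
    (h : ζ = ∑ j ∈ J, ζ j • ξ j) (hv : ∀ j, lz v (ξ j) = 0) : lz v ζ = 0 := by
  rw [lz_comm, lz, h, sum_dotProduct]
  refine Finset.sum_eq_zero fun j _ => ?_
  rw [smul_dotProduct, ← lz, lz_comm, hv j, smul_zero]

theorem gal_mJ {d n : ℕ} {F : E d → Ix n → Ix n → ℝ} (hF : ∀ j a, Measurable fun x => F x j a)
    (k a : Ix n) : Measurable fun x => Jv (F x k) a := by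
  rcases a with i | b
  · exact (hF k _).const_mul 2
  · exact hF k _

theorem gal_swap (hS : SSig) {d n : ℕ} {F G : E d → Ix n → Ix n → ℝ}
    (hF : ∀ j a, Measurable fun x => F x j a) (hG : ∀ j a, Measurable fun x => G x j a)
    (h : ∀ x j, ∀ᵐ ω ∂sig d, ∀ k, F x j ⬝ᵥ Jv (G (x + ω) k) = 0) :
    AePair fun y x => ∀ j k, lz (F x j) (G y k) = 0 := by
  refine hS.swap d (fun x y => ∀ j k, lz (F x j) (G y k) = 0) ?_
    (ae_of_all _ fun x => ae_all_iff.2 (h x))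
  simp only [Set.ofPred_forall]
  refine MeasurableSet.iInter fun j => MeasurableSet.iInter fun k => ?_
  refine measurableSet_eq_fun ?_ measurable_const
  unfold lz dotProduct
  exact Finset.measurable_sum _ fun a _ =>
    ((hF j a).comp measurable_fst).mul ((gal_mJ hG k a).comp measurable_snd)

theorem sGal (hS : SSig) (hU : SUp) (hR : SRows) : SGal := by
  intro d n P hP
  obtain ⟨JB, B, mJB, mB, nB, oB, uB⟩ :=
    hR d (Ix n) (Ix n) (fun x k => Jv (P x k)) (gal_mJ (F := fun x => P x) hP.meas)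
  obtain ⟨JA, A, mJA, mA, nA, oA, uA⟩ := hR d (Ix n) (Ix n) (fun x k => Jv (B x k)) (gal_mJ mB)
  have s1 := gal_swap hS (G := fun x => P x) mB hP.meas oB
  have s2 := gal_swap hS mA mB oA
  have span : ∀ᵐ x, ∀ a, P x a = ∑ j ∈ JA x, P x a j • A x j := by
    filter_upwards [s1] with x hx a
    refine gal_span (nA x) (oA x) (uA x) _ ?_
    filter_upwards [hx] with ω h k
    exact (lz_comm _ _).trans (h k a)
  have spanB : ∀ᵐ x, ∀ a, P x a = ∑ j ∈ JB x, P x a j • B x j := by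
    filter_upwards [hP.orth] with x hx a
    exact gal_span (nB x) (oB x) (uB x) _ (hx.mono fun ω h k => h a k)
  refine ⟨JA, JB, A, B, fun j => ⟨gal_mJ mB, mJA, mA j, fun y y' h a ha => ?_, fun k => ?_,
    ae_of_all _ uA⟩, fun j => ⟨gal_mJ mA, mJB, mB j, fun y y' h a ha => ?_, fun k => ?_, ?_⟩,
    nA, ?_, span⟩
  · rw [nA y j a ha, nA y' j a (h ▸ ha)]
  · exact hU d _ _ _ (mA j) (gal_mJ mB k) (ae_of_all _ fun y => (oA y j).mono fun ω h => h k)
  · rw [nB y j a ha, nB y' j a (h ▸ ha)]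
  · refine hU d _ _ _ (mB j) (gal_mJ mA k) ?_
    filter_upwards [s2] with y hy
    filter_upwards [hy] with ω h
    exact (lz_comm _ _).trans (h k j)
  · filter_upwards [hS.right d _ span] with y hy ζ hζ h0
    refine uB y ζ ?_ h0
    filter_upwards [hy, hζ] with ω h1 h2 k
    exact gal_perp (h1 k) h2
  · filter_upwards [s2, hS.right d _ spanB] with x h2 hb
    have hA : ∀ j, A x j = ∑ i ∈ JB x, A x j i • B x i := fun j => by
      refine gal_span (nB x) (oB x) (uB x) _ ?_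
      filter_upwards [hb, oA x j] with ω h1 h3 k
      exact gal_perp (h1 k) h3
    filter_upwards [h2] with ω h j k
    exact (lz_comm _ _).trans (gal_perp (hA j) (h k))

end Pool.Agent.MP_66cee2_co.X
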