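import Pool.Agent.MP_66cee2_co.X.BasicJ

/-
Exponential lower bound: calculus of approximate Taylor expansions and jets.
-/

namespace Pool.Agent.MP_66cee2_co.X

open MeasureTheory Set Filter Metric Topology Asymptotics
open scoped ENNReal

/-- the filter of the families of sets of density `1 - o(1)`. -/
def jet_L (d : ℕ) : Filter (ℝ × E d) where
  sets := {U | SmR 1 fun τ => {η | (τ, η) ∉ U}}
  univ_sets := smR_empty.mono' fun _ _ hz => hz trivial
  sets_of_superset h hs := SmR.mono' h fun _ _ hz hz' => hz (hs hz')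
  inter_sets h h' := (SmR.union h h').mono' fun _ _ hz => not_and_or.1 hz

variable {d : ℕ}

theorem jet_ev {p : ℝ × E d → Prop} :
    (∀ᶠ z in jet_L d, p z) ↔ Small fun τ => {η | ¬ p (τ, η)} := small_iff.symm

theorem jet_of {p : ℝ × E d → Prop}
    (h : ∀ᶠ τ in 𝓝[>] (0 : ℝ), ∀ η ∈ ball (0 : E d) τ, p (τ, η)) : ∀ᶠ z in jet_L d, p z :=
  SmR.mono smR_empty (h.mono fun τ hτ η hη hn => hn (hτ η (by rwa [one_mul] at hη)))

theorem jet_fst : Tendsto Prod.fst (jet_L d) (𝓝[>] 0) := fun _ h =>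
  jet_of (Eventually.mono h fun _ hτ _ _ => hτ)

theorem jet_ball : ∀ᶠ z in jet_L d, ‖z.2‖ < z.1 :=
  jet_of (Eventually.of_forall fun _ _ h => mem_ball_zero_iff.1 h)

theorem jet_snd : Tendsto Prod.snd (jet_L d) (𝓝 0) :=
  squeeze_zero_norm' (jet_ball.mono fun _ h => h.le) (jet_fst.mono_right nhdsWithin_le_nhds)

theorem jet_neBot : (jet_L d).NeBot := by
  refine ⟨fun h => ?_⟩
  have h1 : ∀ᶠ z in jet_L d, False := by simp [h]
  obtain ⟨τ, z, -, hz⟩ := (SmR.exists_notMem h1 one_pos).exists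
  exact hz (by simp)

theorem jet_tay {f : E d → ℝ} {T : MvPolynomial (Fin d) ℝ} {s : ℝ} :
    Tay f T s ↔ (fun z => f z.2 - ev T z.2) =O[jet_L d] fun z => z.1 ^ s := by
  rw [isBigO_iff]
  refine exists_congr fun C => ?_
  have h : (∀ᶠ z in jet_L d, ¬ C * z.1 ^ s < |f z.2 - ev T z.2|) ↔
      Small fun τ => {η | C * τ ^ s < |f η - ev T η|} := by
    simp only [jet_ev, not_not]
  rw [← h]
  refine eventually_congr ((jet_fst.eventually ev_pos).mono fun z hz => ?_)
  rw [not_lt, Real.norm_eq_abs, Real.norm_of_nonneg (Real.rpow_nonneg hz.le s)]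

theorem jet_nat {f : E d → ℝ} {T : MvPolynomial (Fin d) ℝ} {k : ℕ} :
    Tay f T k ↔ (fun z => f z.2 - ev T z.2) =O[jet_L d] fun z => z.1 ^ k := by
  simp only [jet_tay, Real.rpow_natCast]

theorem jet_rpow {s s' : ℝ} (h : s' ≤ s) :
    (fun z => z.1 ^ s) =O[jet_L d] fun z => z.1 ^ s' := by
  refine IsBigO.of_bound' ?_
  filter_upwards [jet_fst.eventually ev_pos, jet_fst.eventually (ev_lt one_pos)] with z h0 h1
  rw [Real.norm_of_nonneg (Real.rpow_nonneg h0.le _),
    Real.norm_of_nonneg (Real.rpow_nonneg h0.le _)]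
  exact Real.rpow_le_rpow_of_exponent_ge h0 h1.le h

theorem jet_pow {k k' : ℕ} (h : k' ≤ k) : (fun z => z.1 ^ k) =O[jet_L d] fun z => z.1 ^ k' := by
  simpa only [Real.rpow_natCast] using jet_rpow (d := d) (Nat.cast_le.2 h)

theorem jet_apc {f : E d → ℝ} {c : ℝ} (h : ApC f c) :
    Tendsto (fun z => f z.2) (jet_L d) (𝓝 c) := by
  refine Metric.tendsto_nhds.2 fun ε hε => ?_
  have h1 : ∀ᶠ z in jet_L d, ¬ ε / 2 < |f z.2 - c| := by
    simpa only [jet_ev, not_not] using h _ (half_pos hε)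
  exact h1.mono fun z hz => (not_lt.1 hz).trans_lt (half_lt_self hε)

theorem jet_lim (p : MvPolynomial (Fin d) ℝ) :
    Tendsto (fun z => ev p z.2) (jet_L d) (𝓝 (ev p 0)) :=
  ((continuous_ev p).tendsto 0).comp jet_snd

/-- a polynomial without terms of low degree is small. -/
theorem jet_small {p : MvPolynomial (Fin d) ℝ} {k : ℕ}
    (h : ∀ m : Fin d →₀ ℕ, m.degree < k → p.coeff m = 0) :
    (fun z => ev p z.2) =O[jet_L d] fun z => z.1 ^ k := by
  simp only [ev, MvPolynomial.eval_eq']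
  refine IsBigO.fun_sum fun m hm => IsBigO.const_mul_left (IsBigO.trans (IsBigO.of_bound' ?_)
    (jet_pow (k := m.degree) (not_lt.1 fun hk => MvPolynomial.mem_support_iff.1 hm (h m hk)))) _
  filter_upwards [jet_ball] with z hz
  rw [Finsupp.degree_eq_sum, ← Finset.prod_pow_eq_pow_sum, norm_prod, norm_prod]
  refine Finset.prod_le_prod (fun _ _ => norm_nonneg _) fun i _ => ?_
  rw [norm_pow, norm_pow]
  exact pow_le_pow_left₀ (norm_nonneg _)
    ((PiLp.norm_apply_le z.2 i).trans (hz.le.trans (le_abs_self _))) _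

/-- a small polynomial has no terms of low degree. -/
theorem jet_key (hP : SPoly) {p : MvPolynomial (Fin d) ℝ} {k : ℕ}
    (h : (fun z => ev p z.2) =O[jet_L d] fun z => z.1 ^ k) {m : Fin d →₀ ℕ}
    (hm : m.degree < k) : p.coeff m = 0 := by
  obtain ⟨C, hC⟩ := hP d p.totalDegree
  have h1 : Tay (ev p) 0 k := jet_nat.2 (by simpa using h)
  obtain ⟨C₀, h0, h2⟩ := h1.exists_nonneg
  have h3 := (small_iff.1 (h2 C₀ le_rfl)).half one_pos
  simp only [ev_zero, sub_zero, one_mul, Real.rpow_natCast] at h3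
  obtain ⟨j, rfl⟩ := Nat.exists_eq_add_of_lt hm
  have h4 : ∀ᶠ τ in 𝓝[>] (0 : ℝ), |p.coeff m| ≤ C * C₀ * τ ^ (j + 1) := by
    filter_upwards [h3, ev_pos] with τ hτ hp
    have h5 := hC p τ _ le_rfl hp (by positivity) hτ m
    refine le_of_mul_le_mul_right (h5.trans_eq ?_) (pow_pos hp _)
    ring
  have h5 : Tendsto (fun τ : ℝ => C * C₀ * τ ^ (j + 1)) (𝓝[>] 0) (𝓝 0) := by
    have : Continuous fun τ : ℝ => C * C₀ * τ ^ (j + 1) := by fun_prop
    simpa using (this.tendsto 0).mono_left (nhdsWithin_le_nhds (s := Ioi 0))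
  exact abs_nonpos_iff.1 (ge_of_tendsto h5 h4)

theorem jet_coeff (hP : SPoly) {f : E d → ℝ} {T T' : MvPolynomial (Fin d) ℝ} {k : ℕ}
    (h : Tay f T k) (h' : Tay f T' k) {m : Fin d →₀ ℕ} (hm : m.degree < k) :
    T.coeff m = T'.coeff m := by
  have h1 := (jet_nat.1 h').sub (jet_nat.1 h)
  have h2 := jet_key hP (p := T - T') (h1.congr_left fun z => by simp) hm
  rwa [MvPolynomial.coeff_sub, sub_eq_zero] at h2

theorem jet_mono {f : E d → ℝ} {T : MvPolynomial (Fin d) ℝ} {s s' : ℝ} (hs : s' ≤ s)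
    (h : Tay f T s) : Tay f T s' := jet_tay.2 ((jet_tay.1 h).trans (jet_rpow hs))

theorem jet_val {f : E d → ℝ} {T : MvPolynomial (Fin d) ℝ} {s c : ℝ} (hs : 0 < s)
    (h : Tay f T s) (hc : ApC f c) : ev T 0 = c := by
  have := jet_neBot (d := d)
  have h1 : Tendsto (fun z : ℝ × E d => z.1 ^ s) (jet_L d) (𝓝 0) := by
    have := (jet_fst (d := d)).mono_right nhdsWithin_le_nhds
    simpa [Real.zero_rpow hs.ne'] using this.rpow_const (p := s) (Or.inr hs.le)
  have h2 := tendsto_nhds_unique ((jet_tay.1 h).trans_tendsto h1) ((jet_apc hc).sub (jet_lim T))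
  linarith

theorem jet_poly (p : MvPolynomial (Fin d) ℝ) : Jet (ev p) (p : MvPowerSeries (Fin d) ℝ) :=
  fun _ => ⟨p, fun m _ => (MvPolynomial.coeff_coe p m).symm,
    jet_nat.2 (by simpa using isBigO_zero _ _)⟩

theorem jet_mul {f g : E d → ℝ} {T T' : MvPolynomial (Fin d) ℝ} {k : ℕ} (h : Tay f T k)
    (h' : Tay g T' k) : Tay (fun η => f η * g η) (T * T') k := by
  have a := jet_nat.1 h
  have b := jet_nat.1 h'
  have b1 : (fun z : ℝ × E d => g z.2 - ev T' z.2) =O[jet_L d] fun _ => (1 : ℝ) := by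
    simpa using b.trans (jet_pow (Nat.zero_le k))
  have c1 := a.mul (b1.add ((jet_lim T').isBigO_one ℝ))
  have c2 := ((jet_lim T).isBigO_one ℝ).mul b
  simp only [mul_one, one_mul] at c1 c2
  refine jet_nat.2 ((c1.add c2).congr_left fun z => ?_)
  rw [ev_mul]
  ring

theorem sJet (hP : SPoly) : SJet where
  mono _ _ _ _ _ := jet_mono
  val _ _ _ _ _ := jet_val
  low d f T s hs h := by
    have h1 := jet_small (p := T - MvPolynomial.C (ev T 0)) (k := 1) fun m hm => by
      rw [Nat.lt_one_iff, Finsupp.degree_eq_zero_iff] at hm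
      simp [hm, ev_at_zero]
    have h2 := jet_rpow (d := d) hs
    simp only [Real.rpow_one, pow_one] at h1 h2
    exact jet_tay.2 (((jet_tay.1 h).add (h1.trans h2)).congr_left fun z => by simp)
  smul d f s c := fun ⟨T, h⟩ => ⟨MvPolynomial.C c * T,
    jet_tay.2 (((jet_tay.1 h).const_mul_left c).congr_left fun z => by simp [mul_sub])⟩
  ex d f h := by
    choose T hT using h
    exact ⟨fun m => (T (m.degree + 1)).coeff m, fun k => ⟨T k, fun m hm =>
      jet_coeff hP (jet_mono (Nat.cast_le.2 hm) (hT k)) (hT _) (Nat.lt_succ_self _), hT k⟩⟩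
  uniq d f φ ψ h h' := by
    ext m
    obtain ⟨T, a, b⟩ := h (m.degree + 1)
    obtain ⟨T', a', b'⟩ := h' (m.degree + 1)
    rw [← a m (Nat.lt_succ_self _), ← a' m (Nat.lt_succ_self _)]
    exact jet_coeff hP b b' (Nat.lt_succ_self _)
  poly _ := jet_poly
  const d c := by
    have h := jet_poly (d := d) (MvPolynomial.C c)
    rwa [MvPolynomial.coe_C, funext (ev_C c)] at h
  sub d f g φ ψ h h' k := by
    obtain ⟨T, a, b⟩ := h k
    obtain ⟨T', a', b'⟩ := h' k
    refine ⟨T - T', fun m hm => ?_,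
      jet_nat.2 (((jet_nat.1 b).sub (jet_nat.1 b')).congr_left fun z => ?_)⟩
    · rw [MvPolynomial.coeff_sub, map_sub, a m hm, a' m hm]
    · rw [ev_sub]
      ring
  mul d f g φ ψ h h' k := by
    obtain ⟨T, a, b⟩ := h k
    obtain ⟨T', a', b'⟩ := h' k
    refine ⟨T * T', fun m hm => ?_, jet_mul b b'⟩
    rw [MvPolynomial.coeff_mul, MvPowerSeries.coeff_mul]
    refine Finset.sum_congr rfl fun x hx => ?_
    rw [← Finset.HasAntidiagonal.mem_antidiagonal.1 hx, map_add] at hm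
    rw [a _ (by omega), a' _ (by omega)]
  congr d f g φ hs h k := by
    obtain ⟨T, a, b⟩ := h k
    have h1 : ∀ᶠ z in jet_L d, f z.2 = g z.2 := jet_ev.2 hs
    exact ⟨T, a, jet_nat.2 ((jet_nat.1 b).congr' (h1.mono fun z hz => by simp only [hz])
      EventuallyEq.rfl)⟩
  zero d f h K := by
    obtain ⟨T, a, b⟩ := h K
    have h1 : Tay f 0 K := jet_nat.2 (((jet_nat.1 b).add
      (jet_small fun m hm => by rw [a m hm, map_zero])).congr_left fun z => by simp)
    simpa only [Tay, ev_zero, sub_zero, Real.rpow_natCast] using h1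
  jval d f φ c h hc := by
    obtain ⟨T, a, b⟩ := h 1
    rw [← jet_val (by simp) b hc, ev_at_zero, a 0 (by simp),
      MvPowerSeries.coeff_zero_eq_constantCoeff_apply]

end Pool.Agent.MP_66cee2_co.X
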