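import Pool.Agent.MP_66cee2_co.X.BasicJ

/-
Two families of ridge functions: a high difference is negligible.
-/

namespace Pool.Agent.MP_66cee2_co.X

open MeasureTheory Set Filter Metric Topology
open scoped RealInnerProductSpace

variable {d : ℕ}

/-- the ring of shears. -/
abbrev key_R (d : ℕ) : Type := AddMonoidAlgebra ℝ (E d →L[ℝ] E d)

/-- the shear as an operator on functions. -/
noncomputable def key_T (d : ℕ) :
    Multiplicative (E d →L[ℝ] E d) →* Module.End ℝ (E d × E d → ℝ) where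
  toFun L :=
    { toFun := fun F z => F (z.1 + L.toAdd z.2, z.2)
      map_add' := fun _ _ => rfl
      map_smul' := fun _ _ => rfl }
  map_one' := by
    ext F z
    simp
  map_mul' L L' := by
    ext F z
    simp [add_assoc]

/-- the action of the ring. -/
noncomputable def key_act (d : ℕ) : key_R d →ₐ[ℝ] Module.End ℝ (E d × E d → ℝ) :=
  AddMonoidAlgebra.lift ℝ _ _ (key_T d)

theorem key_single (L : E d →L[ℝ] E d) (c : ℝ) (F : E d × E d → ℝ) (z : E d × E d) :
    key_act d (AddMonoidAlgebra.single L c) F z = c * F (z.1 + L z.2, z.2) := by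
  rw [key_act, AddMonoidAlgebra.lift_single]
  rfl

/-- the difference operator of a linear map. -/
noncomputable def key_y (L : E d →L[ℝ] E d) : key_R d := AddMonoidAlgebra.single L 1 - 1

theorem key_y_act (L : E d →L[ℝ] E d) (F : E d × E d → ℝ) (z : E d × E d) :
    key_act d (key_y L) F z = F (z.1 + L z.2, z.2) - F z := by
  rw [key_y, map_sub, map_one, LinearMap.sub_apply, Pi.sub_apply, key_single, one_mul]
  rfl

theorem key_pow (M : ℕ) (F : E d × E d → ℝ) (z : E d × E d) :
    key_act d (key_y (ContinuousLinearMap.id ℝ (E d)) ^ M) F z =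
      (fwdDiff z.2)^[M] (fun η => F (η, z.2)) z.1 := by
  induction M generalizing F with
  | zero => simp
  | succ M ih =>
    rw [pow_succ, map_mul, Module.End.mul_apply, ih, Function.iterate_succ_apply]
    refine congrFun (congrArg _ (funext fun η => ?_)) _
    rw [key_y_act]
    rfl

theorem key_neg {G : ℝ → E d × E d → ℝ} {e : ℝ → ℝ} (h : Neg G e) (a : key_R d) :
    Neg (fun τ => key_act d a (G τ)) e := by
  induction a using AddMonoidAlgebra.induction_linear with
  | zero =>
    simp only [map_zero]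
    exact neg_zero'
  | add a b ha hb =>
    simp only [map_add]
    exact ha.add hb
  | single L c =>
    have e1 : (fun τ => key_act d (AddMonoidAlgebra.single L c) (G τ)) =
        fun τ z => c * G τ (z.1 + L z.2, z.2) := by
      funext τ z
      exact key_single L c (G τ) z
    rw [e1]
    exact (h.shear L).const_mul c

theorem key_poly {D : ℕ} {q : E d → ℝ} (h : IsPoly D q) (v η : E d) :
    (fwdDiff v)^[D + 1] q η = 0 := by
  obtain ⟨p, hp, e⟩ := h
  let P : Polynomial ℝ :=
    MvPolynomial.aeval (fun i => Polynomial.C (η i) + Polynomial.C (v i) * Polynomial.X) p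
  have hP : P.natDegree ≤ D * 1 :=
    MvPolynomial.aeval_natDegree_le p hp _ fun i => by compute_degree
  have he : ∀ t : ℝ, P.eval t = q (η + t • v) := by
    intro t
    rw [e]
    unfold ev P
    clear hP hp e
    induction p using MvPolynomial.induction_on with
    | C a => simp
    | add p q hp hq => simp only [map_add, Polynomial.eval_add, hp, hq]
    | mul_X p i hp =>
      simp only [map_mul, Polynomial.eval_mul, hp, MvPolynomial.aeval_X, MvPolynomial.eval_X,
        Polynomial.eval_add, Polynomial.eval_C, Polynomial.eval_X, PiLp.add_apply,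
        PiLp.smul_apply, smul_eq_mul, mul_comm t]
  have h0 := congrFun (Polynomial.fwdDiff_iter_eq_zero_of_degree_lt (P := P) (n := D + 1)
    (by omega)) 0
  rw [fwdDiff_iter_eq_sum_shift] at h0 ⊢
  refine Eq.trans (Finset.sum_congr rfl fun k _ => ?_) h0
  rw [he, zero_add, nsmul_eq_mul, mul_one, Nat.cast_smul_eq_nsmul]

/-- the multipliers that make a function negligible. -/
def key_G (D : ℕ) (e : ℝ → ℝ) (u : E d → ℝ) : Ideal (key_R d) where
  carrier := {a | Neg (fun _ => key_act d (key_y (ContinuousLinearMap.id ℝ (E d)) ^ (D + 1) * a)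
    fun z => u z.1) e}
  zero_mem' := by
    change Neg _ e
    rw [mul_zero, map_zero]
    exact neg_zero'
  add_mem' {a b} ha hb := by
    change Neg _ e
    rw [mul_add, map_add]
    exact Neg.add ha hb
  smul_mem' c a ha := by
    have h := key_neg ha c
    change Neg (fun _ => key_act d (_ * (c * a)) _) e
    rw [mul_left_comm, map_mul]
    exact h

theorem key_ridge {D : ℕ} {e : ℝ → ℝ} {n : E d} {u : E d → ℝ} (h : Ridge n u D e)
    {H : E d →L[ℝ] E d} (hH : ∀ v, ⟪n, H v⟫ = 0) : key_y H ∈ key_G D e u := by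
  obtain ⟨q, hq, hn⟩ := h H hH
  have h1 := key_neg hn (key_y (ContinuousLinearMap.id ℝ (E d)) ^ (D + 1))
  change Neg _ e
  convert h1 using 2 with τ
  have e1 : (fun z : E d × E d => u (z.1 + H z.2) - u z.1 - q τ z.2 z.1) =
      key_act d (key_y H) (fun z => u z.1) - fun z => q τ z.2 z.1 := by
    funext z
    rw [Pi.sub_apply, key_y_act]
  rw [e1, map_sub, map_mul, Module.End.mul_apply]
  funext z
  rw [Pi.sub_apply, key_pow (D + 1) (fun z => q τ z.2 z.1), key_poly (hq τ z.2), sub_zero]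

theorem key_split {n n' : E d} (hn : ‖n‖ = 1) (hn' : ‖n'‖ = 1) (h : n ≠ n' ∧ n ≠ -n') :
    ∃ H H' : E d →L[ℝ] E d, (∀ v, ⟪n, H v⟫ = 0) ∧ (∀ v, ⟪n', H' v⟫ = 0) ∧
      H + H' = ContinuousLinearMap.id ℝ (E d) := by
  have h1 : ⟪n, n'⟫ ≠ 1 := fun e => h.1 ((inner_eq_one_iff_of_norm_eq_one hn hn').1 e)
  have h2 : ⟪n, n'⟫ ≠ -1 := fun e => h.2 ((inner_eq_one_iff_of_norm_eq_one (𝕜 := ℝ) hn
    (by rw [norm_neg, hn'])).1 (by rw [inner_neg_right, e, neg_neg]))
  have h3 : ⟪n, n - ⟪n, n'⟫ • n'⟫ ≠ 0 := by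
    rw [inner_sub_right, inner_smul_right, real_inner_self_eq_norm_sq, hn]
    intro e
    rcases mul_self_eq_one_iff.1 (show ⟪n, n'⟫ * ⟪n, n'⟫ = 1 by linarith) with e' | e'
    · exact h1 e'
    · exact h2 e'
  have h4 : ⟪n', n - ⟪n, n'⟫ • n'⟫ = 0 := by
    rw [inner_sub_right, inner_smul_right, real_inner_self_eq_norm_sq, hn', real_inner_comm]
    ring
  generalize n - ⟪n, n'⟫ • n' = g at h3 h4
  refine ⟨ContinuousLinearMap.id ℝ (E d) - (⟪n, g⟫⁻¹ • innerSL ℝ n).smulRight g,
    (⟪n, g⟫⁻¹ • innerSL ℝ n).smulRight g, fun v => ?_, fun v => ?_, sub_add_cancel _ _⟩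
  · simp only [sub_apply, ContinuousLinearMap.id_apply,
      ContinuousLinearMap.smulRight_apply, smul_apply, innerSL_apply_apply,
      smul_eq_mul, inner_sub_right, inner_smul_right]
    field_simp
    ring
  · rw [ContinuousLinearMap.smulRight_apply, inner_smul_right, h4, mul_zero]

theorem key_y_add (H H' : E d →L[ℝ] E d) :
    key_y (H + H') = key_y H * AddMonoidAlgebra.single H' 1 + key_y H' := by
  simp only [key_y, sub_mul, AddMonoidAlgebra.single_mul_single, mul_one, one_mul]
  ring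

theorem key_rad {R I I' : Type} [CommRing R] [Fintype I] [Fintype I'] (G : I → Ideal R)
    (G' : I' → Ideal R) {y : R} (h : ∀ i l, y ∈ G i ⊔ G' l) :
    ∃ (N : ℕ) (a b : R), (∀ i, a ∈ G i) ∧ (∀ l, b ∈ G' l) ∧ a + b = y ^ N := by
  have h1 : y ∈ (Finset.univ.inf G ⊔ Finset.univ.inf G').radical := by
    rw [Ideal.radical_eq_sInf, Ideal.mem_sInf]
    rintro P ⟨hP, hp⟩
    obtain ⟨i, -, hi⟩ := hp.inf_le'.1 (le_sup_left.trans hP)
    obtain ⟨l, -, hl⟩ := hp.inf_le'.1 (le_sup_right.trans hP)
    exact sup_le hi hl (h i l)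
  obtain ⟨N, hN⟩ := h1
  obtain ⟨a, ha, b, hb, e⟩ := Submodule.mem_sup.1 hN
  exact ⟨N, a, b, fun i => Finset.inf_le (f := G) (Finset.mem_univ i) ha,
    fun l => Finset.inf_le (f := G') (Finset.mem_univ l) hb, e⟩

theorem key_sum {D : ℕ} {e : ℝ → ℝ} {I : Type} [Fintype I] {f : E d → ℝ} {u : I → E d → ℝ}
    (hf : ∀ η, f η = ∑ i, u i η) {a : key_R d} (ha : ∀ i, a ∈ key_G D e (u i)) :
    a ∈ key_G D e f := by
  have h1 := neg_sum Finset.univ fun i _ => ha i
  have e1 : (fun z : E d × E d => f z.1) = ∑ i, fun z : E d × E d => u i z.1 := by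
    funext z
    rw [hf, Finset.sum_apply]
  change Neg _ e
  rw [e1, map_sum, Finset.sum_fn]
  exact h1

theorem sKey : SKey := by
  intro d D I I' _ _ n n' f u u' e hn hn' hne _ hf hf' hu hu'
  obtain ⟨N, a, b, ha, hb, hab⟩ := key_rad (fun i => key_G D e (u i)) (fun l => key_G D e (u' l))
    (y := key_y (ContinuousLinearMap.id ℝ (E d))) fun i l => by
      obtain ⟨H, H', h1, h2, h3⟩ := key_split (hn i) (hn' l) (hne i l)
      rw [← h3, key_y_add]
      exact Submodule.add_mem_sup (Ideal.mul_mem_right _ _ (key_ridge (hu i) h1))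
        (key_ridge (hu' l) h2)
  have h := (key_G D e f).add_mem (key_sum hf ha) (key_sum hf' hb)
  rw [hab] at h
  refine ⟨D + 1 + N, by omega, ?_⟩
  have e1 : (fun (_ : ℝ) (z : E d × E d) => (fwdDiff z.2)^[D + 1 + N] f z.1) = fun _ =>
      key_act d (key_y (ContinuousLinearMap.id ℝ (E d)) ^ (D + 1) *
        key_y (ContinuousLinearMap.id ℝ (E d)) ^ N) fun z => f z.1 := by
    funext τ z
    rw [← pow_add, key_pow]
  rw [e1]
  exact h

end Pool.Agent.MP_66cee2_co.X
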