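import Pool.Agent.MP_66cee2_co.X.BasicJ

/-
Row Low: small differences of high order give polynomial approximation.
-/

namespace Pool.Agent.MP_66cee2_co.X

open MeasureTheory Set Filter Metric Topology
open scoped ENNReal

theorem low_ratio {V W : ℝ≥0∞} (h0 : W ≠ 0) (h1 : W ≠ ⊤) (h : V ≤ W) :
    ∃ δ : ℝ, 0 ≤ δ ∧ V ≤ ENNReal.ofReal δ * W ∧
      ∀ κ : ℝ, 0 ≤ κ → V ≤ ENNReal.ofReal κ * W → δ ≤ κ := by
  refine ⟨(V / W).toReal, ENNReal.toReal_nonneg, ?_, fun κ hκ hV => ?_⟩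
  · rw [ENNReal.ofReal_toReal (ENNReal.div_ne_top (ne_top_of_le_ne_top h1 h) h0),
      ENNReal.div_mul_cancel h0 h1]
  · exact ENNReal.toReal_le_of_le_ofReal hκ ((ENNReal.div_le_iff h0 h1).2 hV)

theorem sLow (hR : SRS) (hW : SWh) : SLow := by
  intro d M f e hM hf he hN
  obtain ⟨C₀, c₀, hC₀, hc₀, -, hS⟩ := hN.exists_pos he
  obtain ⟨C, c, δ₀, hc, hδ₀, hR⟩ := hR d M hM
  obtain ⟨C', c', D, hc', hc1, hW⟩ := hW d M hM
  have key : ∀ τ : ℝ, ∃ p : MvPolynomial (Fin d) ℝ, p.totalDegree ≤ D ∧ ∀ κ : ℝ, 0 < τ → 0 ≤ κ →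
      κ ≤ δ₀ → volume ({z : E d × E d | C₀ * e τ < |(fwdDiff z.2)^[M] f z.1|} ∩ ball 0 (c₀ * τ)) ≤
        ENNReal.ofReal κ * volume (ball (0 : E d × E d) (c₀ * τ)) →
      volume ({η | (C + C' * C) * C₀ * e τ < |f η - ev p η|} ∩ ball 0 (c' * c * c₀ * τ)) ≤
        ENNReal.ofReal (|C| * κ) * volume (ball (0 : E d) (c₀ * τ)) := by
    intro τ
    by_cases hτ : 0 < τ
    swap
    · exact ⟨0, by simp, fun κ h => absurd h hτ⟩
    have h0 := mul_pos hc₀ hτ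
    obtain ⟨δ, hδ, h1, h2⟩ := low_ratio
      (V := volume ({z : E d × E d | C₀ * e τ < |(fwdDiff z.2)^[M] f z.1|} ∩ ball 0 (c₀ * τ)))
      (vol_ball_ne_zero (X := E d × E d) h0) vol_ball_ne_top (measure_mono inter_subset_right)
    by_cases hd : δ ≤ δ₀
    swap
    · exact ⟨0, by simp, fun κ _ a1 a2 a3 => absurd ((h2 κ a1 a3).trans a2) hd⟩
    obtain ⟨g, g1, g2, g3⟩ := hR f (c₀ * τ) (C₀ * e τ) δ hf h0 (mul_nonneg hC₀ (he τ)) hδ hd h1
    obtain ⟨p, p1, p2⟩ := hW g (c * (c₀ * τ)) _ (mul_pos hc h0) g1 g2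
    refine ⟨p, p1, fun κ _ a1 _ a3 => le_trans (measure_mono ?_) (g3.trans ?_)⟩
    · rintro η ⟨b1, b2⟩
      have e1 : c' * c * c₀ * τ = c' * (c * (c₀ * τ)) := by ring
      rw [e1] at b2
      refine ⟨?_, ball_subset_ball (mul_le_of_le_one_left (mul_pos hc h0).le hc1) b2⟩
      have b3 := p2 η b2
      have b4 := abs_sub_le (f η) (g η) (ev p η)
      simp only [mem_ofPred_eq] at b1 ⊢
      linarith
    · refine mul_le_mul_left (ENNReal.ofReal_le_ofReal ?_) _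
      exact mul_le_mul (le_abs_self C) (h2 κ a1 a3) hδ (abs_nonneg C)
  choose p hp hp' using key
  refine ⟨D, p, hp, (C + C' * C) * C₀, c' * c * c₀, by positivity,
    smR_of_eventually_le fun κ hκ => ?_⟩
  set A := c₀ ^ Module.finrank ℝ (E d) with hA
  have hA0 : 0 < A := pow_pos hc₀ _
  have hB : 0 < (|C| + 1) * A := by positivity
  have hk : 0 < min δ₀ (κ / ((|C| + 1) * A)) := lt_min hδ₀ (div_pos hκ hB)
  filter_upwards [hS.eventually_le hc₀ hk, ev_pos] with τ h1 hτ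
  refine (hp' τ _ hτ hk.le (min_le_left _ _) h1).trans ?_
  rw [vol_ball_mul hc₀, ← mul_assoc, ← ENNReal.ofReal_mul (by positivity)]
  refine mul_le_mul_left (ENNReal.ofReal_le_ofReal ?_) _
  have h2 := (le_div_iff₀ hB).1 (min_le_right δ₀ (κ / ((|C| + 1) * A)))
  have h3 := mul_pos hk hA0
  linarith

end Pool.Agent.MP_66cee2_co.X
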