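import Pool.Agent.MP_66cee2_co.X.SpecJ

/-
A coupling of a short vector with a unit vector at unit distance from it.
-/

namespace Pool.Agent.MP_66cee2_co.X

open MeasureTheory Set Filter Metric Topology
open scoped ENNReal RealInnerProductSpace

variable {d : ℕ}

/-- the component orthogonal to the first vector. -/
noncomputable def pair_p (q : E d × E d) : E d := q.2 - (⟪q.1, q.2⟫ / ‖q.1‖ ^ 2) • q.1

/-- the unit vector. -/
noncomputable def pair_w (q : E d × E d) : E d :=
  (1 / 2 : ℝ) • q.1 + (√(1 - ‖q.1‖ ^ 2 / 4) * ‖pair_p q‖⁻¹) • pair_p q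

theorem pair_p_meas : Measurable (pair_p (d := d)) := by
  unfold pair_p
  fun_prop

theorem pair_w_meas : Measurable (pair_w (d := d)) := by
  have := pair_p_meas (d := d)
  unfold pair_w
  fun_prop

theorem pair_orth (q : E d × E d) : ⟪q.1, pair_p q⟫ = 0 := by
  by_cases h : q.1 = 0
  · rw [h, inner_zero_left]
  · rw [pair_p, inner_sub_right, real_inner_smul_right, real_inner_self_eq_norm_sq,
      div_mul_cancel₀ _ (pow_ne_zero 2 (norm_ne_zero_iff.2 h)), sub_self]

theorem pair_norm {q : E d × E d} (h : ‖q.1‖ ≤ 1) (hp : pair_p q ≠ 0) {c : ℝ}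
    (hc : c ^ 2 = 1 / 4) :
    ‖c • q.1 + (√(1 - ‖q.1‖ ^ 2 / 4) * ‖pair_p q‖⁻¹) • pair_p q‖ = 1 := by
  have h0 := norm_nonneg q.1
  have h1 : 0 ≤ 1 - ‖q.1‖ ^ 2 / 4 := by nlinarith
  have h2 := norm_ne_zero_iff.2 hp
  refine (pow_eq_one_iff_of_nonneg (norm_nonneg _) two_ne_zero).1 ?_
  rw [norm_add_sq_real, real_inner_smul_left, real_inner_smul_right, pair_orth, norm_smul,
    norm_smul, mul_pow, mul_pow, Real.norm_eq_abs, Real.norm_eq_abs, sq_abs, sq_abs, mul_pow,
    Real.sq_sqrt h1, hc]
  field_simp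
  ring

theorem pair_equiv (A : E d ≃ₗᵢ[ℝ] E d) (q : E d × E d) :
    pair_w (Prod.map A A q) = A (pair_w q) := by
  have h : pair_p (Prod.map A A q) = A (pair_p q) := by
    simp only [pair_p, Prod.map_fst, Prod.map_snd, map_sub, map_smul, A.inner_map_map, A.norm_map]
  simp only [pair_w, h, Prod.map_fst, map_add, map_smul, A.norm_map]

theorem pair_ball (A : E d ≃ₗᵢ[ℝ] E d) (r : ℝ) :
    MeasurePreserving A (volume.restrict (ball 0 r)) (volume.restrict (ball 0 r)) := by
  have h := A.measurePreserving.restrict_preimage (measurableSet_ball (x := (0 : E d)) (ε := r))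
  rwa [show A ⁻¹' ball 0 r = ball 0 r from by ext x; simp] at h

theorem pair_null (hd : 2 ≤ d) (h : E d) : ∀ᵐ z : E d, pair_p (h, z) ≠ 0 := by
  have h1 : (ℝ ∙ h) ≠ ⊤ := by
    intro e
    have h2 := finrank_span_le_card (R := ℝ) ({h} : Set (E d))
    rw [e, finrank_top, finrank_euclideanSpace_fin] at h2
    simp at h2
    omega
  filter_upwards [measure_eq_zero_iff_ae_notMem.1 (Measure.addHaar_submodule volume _ h1)]
    with z hz e
  exact hz (Submodule.mem_span_singleton.2 ⟨_, (sub_eq_zero.1 e).symm⟩)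

theorem sPair (hS : SSig) : SPair := by
  intro d τ hd h0 h1
  set ν : Measure (E d × E d) :=
    (volume.restrict (ball 0 τ)).prod (volume.restrict (ball 0 1)) with hν
  have b0 : volume (ball (0 : E d) τ) ≠ 0 := (measure_ball_pos _ _ h0).ne'
  have b1 : volume (ball (0 : E d) τ) ≠ ∞ := measure_ball_lt_top.ne
  have mΘ : Measurable fun q : E d × E d => (q.1, pair_w q) := measurable_fst.prodMk pair_w_meas
  have ms : Measurable fun z : E d => ‖z‖⁻¹ • z := by fun_prop
  have hsig : sig d univ = volume (ball (0 : E d) 1) := by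
    rw [sig, Measure.map_apply ms MeasurableSet.univ, preimage_univ, Measure.restrict_apply_univ]
  have key : ∀ N : Set (E d), MeasurableSet N →
      ((volume (ball (0 : E d) τ))⁻¹ • ν.map fun q => (q.1, pair_w q)) (Prod.fst ⁻¹' N) =
        (volume (ball (0 : E d) τ))⁻¹ * (volume (N ∩ ball 0 τ) * sig d univ) := by
    intro N hN
    rw [Measure.smul_apply, Measure.map_apply mΘ (measurable_fst hN), smul_eq_mul,
      show (fun q : E d × E d => (q.1, pair_w q)) ⁻¹' (Prod.fst ⁻¹' N) = N ×ˢ univ from
        prod_univ.symm, hν, Measure.prod_prod, Measure.restrict_apply hN,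
      Measure.restrict_apply_univ, hsig]
  have tot : ((volume (ball (0 : E d) τ))⁻¹ • ν.map fun q => (q.1, pair_w q)) univ =
      sig d univ := by
    have := key univ MeasurableSet.univ
    rwa [preimage_univ, univ_inter, ← mul_assoc, ENNReal.inv_mul_cancel b0 b1, one_mul] at this
  have f1 : IsFiniteMeasure (sig d) := ⟨by rw [hsig]; exact measure_ball_lt_top⟩
  have f2 : IsFiniteMeasure
      ((volume (ball (0 : E d) τ))⁻¹ • ν.map fun q => (q.1, pair_w q)) :=
    ⟨by rw [tot]; exact measure_lt_top _ _⟩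
  have hae : ∀ᵐ q ∂ν, ‖q.1‖ < τ ∧ pair_p q ≠ 0 := by
    refine (Measure.ae_prod_iff_ae_ae
      ((measurableSet_lt measurable_fst.norm measurable_const).inter
      (pair_p_meas (measurableSet_singleton 0)).compl)).2 ?_
    filter_upwards [ae_restrict_mem measurableSet_ball] with h hh
    filter_upwards [ae_restrict_of_ae (pair_null hd h)] with z hz
    exact ⟨mem_ball_zero_iff.1 hh, hz⟩
  have e2 : ((volume (ball (0 : E d) τ))⁻¹ • ν.map fun q => (q.1, pair_w q)).map Prod.snd =
      (volume (ball (0 : E d) τ))⁻¹ • ν.map pair_w := by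
    rw [Measure.map_smul, Measure.map_map measurable_snd mΘ]
    rfl
  refine ⟨_, f2, ?_, Measure.ae_smul_measure ?_ _, fun N hN => ?_⟩
  · refine hS.uniq d _ _ ?_ (hS.unit d (by omega)) (fun A => ?_) (hS.inv d) ?_
    · rw [e2]
      refine Measure.ae_smul_measure ((ae_map_iff pair_w_meas.aemeasurable
        (measurableSet_eq_fun (by fun_prop) measurable_const)).2 ?_) _
      filter_upwards [hae] with q hq
      exact pair_norm (by linarith [hq.1]) hq.2 (by norm_num)
    · have mA : Measurable A := A.continuous.measurable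
      have h2 := (pair_ball A τ).prod (pair_ball A 1)
      rw [e2, Measure.map_smul, Measure.map_map mA pair_w_meas,
        show A ∘ pair_w = pair_w ∘ Prod.map A A from funext fun q => (pair_equiv A q).symm,
        ← Measure.map_map pair_w_meas h2.measurable, h2.map_eq]
    · rw [Measure.map_apply measurable_snd MeasurableSet.univ, preimage_univ, tot]
  · refine (ae_map_iff mΘ.aemeasurable
      ((measurableSet_lt measurable_fst.norm measurable_const).inter
        (measurableSet_eq_fun (measurable_snd.sub measurable_fst).norm measurable_const))).2 ?_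
    filter_upwards [hae] with q hq
    refine ⟨hq.1, ?_⟩
    change ‖pair_w q - q.1‖ = 1
    have h2 := pair_norm (c := -1 / 2) (by linarith [hq.1]) hq.2 (by norm_num)
    rwa [show pair_w q - q.1 = (-1 / 2 : ℝ) • q.1 +
      (√(1 - ‖q.1‖ ^ 2 / 4) * ‖pair_p q‖⁻¹) • pair_p q from by rw [pair_w]; module]
  · rw [key N hN, mul_comm, ← mul_assoc, ENNReal.mul_inv_cancel b0 b1, one_mul, mul_comm]
    exact mul_le_mul_right (measure_mono inter_subset_left) _

end Pool.Agent.MP_66cee2_co.X
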