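import Pool.Agent.MP_66cee2_co.X.SpecJ

/-
Row Pick: two finite frames on the sphere with different directions.
-/

namespace Pool.Agent.MP_66cee2_co.X

open MeasureTheory Set Filter Metric Topology

/-- the pairings with a finite family and the coordinates in `J`. -/
noncomputable def pick_L {d r : ℕ} {ι β : Type} [Fintype ι] (b : E d → β → ι → ℝ) (J : Finset ι)
    (n : Fin r → E d) : (ι → ℝ) →ₗ[ℝ] (Fin r × β → ℝ) × (J → ℝ) where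
  toFun ζ := (fun i => ζ ⬝ᵥ b (n i.1) i.2, fun a => ζ a)
  map_add' _ _ := by ext <;> simp [add_dotProduct]
  map_smul' _ _ := by ext <;> simp [smul_dotProduct]

theorem pick_ker {d r : ℕ} {ι β : Type} [Fintype ι] (b : E d → β → ι → ℝ) (J : Finset ι)
    (n : Fin r → E d) (ζ : ι → ℝ) : ζ ∈ LinearMap.ker (pick_L b J n) ↔
      (∀ i k, ζ ⬝ᵥ b (n i) k = 0) ∧ ∀ a ∈ J, ζ a = 0 := by
  simp [pick_L, funext_iff]

theorem pick_one {d : ℕ} {ι β : Type} [Fintype ι] [Fintype β] (b : E d → β → ι → ℝ)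
    (J : Finset ι) (Ω : E d → Prop) (hΩ : ∀ᵐ ω ∂sig d, Ω ω)
    (h : ∀ ζ : ι → ℝ, (∀ᵐ ω ∂sig d, ∀ k, ζ ⬝ᵥ b ω k = 0) → (∀ a ∈ J, ζ a = 0) → ζ = 0) :
    ∃ (r : ℕ) (n : Fin r → E d) (c : ι → Fin r × β → ℝ), (∀ i, Ω (n i)) ∧
      ∀ ζ : ι → ℝ, (∀ a ∈ J, ζ a = 0) → ∀ a, ζ a = ∑ i, c a i * (ζ ⬝ᵥ b (n i.1) i.2) := by
  classical
  obtain ⟨K, ⟨r, n, hn, rfl⟩, hK⟩ := (wellFounded_lt (α := Submodule ℝ (ι → ℝ))).has_min
    {K | ∃ (r : ℕ) (n : Fin r → E d), (∀ i, Ω (n i)) ∧ K = LinearMap.ker (pick_L b J n)}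
    ⟨_, 0, Fin.elim0, fun i => i.elim0, rfl⟩
  have hker : LinearMap.ker (pick_L b J n) = ⊥ := by
    refine (Submodule.eq_bot_iff _).2 fun ζ hζ => h ζ ?_ ((pick_ker b J n ζ).1 hζ).2
    filter_upwards [hΩ] with ω hω
    have h1 : LinearMap.ker (pick_L b J (Fin.cons ω n : Fin (r + 1) → E d)) ≤
        LinearMap.ker (pick_L b J n) := fun ξ hξ => by
      rw [pick_ker] at hξ ⊢
      exact ⟨fun i => hξ.1 i.succ, hξ.2⟩
    have h2 := h1.eq_of_not_lt (hK _ ⟨r + 1, Fin.cons ω n, Fin.cases hω hn, rfl⟩)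
    rw [← h2, pick_ker] at hζ
    exact hζ.1 0
  obtain ⟨g, hg⟩ := LinearMap.exists_leftInverse_of_injective _ hker
  refine ⟨r, n, fun a i => g (fun j => if i = j then 1 else 0, 0) a, hn, fun ζ hζ a => ?_⟩
  have h1 : g (pick_L b J n ζ) = ζ := LinearMap.congr_fun hg ζ
  have h2 : pick_L b J n ζ = LinearMap.inl ℝ _ _ fun i => ζ ⬝ᵥ b (n i.1) i.2 :=
    Prod.ext rfl (funext fun a => hζ a a.2)
  have h3 := LinearMap.pi_apply_eq_sum_univ (g ∘ₗ LinearMap.inl ℝ _ _)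
    fun i : Fin r × β => ζ ⬝ᵥ b (n i.1) i.2
  rw [LinearMap.comp_apply, ← h2, h1] at h3
  refine (congrFun h3 a).trans ?_
  rw [Finset.sum_apply]
  exact Finset.sum_congr rfl fun i _ => mul_comm _ _

theorem sPick (hS : SSig) : SPick := by
  intro d ι β _ _ b J Ω hd hΩ h
  have h1 := (hS.unit d (by omega)).and hΩ
  obtain ⟨r, n, c, hn, hc⟩ := pick_one b J _ h1 h
  have h2 : ∀ x : E d, ∀ᵐ ω ∂sig d, ω ≠ x := fun x => by
    rw [ae_iff]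
    simpa using hS.point d hd x
  have h3 : ∀ᵐ ω ∂sig d, ∀ i, n i ≠ ω ∧ n i ≠ -ω := by
    refine ae_all_iff.2 fun i => ?_
    filter_upwards [h2 (n i), h2 (-n i)] with ω ha hb
    exact ⟨ha.symm, fun e => hb (by rw [e, neg_neg])⟩
  obtain ⟨r', n', c', hn', hc'⟩ := pick_one b J _ (h1.and h3) h
  exact ⟨r, r', n, n', c, c', hn, fun l => (hn' l).1, fun i l => (hn' l).2 i,
    fun ζ hζ a => ⟨hc ζ hζ a, hc' ζ hζ a⟩⟩

end Pool.Agent.MP_66cee2_co.X
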