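import Pool.Agent.MP_66cee2_co.X.SpecJ

/-
Row Poly: a polynomial that is small on half of a ball has small coefficients.
-/

namespace Pool.Agent.MP_66cee2_co.X

open MeasureTheory Set Filter Metric Topology MvPolynomial
open scoped ENNReal

section gen

variable {σ : Type} [Fintype σ] {D : ℕ}

/-- the exponents of degree at most `D`. -/
noncomputable def poly_mons (σ : Type) [Fintype σ] (D : ℕ) : Finset (σ →₀ ℕ) :=
  (Finsupp.finite_of_degree_le (σ := σ) D).toFinset

/-- the polynomial with given coefficients. -/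
noncomputable def poly_pol (c : poly_mons σ D → ℝ) : MvPolynomial σ ℝ :=
  ∑ α : poly_mons σ D, monomial α.1 (c α)

theorem poly_coeff_pol (c : poly_mons σ D → ℝ) (α : poly_mons σ D) :
    coeff α.1 (poly_pol c) = c α := by
  classical
  rw [poly_pol, coeff_sum, Finset.sum_eq_single α]
  · simp
  · intro β _ hβ
    rw [coeff_monomial, if_neg fun e => hβ (Subtype.ext e)]
  · simp

theorem poly_eval_pol (c : poly_mons σ D → ℝ) (y : σ → ℝ) :
    eval y (poly_pol c) = ∑ α : poly_mons σ D, c α * ∏ i, y i ^ α.1 i := by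
  rw [poly_pol, map_sum]
  exact Finset.sum_congr rfl fun α _ => by simp [eval_monomial]

theorem poly_supp {q : MvPolynomial σ ℝ} (h : q.totalDegree ≤ D) : q.support ⊆ poly_mons σ D :=
  fun α hα => by
    simp only [poly_mons, Set.Finite.mem_toFinset, Set.mem_ofPred_eq]
    exact (le_totalDegree hα).trans h

theorem poly_eval_coeff {q : MvPolynomial σ ℝ} (h : q.totalDegree ≤ D) (y : σ → ℝ) :
    eval y q = ∑ α : poly_mons σ D, coeff α.1 q * ∏ i, y i ^ α.1 i := by
  rw [eval_eq', Finset.sum_coe_sort (poly_mons σ D) (fun α => coeff α q * ∏ i, y i ^ α i)]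
  refine Finset.sum_subset (poly_supp h) fun α _ hα => ?_
  rw [notMem_support_iff.1 hα, zero_mul]

omit [Fintype σ] in
theorem poly_line (q : MvPolynomial σ ℝ) (x w : σ → ℝ) :
    ∃ r : Polynomial ℝ, ∀ t : ℝ, eval (x + t • w) q = r.eval t := by
  induction q using MvPolynomial.induction_on with
  | C a => exact ⟨Polynomial.C a, by simp⟩
  | add p q hp hq =>
    obtain ⟨r, hr⟩ := hp
    obtain ⟨s, hs⟩ := hq
    exact ⟨r + s, by simp [hr, hs]⟩
  | mul_X p i hp =>
    obtain ⟨r, hr⟩ := hp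
    exact ⟨r * (Polynomial.C (x i) + Polynomial.X * Polynomial.C (w i)), fun t => by
      rw [map_mul, hr]; simp [mul_comm t]⟩

variable {X : Type} [NormedAddCommGroup X] [NormedSpace ℝ X] [FiniteDimensional ℝ X]
  [MeasurableSpace X] [BorelSpace X] (μ : Measure X) [μ.IsAddHaarMeasure] (L : X →ₗ[ℝ] σ → ℝ)

omit [Fintype σ] in
theorem poly_null (hL : Function.Surjective L) {q : MvPolynomial σ ℝ} (hq : q ≠ 0) :
    μ {z | eval (L z) q = 0} = 0 := by
  obtain ⟨y, hy⟩ : ∃ y, eval y q ≠ 0 := by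
    by_contra h
    push Not at h
    exact hq (MvPolynomial.funext fun y => by simpa using h y)
  obtain ⟨x, rfl⟩ := hL y
  have hc : Continuous fun p : X × ℝ => eval (L (p.2 • p.1 + x)) q :=
    (continuous_eval q).comp (L.continuous_of_finiteDimensional.comp (by fun_prop))
  have h1 : ∀ᵐ z ∂μ, ∀ᵐ t : ℝ, eval (L (t • z + x)) q ≠ 0 := by
    refine Eventually.of_forall fun z => ?_
    obtain ⟨r, hr⟩ := poly_line q (L x) (L z)
    have hr0 : r ≠ 0 := by
      rintro rfl
      exact hy (by simpa using hr 0)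
    refine measure_eq_zero_iff_ae_notMem.1
      (Set.Finite.measure_zero ((Polynomial.finite_setOfPred_isRoot hr0).subset ?_) _)
    intro t ht
    have : eval (L (t • z + x)) q = 0 := ht
    rw [map_add, map_smul, add_comm, hr] at this
    exact this
  rw [Measure.ae_ae_comm (isOpen_ne_fun hc continuous_const).measurableSet] at h1
  obtain ⟨t, ht, h0⟩ := (h1.and (Measure.ae_ne volume 0)).exists
  have h2 : μ ((t • ·) ⁻¹' ((fun z => z + x) ⁻¹' {z | eval (L z) q = 0})) = 0 :=
    measure_eq_zero_iff_ae_notMem.2 ht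
  rw [Measure.addHaar_preimage_smul _ h0, measure_preimage_add_right, mul_eq_zero] at h2
  refine h2.resolve_left ?_
  simp [h0]

omit [Fintype σ] in
theorem poly_level (hL : Function.Surjective L) {q : MvPolynomial σ ℝ} (hq : q ≠ 0) :
    ∃ δ : ℝ, 0 < δ ∧ μ (ball 0 1) < 2 * μ ({z | δ < |eval (L z) q|} ∩ ball 0 1) := by
  let s : ℕ → Set X := fun k => {z | 1 / ((k : ℝ) + 1) < |eval (L z) q|} ∩ ball 0 1
  have hs : Monotone s := fun k l hkl =>
    inter_subset_inter_left _ fun z hz =>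
      lt_of_le_of_lt (c := |eval (L z) q|) (Nat.one_div_le_one_div hkl) hz
  have h1 : μ (ball 0 1) ≤ μ (⋃ k, s k) := by
    refine le_trans (measure_mono (t := (⋃ k, s k) ∪ {z | eval (L z) q = 0}) fun z hz => ?_)
      ((measure_union_le _ _).trans_eq (by rw [poly_null μ L hL hq, add_zero]))
    by_cases h0 : eval (L z) q = 0
    · exact Or.inr h0
    · obtain ⟨k, hk⟩ := exists_nat_one_div_lt (abs_pos.2 h0)
      exact Or.inl (mem_iUnion.2 ⟨k, hk, hz⟩)
  have h2 : μ (ball 0 1) / 2 < μ (ball 0 1) :=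
    ENNReal.half_lt_self (measure_ball_pos _ _ one_pos).ne' measure_ball_lt_top.ne
  rw [hs.measure_iUnion] at h1
  obtain ⟨k, hk⟩ := lt_iSup_iff.1 (h2.trans_le h1)
  refine ⟨_, Nat.one_div_pos_of_nat (n := k), ?_⟩
  rwa [ENNReal.div_lt_iff (by simp) (by simp), mul_comm] at hk

theorem poly_unif (hL : Function.Surjective L) (D : ℕ) : ∃ δ : ℝ, 0 < δ ∧
    ∀ c ∈ sphere (0 : poly_mons σ D → ℝ) 1,
      μ (ball 0 1) < 2 * μ ({z | δ < |eval (L z) (poly_pol c)|} ∩ ball 0 1) := by
  have mono : ∀ (c : poly_mons σ D → ℝ) {a b : ℝ}, a ≤ b →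
      2 * μ ({z | b < |eval (L z) (poly_pol c)|} ∩ ball 0 1) ≤
        2 * μ ({z | a < |eval (L z) (poly_pol c)|} ∩ ball 0 1) := fun c a b h =>
    mul_le_mul_right (measure_mono (inter_subset_inter_left _ fun _ hz => lt_of_le_of_lt h hz)) _
  refine (isCompact_sphere (0 : poly_mons σ D → ℝ) 1).induction_on (p := fun S => ∃ δ : ℝ, 0 < δ ∧
    ∀ c ∈ S, μ (ball 0 1) < 2 * μ ({z | δ < |eval (L z) (poly_pol c)|} ∩ ball 0 1))
    ⟨1, one_pos, by simp⟩ ?_ ?_ fun c hc => ?_
  · rintro S T hST ⟨δ, h0, h⟩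
    exact ⟨δ, h0, fun c hc => h c (hST hc)⟩
  · rintro S T ⟨δ, h0, h⟩ ⟨δ', h0', h'⟩
    refine ⟨min δ δ', lt_min h0 h0', fun c hc => ?_⟩
    rcases hc with hc | hc
    · exact (h c hc).trans_le (mono c (min_le_left _ _))
    · exact (h' c hc).trans_le (mono c (min_le_right _ _))
  · have hq : poly_pol c ≠ 0 := by
      intro h0
      have : c = 0 := _root_.funext fun α => by rw [← poly_coeff_pol c α, h0]; rfl
      simp [this] at hc
    obtain ⟨δ, h0, h⟩ := poly_level μ L hL hq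
    have hl := L.continuous_of_finiteDimensional
    have ev : ∀ᶠ c' in 𝓝 c, ∀ z ∈ closedBall (0 : X) 1,
        |eval (L z) (poly_pol c) - eval (L z) (poly_pol c')| < δ / 2 := by
      refine (isCompact_closedBall (0 : X) 1).eventually_forall_of_forall_eventually
        (P := fun c' z => |eval (L z) (poly_pol c) - eval (L z) (poly_pol c')| < δ / 2)
        fun z _ => (isOpen_lt ?_ continuous_const).mem_nhds (by simpa using h0)
      simp only [poly_eval_pol]
      fun_prop
    refine ⟨_, mem_nhdsWithin_of_mem_nhds ev, δ / 2, half_pos h0, fun c' hc' =>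
      h.trans_le (mul_le_mul_right (measure_mono fun z hz => mem_inter ?_ hz.2) _)⟩
    have h1 := hc' z (ball_subset_closedBall hz.2)
    have h2 : δ < |eval (L z) (poly_pol c)| := hz.1
    have h3 := abs_sub_abs_le_abs_sub (eval (L z) (poly_pol c)) (eval (L z) (poly_pol c'))
    change δ / 2 < |eval (L z) (poly_pol c')|
    linarith

theorem poly_gen (hL : Function.Surjective L) (D : ℕ) : ∃ C : ℝ,
    ∀ (p : MvPolynomial σ ℝ) (τ ε : ℝ), p.totalDegree ≤ D → 0 < τ → 0 ≤ ε →
      2 * μ ({z | ε < |eval (L z) p|} ∩ ball 0 τ) ≤ μ (ball 0 τ) →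
      ∀ m : σ →₀ ℕ, |p.coeff m| * τ ^ m.degree ≤ C * ε := by
  obtain ⟨δ, h0, h⟩ := poly_unif μ L hL D
  refine ⟨δ⁻¹, fun q τ ε hq hτ hε hv α => ?_⟩
  let c : poly_mons σ D → ℝ := fun α => coeff α.1 q * τ ^ α.1.degree
  have hb : (τ • ·) ⁻¹' ball (0 : X) τ = ball 0 1 := by
    ext η
    simp only [mem_preimage, mem_ball_zero_iff, norm_smul, Real.norm_of_nonneg hτ.le]
    exact mul_lt_iff_lt_one_right hτ
  have hv' : 2 * μ ({z | ε < |eval (L (τ • z)) q|} ∩ ball 0 1) ≤ μ (ball 0 1) := by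
    have e1 : {z | ε < |eval (L (τ • z)) q|} ∩ ball 0 1 =
        (τ • ·) ⁻¹' ({z | ε < |eval (L z) q|} ∩ ball 0 τ) := by
      rw [preimage_inter, hb]
      rfl
    rw [e1, ← hb, Measure.addHaar_preimage_smul _ hτ.ne', Measure.addHaar_preimage_smul _ hτ.ne',
      mul_left_comm]
    exact mul_le_mul_right hv _
  have key : ‖c‖ ≤ δ⁻¹ * ε := by
    by_contra hc
    rw [not_le] at hc
    have hA : 0 < ‖c‖ := lt_of_le_of_lt (by positivity) hc
    refine (h (‖c‖⁻¹ • c) ?_).not_ge (le_trans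
      (mul_le_mul_right (measure_mono (inter_subset_inter_left _ fun z hz => ?_)) _) hv')
    · rw [mem_sphere_zero_iff_norm, norm_smul, norm_inv, norm_norm, inv_mul_cancel₀ hA.ne']
    · have h1 : δ < |eval (L z) (poly_pol (‖c‖⁻¹ • c))| := hz
      have h2 : eval (L z) (poly_pol (‖c‖⁻¹ • c)) = ‖c‖⁻¹ * eval (L (τ • z)) q := by
        rw [poly_eval_pol, poly_eval_coeff hq, Finset.mul_sum]
        refine Finset.sum_congr rfl fun α _ => ?_
        simp only [c, Pi.smul_apply, smul_eq_mul, map_smul, mul_pow, Finset.prod_mul_distrib,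
          Finset.prod_pow_eq_pow_sum, Finsupp.degree_eq_sum, mul_assoc]
      rw [h2, abs_mul, abs_of_pos (inv_pos.2 hA), lt_inv_mul_iff₀ hA] at h1
      rw [inv_mul_lt_iff₀ h0, mul_comm] at hc
      exact hc.trans h1
  by_cases hα : α ∈ poly_mons σ D
  · have := (norm_le_pi_norm c ⟨α, hα⟩).trans key
    rwa [Real.norm_eq_abs, abs_mul, abs_of_pos (pow_pos hτ _)] at this
  · rw [notMem_support_iff.1 fun h' => hα (poly_supp hq h'), abs_zero, zero_mul]
    positivity

end gen

/-- coordinates of a point. -/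
def poly_L1 (d : ℕ) : E d →ₗ[ℝ] Fin d → ℝ where
  toFun z i := z i
  map_add' _ _ := rfl
  map_smul' _ _ := rfl

/-- coordinates of a pair of points. -/
def poly_L2 (d : ℕ) : E d × E d →ₗ[ℝ] Fin d ⊕ Fin d → ℝ where
  toFun z := Sum.elim (fun i => z.1 i) fun i => z.2 i
  map_add' _ _ := by funext i; cases i <;> rfl
  map_smul' _ _ := by funext i; cases i <;> rfl

theorem sPoly : SPoly := fun d D =>
  poly_gen volume (poly_L1 d) (fun y => ⟨WithLp.toLp 2 y, rfl⟩) D

theorem sPoly2 : SPoly2 := fun d D =>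
  poly_gen volume (poly_L2 d) (fun y => ⟨(WithLp.toLp 2 fun i => y (Sum.inl i),
    WithLp.toLp 2 fun i => y (Sum.inr i)), by funext i; cases i <;> rfl⟩) D

end Pool.Agent.MP_66cee2_co.X
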