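import Pool.Agent.MP_66cee2_co.X.SpecJ

/-
Local self-correction of functions with small differences of order `M`.
-/

namespace Pool.Agent.MP_66cee2_co.X

open MeasureTheory Set Filter Metric Topology
open scoped ENNReal

variable {d : ℕ}

theorem rs_exp1 (x : E d) {k : ℕ} (hk : 1 ≤ k) (s : Set (E d)) :
    volume {v : E d | x + k • v ∈ s} ≤ volume s := by
  have h1 : {v : E d | x + k • v ∈ s} = (((k : ℝ) • ·) ⁻¹' ((x + ·) ⁻¹' s)) := by
    ext v
    simp [Nat.cast_smul_eq_nsmul]
  have hk' : (1 : ℝ) ≤ k := by exact_mod_cast hk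
  rw [h1, Measure.addHaar_preimage_smul _ (by positivity), measure_preimage_add]
  refine mul_le_of_le_one_left' (ENNReal.ofReal_le_one.2 ?_)
  rw [abs_of_nonneg (by positivity)]
  exact inv_le_one_of_one_le₀ (one_le_pow₀ hk')

theorem rs_exp2 {φ : E d → E d} (hφ : Measurable φ) {k : ℕ} (hk : 1 ≤ k) {s : Set (E d × E d)}
    (hs : MeasurableSet s) :
    volume {z : E d × E d | (φ z.2 + k • z.1, z.2) ∈ s} ≤ volume s := by
  have hm : Measurable fun z : E d × E d => (φ z.2 + k • z.1, z.2) := by fun_prop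
  have h1 : MeasurableSet {z : E d × E d | (φ z.2 + k • z.1, z.2) ∈ s} := hm hs
  rw [Measure.volume_eq_prod, Measure.prod_apply_symm h1, Measure.prod_apply_symm hs]
  exact lintegral_mono fun y => rs_exp1 (φ y) hk ((fun x => (x, y)) ⁻¹' s)

theorem rs_swap {s : Set (E d × E d)} (hs : MeasurableSet s) :
    volume {z : E d × E d | (z.2, z.1) ∈ s} = volume s := by
  rw [Measure.volume_eq_prod]
  exact Measure.measurePreserving_swap.measure_preimage hs.nullMeasurableSet

theorem rs_exp3 (η h : E d) {k : ℕ} (hk : 1 ≤ k) {s : Set (E d × E d)} (hs : MeasurableSet s) :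
    volume {z : E d × E d | (η + k • z.1, h + k • z.2) ∈ s} ≤ volume s := by
  have m1 : Measurable fun z : E d × E d => (z.1, h + k • z.2) := by fun_prop
  have m2 : Measurable fun z : E d × E d => (z.2, h + k • z.1) := by fun_prop
  have m3 : Measurable fun z : E d × E d => (z.2, z.1) := by fun_prop
  refine (rs_exp2 (φ := fun _ => η) measurable_const hk (m1 hs)).trans ?_
  refine (rs_swap (m2 hs)).le.trans ?_
  exact (rs_exp2 (φ := fun _ => h) measurable_const hk (m3 hs)).trans (rs_swap hs).le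

theorem rs_union {α : Type} [MeasurableSpace α] (μ : Measure α) (W : ℝ≥0∞) (n : ℕ)
    (A : ℕ → Set α) {x : ℝ} (hA : ∀ i < n, μ (A i) ≤ ENNReal.ofReal x * W) :
    μ (⋃ i ∈ Finset.range n, A i) ≤ ENNReal.ofReal (n * x) * W := by
  refine (measure_biUnion_finset_le _ _).trans ((Finset.sum_le_card_nsmul _ _ _ fun i hi =>
    hA i (Finset.mem_range.1 hi)).trans ?_)
  rw [Finset.card_range, nsmul_eq_mul, ENNReal.ofReal_mul (Nat.cast_nonneg n),
    ENNReal.ofReal_natCast, mul_assoc]

theorem rs_pick {α : Type} [MeasurableSpace α] (μ : Measure α) {W : ℝ≥0∞} (h0 : W ≠ 0)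
    (h1 : W ≠ ⊤) (n m : ℕ) (A A' : ℕ → Set α) {x y θ : ℝ} (hx : 0 ≤ x) (hy : 0 ≤ y)
    (hA : ∀ i < n, μ (A i) ≤ ENNReal.ofReal x * W) (hA' : ∀ i < m, μ (A' i) ≤ ENNReal.ofReal y * W)
    {U : Set α} (hU : ENNReal.ofReal θ * W ≤ μ U) (hlt : n * x + m * y < θ) :
    ∃ u ∈ U, (∀ i < n, u ∉ A i) ∧ ∀ i < m, u ∉ A' i := by
  by_contra hc
  have h2 : U ⊆ (⋃ i ∈ Finset.range n, A i) ∪ ⋃ i ∈ Finset.range m, A' i := by
    intro u hu
    by_contra h3
    simp only [mem_union, mem_iUnion, Finset.mem_range, not_or, not_exists] at h3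
    exact hc ⟨u, hu, h3.1, h3.2⟩
  have h3 := hU.trans ((measure_mono h2).trans ((measure_union_le _ _).trans
    (add_le_add (rs_union μ W n A hA) (rs_union μ W m A' hA'))))
  rw [← add_mul, ← ENNReal.ofReal_add (by positivity) (by positivity),
    ENNReal.mul_le_mul_iff_left h0 h1, ENNReal.ofReal_le_ofReal_iff (by positivity)] at h3
  exact absurd hlt (not_lt.2 h3)

theorem rs_comb (n : ℕ) (b x y : ℕ → ℝ) {ε : ℝ} (h : ∀ k < n, |x k - y k| ≤ ε) :
    |∑ k ∈ Finset.range n, b k * x k - ∑ k ∈ Finset.range n, b k * y k| ≤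
      (∑ k ∈ Finset.range n, |b k|) * ε := by
  rw [← Finset.sum_sub_distrib, Finset.sum_mul]
  refine (Finset.abs_sum_le_sum_abs _ _).trans (Finset.sum_le_sum fun k hk => ?_)
  rw [← mul_sub, abs_mul]
  exact mul_le_mul_of_nonneg_left (h k (Finset.mem_range.1 hk)) (abs_nonneg _)

/-- coefficients of the difference of order `M`. -/
def rsA (M k : ℕ) : ℝ := (-1) ^ (M - k) * M.choose k

/-- coefficients of the extrapolation. -/
def rsB (M k : ℕ) : ℝ := -rsA M 0 * rsA M (k + 1)

/-- extrapolation of `f η` from the points `η + k v`. -/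
def rsE (M : ℕ) (f : E d → ℝ) (v η : E d) : ℝ :=
  ∑ k ∈ Finset.range M, rsB M k * f (η + (k + 1) • v)

theorem rs_diff (M : ℕ) (f : E d → ℝ) (h η : E d) :
    (fwdDiff h)^[M] f η = ∑ k ∈ Finset.range (M + 1), rsA M k * f (η + k • h) := by
  rw [fwdDiff_iter_eq_sum_shift]
  exact Finset.sum_congr rfl fun k _ => by simp [rsA]

theorem rs_abs (M : ℕ) (f : E d → ℝ) (v η : E d) :
    |f η - rsE M f v η| = |(fwdDiff v)^[M] f η| := by
  have h1 : rsA M 0 * rsA M 0 = 1 := by simp [rsA, ← mul_pow]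
  have h2 : |rsA M 0| = 1 := by simp [rsA]
  have h3 : f η - rsE M f v η = rsA M 0 * (fwdDiff v)^[M] f η := by
    rw [rs_diff, Finset.sum_range_succ', mul_add, ← mul_assoc, h1, Finset.mul_sum, rsE,
      sub_eq_add_neg, add_comm, ← Finset.sum_neg_distrib]
    congr 1
    · exact Finset.sum_congr rfl fun k _ => by rw [rsB]; ring
    · simp
  rw [h3, abs_mul, h2, one_mul]

theorem rs_norm {η v : E d} {k n : ℕ} {a b : ℝ} (h1 : ‖η‖ < a) (h2 : ‖v‖ < b) (hk : k ≤ n) :
    ‖η + k • v‖ < a + n * b := by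
  have h3 : ‖k • v‖ ≤ k * ‖v‖ := norm_nsmul_le
  have h4 : (k : ℝ) ≤ n := by exact_mod_cast hk
  have h5 : (k : ℝ) * ‖v‖ ≤ n * b := mul_le_mul h4 h2.le (norm_nonneg _) (Nat.cast_nonneg _)
  linarith [norm_add_le η (k • v)]

/-- most extrapolations at a point agree. -/
theorem rs_good {M : ℕ} {f : E d → ℝ} (hf : Measurable f) {r ε δ θ : ℝ} (hr : 0 < r) (hθ : 0 < θ)
    (hδ : 0 ≤ δ) {V : ℝ≥0∞} {B : Set (E d × E d)} (hm : MeasurableSet B)
    (hB : volume B ≤ ENNReal.ofReal δ * (V * V))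
    (hB' : ∀ η v : E d, ‖η‖ < (M + 2) * r → ‖v‖ < (M + 2) * r → (η, v) ∉ B →
      |f η - rsE M f v η| ≤ ε)
    (hU : ENNReal.ofReal θ * V ≤ volume (ball (0 : E d) r)) (η : E d) (hη : ‖η‖ < r) :
    ∃ g : ℝ, volume {v : E d | ‖v‖ < r ∧
      2 * (∑ k ∈ Finset.range M, |rsB M k|) * ε < |rsE M f v η - g|} ≤
        ENNReal.ofReal (2 * M * δ / θ) * V := by
  set K := ∑ k ∈ Finset.range M, |rsB M k|
  let P : Set (E d × E d) :=
    {z | ‖z.1‖ < r ∧ ‖z.2‖ < r ∧ 2 * K * ε < |rsE M f z.1 η - rsE M f z.2 η|}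
  have hE : Measurable fun v => rsE M f v η :=
    Finset.measurable_sum _ fun k _ => (hf.comp (by fun_prop)).const_mul _
  have hP : MeasurableSet P :=
    (measurableSet_lt measurable_fst.norm measurable_const).inter
      ((measurableSet_lt measurable_snd.norm measurable_const).inter
        (measurableSet_lt measurable_const
          ((hE.comp measurable_fst).sub (hE.comp measurable_snd)).abs))
  have hM : (0 : ℝ) ≤ M := Nat.cast_nonneg M
  have key : ∀ v w : E d, ‖v‖ < r → ‖w‖ < r → (∀ k < M, (η + (k + 1) • v, w) ∉ B) →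
      |rsE M f v η - ∑ k ∈ Finset.range M, ∑ j ∈ Finset.range M,
        rsB M k * rsB M j * f (η + (k + 1) • v + (j + 1) • w)| ≤ K * ε := by
    intro v w hv hw h
    have h1 := rs_comb M (rsB M) (fun k => f (η + (k + 1) • v))
      (fun k => rsE M f w (η + (k + 1) • v)) fun k hk =>
        hB' _ _ ((rs_norm (n := M) hη hv hk).trans (by nlinarith)) (hw.trans (by nlinarith))
          (h k hk)
    simpa only [rsE, Finset.mul_sum, mul_assoc] using h1
  have hsub : P ⊆ (⋃ k ∈ Finset.range M, {z | (η + (k + 1) • z.1, z.2) ∈ B}) ∪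
      ⋃ k ∈ Finset.range M, {z | (η + (k + 1) • z.2, z.1) ∈ B} := by
    rintro ⟨v, w⟩ ⟨hv, hw, h⟩
    by_contra hc
    simp only [mem_union, mem_iUnion, Finset.mem_range, not_or, not_exists, mem_ofPred_eq] at hc
    have h1 := key v w hv hw hc.1
    have h2 := key w v hw hv hc.2
    rw [Finset.sum_comm] at h2
    simp only [add_right_comm η _ ((_ + 1) • v), mul_comm (rsB M _) (rsB M _)] at h1 h2
    have h3 := abs_sub_le (rsE M f v η) _ (rsE M f w η) |>.trans
      (add_le_add h1 ((abs_sub_comm _ _).trans_le h2))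
    dsimp only at h
    linarith
  have m1 : ∀ k : ℕ, Measurable fun z : E d × E d => (η + (k + 1) • z.1, z.2) := fun k => by
    fun_prop
  have e1 : ∀ k : ℕ, volume {z : E d × E d | (η + (k + 1) • z.1, z.2) ∈ B} ≤
      ENNReal.ofReal δ * (V * V) := fun k =>
    (rs_exp2 (φ := fun _ => η) measurable_const (Nat.le_add_left 1 k) hm).trans hB
  have hvol := (measure_mono hsub).trans ((measure_union_le _ _).trans
    (add_le_add (rs_union volume (V * V) M _ fun k _ => e1 k)
      (rs_union volume (V * V) M _ fun k _ => (rs_swap (m1 k hm)).trans_le (e1 k))))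
  obtain ⟨w, hw, h⟩ := exists_le_setLAverage (μ := volume) (s := ball (0 : E d) r)
    (measure_ball_pos _ _ hr).ne' measure_ball_lt_top.ne
    (measurable_measure_prodMk_right (μ := volume) hP).aemeasurable
  refine ⟨rsE M f w η, le_trans (measure_mono fun v hv => ?_) (h.trans ?_)⟩
  · exact ⟨hv.1, mem_ball_zero_iff.1 hw, hv.2⟩
  · rw [setLAverage_eq]
    refine ENNReal.div_le_of_le_mul ((setLIntegral_le_lintegral _ _).trans ?_)
    rw [← Measure.prod_apply_symm hP]
    refine hvol.trans (le_trans (le_of_eq ?_) (mul_le_mul_right hU _))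
    rw [← add_mul, ← ENNReal.ofReal_add (by positivity) (by positivity), mul_mul_mul_comm,
      ← ENNReal.ofReal_mul (by positivity)]
    congr 2
    field_simp
    ring

theorem rs_tail {f : E d → ℝ} (hf : Measurable f) (τ : ℝ) {W : ℝ≥0∞} (hW : W ≠ 0) :
    ∃ S : ℝ, volume ({η | S < |f η|} ∩ ball (0 : E d) τ) ≤ W := by
  have h := tendsto_measure_iInter_atTop (μ := volume)
    (s := fun n : ℕ => {η | (n : ℝ) < |f η|} ∩ ball (0 : E d) τ)
    (fun n => ((measurableSet_lt measurable_const (by fun_prop)).inter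
      measurableSet_ball).nullMeasurableSet)
    (fun n m hnm η hη => ⟨(Nat.cast_le.2 hnm).trans_lt (show (m : ℝ) < _ from hη.1), hη.2⟩)
    ⟨0, ((measure_mono inter_subset_right).trans_lt measure_ball_lt_top).ne⟩
  have h1 : ⋂ n : ℕ, {η | (n : ℝ) < |f η|} ∩ ball (0 : E d) τ = ∅ :=
    eq_empty_of_forall_notMem fun η hη => by
      obtain ⟨n, hn⟩ := exists_nat_gt |f η|
      exact lt_asymm hn (mem_iInter.1 hη n).1
  rw [h1, measure_empty] at h
  obtain ⟨n, hn⟩ := (h.eventually (ge_mem_nhds (pos_iff_ne_zero.2 hW))).exists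
  exact ⟨n, hn⟩

theorem sRS : SRS := by
  intro d M hM
  set K := ∑ k ∈ Finset.range M, |rsB M k|
  set K' := ∑ k ∈ Finset.range (M + 1), |rsA M k|
  have hK : 0 ≤ K := Finset.sum_nonneg fun _ _ => abs_nonneg _
  have hK' : 0 ≤ K' := Finset.sum_nonneg fun _ _ => abs_nonneg _
  have hM0 : (0 : ℝ) < M := by exact_mod_cast hM
  set c : ℝ := 1 / (M + 2) with hc
  have hc0 : 0 < c := by positivity
  set θ : ℝ := (c / (M + 1)) ^ Module.finrank ℝ (E d)
  have hθ : 0 < θ := by positivity
  refine ⟨K' * (2 * K) + K + (2 * K + 1) + 2 / θ, c, θ * θ / (8 * M * (M + 1)), hc0,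
    by positivity, fun f τ ε δ hf hτ hε hδ hδ0 hB => ?_⟩
  have hδ1 : 8 * M * (M + 1) * δ ≤ θ * θ := by
    rwa [le_div_iff₀ (by positivity), mul_comm] at hδ0
  have hβ0 : 0 ≤ 2 * M * δ / θ := by positivity
  have hβ : (M + 1) * (2 * M * δ / θ) ≤ θ / 4 := by
    rw [← mul_div_assoc, div_le_iff₀ hθ]; nlinarith
  set β := 2 * M * δ / θ
  set V := volume (ball (0 : E d) τ)
  have hV0 : V ≠ 0 := (measure_ball_pos _ _ hτ).ne'
  have hV1 : V ≠ ⊤ := measure_ball_lt_top.ne
  set B := {z : E d × E d | ε < |(fwdDiff z.2)^[M] f z.1|} ∩ ball 0 τ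
  have hm : MeasurableSet B := by
    refine (measurableSet_lt measurable_const (Measurable.abs ?_)).inter measurableSet_ball
    simp only [rs_diff]
    exact Finset.measurable_sum _ fun k _ => (hf.comp (by fun_prop)).const_mul _
  have hVV : volume (ball (0 : E d × E d) τ) = V * V := by
    rw [← Prod.mk_zero_zero, ← ball_prod_same, Measure.volume_eq_prod, Measure.prod_prod]
  rw [hVV] at hB
  set r := c * τ with hr
  have hr0 : 0 < r := by positivity
  have hτr : τ = (M + 2) * r := by rw [hr, hc]; field_simp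
  have hD : ∀ η v : E d, ‖η‖ < (M + 2) * r → ‖v‖ < (M + 2) * r → (η, v) ∉ B →
      |(fwdDiff v)^[M] f η| ≤ ε := fun η v h1 h2 h => not_lt.1 fun h3 => h ⟨h3, by
    rw [mem_ball_zero_iff, Prod.norm_mk, hτr]; exact max_lt h1 h2⟩
  have hB' : ∀ η v : E d, ‖η‖ < (M + 2) * r → ‖v‖ < (M + 2) * r → (η, v) ∉ B →
      |f η - rsE M f v η| ≤ ε := fun η v h1 h2 h => (rs_abs M f v η).trans_le (hD η v h1 h2 h)
  set r' := c / (M + 1) * τ with hr'
  have hrr : r' + M * r' = r := by rw [hr, hr']; field_simp; ring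
  have hr1 : 0 < r' := by positivity
  have hr2 : r' ≤ r := by nlinarith
  have hU' : ENNReal.ofReal θ * V = volume (ball (0 : E d) r') := by
    rw [hr', Measure.addHaar_ball_mul_of_pos _ _ (by positivity)]
  have hU : ENNReal.ofReal θ * V ≤ volume (ball (0 : E d) r) :=
    hU'.trans_le (measure_mono (ball_subset_ball hr2))
  choose! g hg using rs_good hf hr0 hθ hδ hm hB hB' hU
  let N : E d → Set (E d) := fun η => {v | ‖v‖ < r ∧ 2 * K * ε < |rsE M f v η - g η|}
  have hN : ∀ η v : E d, ‖v‖ < r → v ∉ N η → |rsE M f v η - g η| ≤ 2 * K * ε :=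
    fun η v h1 h => not_lt.1 fun h2 => h ⟨h1, h2⟩
  have hNm : ∀ η, MeasurableSet (N η) := fun η => by
    have hE : Measurable fun v => rsE M f v η :=
      Finset.measurable_sum _ fun k _ => (hf.comp (by fun_prop)).const_mul _
    exact (measurableSet_lt measurable_norm measurable_const).inter
      (measurableSet_lt measurable_const (hE.sub_const _).abs)
  have hdiv : 0 < 2 / θ := by positivity
  refine ⟨g, ?_, fun η h hη => ?_, ?_⟩
  · obtain ⟨S, hS⟩ := rs_tail hf τ (W := ENNReal.ofReal (θ / (2 * M)) * V)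
      (mul_ne_zero (ENNReal.ofReal_pos.2 (by positivity)).ne' hV0)
    refine ⟨K * S + 2 * K * ε, fun η hη => ?_⟩
    rw [mem_ball_zero_iff] at hη
    obtain ⟨v, hv, h1, h2⟩ := rs_pick volume hV0 hV1 1 M (fun _ => N η)
      (fun k => {v | η + (k + 1) • v ∈ {η | S < |f η|} ∩ ball (0 : E d) τ}) hβ0
      (y := θ / (2 * M)) (by positivity) (fun _ _ => hg η hη)
      (fun k _ => (rs_exp1 η (Nat.le_add_left 1 k) _).trans hS) hU (by
        rw [show M * (θ / (2 * M)) = θ / 2 by field_simp]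
        push_cast
        nlinarith)
    rw [mem_ball_zero_iff] at hv
    have h3 := rs_comb M (rsB M) (fun k => f (η + (k + 1) • v)) (fun _ => 0) (ε := S)
      fun k hk => by
        rw [sub_zero]
        refine not_lt.1 fun h4 => h2 k hk ⟨h4, mem_ball_zero_iff.2 ?_⟩
        exact (rs_norm (n := M) hη hv hk).trans (by rw [hτr]; nlinarith)
    simp only [mul_zero, Finset.sum_const_zero, sub_zero] at h3
    have h4 := hN η v hv (h1 0 one_pos)
    have h5 := abs_sub (rsE M f v η) (rsE M f v η - g η)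
    rw [sub_sub_cancel] at h5
    exact h5.trans (add_le_add h3 h4)
  · have hη' : ∀ k ≤ M, ‖η + k • h‖ < r := fun k hk => mem_ball_zero_iff.1 (hη k hk)
    have h0 : ‖η‖ < r := by simpa using hη' 0 (Nat.zero_le _)
    have hh : ‖h‖ < 2 * r := by
      have h1 := hη' 1 hM
      have h2 := norm_sub_le (η + 1 • h) η
      rw [add_sub_cancel_left, one_nsmul] at h2
      rw [one_nsmul] at h1
      linarith
    obtain ⟨⟨v, w⟩, ⟨hv, hw⟩, h1, h2⟩ := rs_pick volume (mul_ne_zero hV0 hV0)
      (ENNReal.mul_ne_top hV1 hV1) (M + 1) M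
      (fun k => {z : E d × E d | (k • z.2 + 1 • z.1, z.2) ∈ N (η + k • h) ×ˢ ball (0 : E d) r'})
      (fun j => {z : E d × E d | (η + (j + 1) • z.1, h + (j + 1) • z.2) ∈ B})
      (x := β * θ) (θ := θ * θ) (by positivity) hδ
      (U := ball (0 : E d) r' ×ˢ ball (0 : E d) r')
      (fun k hk => by
        refine (rs_exp2 (φ := fun w => k • w) (by fun_prop) le_rfl
          ((hNm _).prod measurableSet_ball)).trans ?_
        rw [Measure.volume_eq_prod, Measure.prod_prod, ENNReal.ofReal_mul hβ0, mul_mul_mul_comm]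
        exact mul_le_mul' (hg _ (hη' k (Nat.lt_succ_iff.1 hk))) hU'.ge)
      (fun j _ => (rs_exp3 η h (Nat.le_add_left 1 j) hm).trans hB)
      (by
        rw [Measure.volume_eq_prod, Measure.prod_prod, ENNReal.ofReal_mul hθ.le, mul_mul_mul_comm]
        exact mul_le_mul' hU'.le hU'.le)
      (by
        have h1 := mul_le_mul_of_nonneg_right hβ hθ.le
        have h2 : 0 ≤ M * (M * δ) := by positivity
        have h3 : 0 < θ * θ := by positivity
        push_cast
        nlinarith)
    have hv' : ‖v‖ < r' := mem_ball_zero_iff.1 hv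
    have hw' : ‖w‖ < r' := mem_ball_zero_iff.1 hw
    have h3 := rs_comb (M + 1) (rsA M) (fun k => g (η + k • h))
      (fun k => rsE M f (v + k • w) (η + k • h)) (ε := 2 * K * ε) fun k hk => by
        rw [abs_sub_comm]
        refine hN _ _ ((rs_norm hv' hw' (Nat.lt_succ_iff.1 hk)).trans_eq hrr) fun h4 =>
          h1 k hk ⟨?_, hw⟩
        simpa only [one_nsmul, add_comm] using h4
    have h4 := rs_comb M (rsB M)
      (fun j => (fwdDiff (h + (j + 1) • w))^[M] f (η + (j + 1) • v)) (fun _ => 0) (ε := ε)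
      fun j hj => by
        rw [sub_zero]
        exact hD _ _ ((rs_norm (n := M) h0 hv' hj).trans (by nlinarith))
          ((rs_norm (n := M) hh hw' hj).trans_le (by nlinarith)) (h2 j hj)
    simp only [mul_zero, Finset.sum_const_zero, sub_zero] at h4
    have h5 : ∑ k ∈ Finset.range (M + 1), rsA M k * rsE M f (v + k • w) (η + k • h) =
        ∑ j ∈ Finset.range M, rsB M j * (fwdDiff (h + (j + 1) • w))^[M] f (η + (j + 1) • v) := by
      simp only [rsE, rs_diff, Finset.mul_sum]
      rw [Finset.sum_comm]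
      refine Finset.sum_congr rfl fun j _ => Finset.sum_congr rfl fun k _ => ?_
      rw [mul_left_comm, show η + k • h + (j + 1) • (v + k • w) =
        η + (j + 1) • v + k • (h + (j + 1) • w) by module]
    rw [← rs_diff, h5] at h3
    have h6 := (abs_sub_abs_le_abs_sub _ _).trans h3
    have h7 : 0 ≤ (2 * K + 1 + 2 / θ) * ε := by positivity
    change _ ≤ K * ε at h4
    change _ ≤ K' * (2 * K * ε) at h6
    linarith
  · have hsub : {η | (K' * (2 * K) + K + (2 * K + 1) + 2 / θ) * ε < |f η - g η|} ∩ ball 0 r ⊆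
        {η | ENNReal.ofReal (θ / 2) * V ≤ volume (Prod.mk η ⁻¹' B)} := by
      rintro η ⟨h1, hη⟩
      rw [mem_ball_zero_iff] at hη
      by_contra hc
      obtain ⟨v, hv, h2, h3⟩ := rs_pick volume hV0 hV1 1 1 (fun _ => N η)
        (fun _ => Prod.mk η ⁻¹' B) hβ0 (y := θ / 2) (by positivity) (fun _ _ => hg η hη)
        (fun _ _ => (not_le.1 hc).le) hU (by push_cast; nlinarith)
      rw [mem_ball_zero_iff] at hv
      have h4 := hN η v hv (h2 0 one_pos)
      have h5 := hB' η v (hη.trans (by nlinarith)) (hv.trans (by nlinarith)) (h3 0 one_pos)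
      have h6 := abs_sub_le (f η) (rsE M f v η) (g η)
      have h7 : 0 ≤ (K' * (2 * K) + K + 2 / θ) * ε := by positivity
      have h8 : (K' * (2 * K) + K + (2 * K + 1) + 2 / θ) * ε < |f η - g η| := h1
      linarith
    have h1 := mul_meas_ge_le_lintegral₀ (μ := volume)
      (measurable_measure_prodMk_left (ν := volume) hm).aemeasurable (ENNReal.ofReal (θ / 2) * V)
    rw [← Measure.prod_apply hm] at h1
    have h2 := (mul_le_mul_right (measure_mono hsub) _).trans (h1.trans hB)
    have h3 : ENNReal.ofReal δ * (V * V) =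
        ENNReal.ofReal (θ / 2) * V * (ENNReal.ofReal (2 / θ * δ) * V) := by
      rw [mul_mul_mul_comm, ← ENNReal.ofReal_mul (by positivity)]
      congr 2
      field_simp
    rw [h3, ENNReal.mul_le_mul_iff_right
      (mul_ne_zero (ENNReal.ofReal_pos.2 (by positivity)).ne' hV0)
      (ENNReal.mul_ne_top ENNReal.ofReal_ne_top hV1)] at h2
    refine h2.trans (mul_le_mul_left (ENNReal.ofReal_le_ofReal ?_) _)
    have h4 : 0 ≤ (K' * (2 * K) + K + (2 * K + 1)) * δ := by positivity
    linarith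

end Pool.Agent.MP_66cee2_co.X
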