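import Pool.Agent.MP_66cee2_co.X.BasicJ

/-
Exponential lower bound: jets are rational almost everywhere.
-/

namespace Pool.Agent.MP_66cee2_co.X

open MeasureTheory Set Filter Metric Topology

theorem rata_dens (hA : SApp) {d : ℕ} {ι : Type} [Fintype ι] {J : E d → Finset ι}
    (hJ : ∀ S, MeasurableSet {y | J y = S}) :
    ∀ᵐ y : E d, Small fun _ => {η | J (y + η) ≠ J y} := by
  filter_upwards [ae_all_iff.2 fun S => hA.dens d _ (hJ S)] with y hy
  exact hy (J y) rfl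

theorem sRatA (hS : SSig) (hA : SApp) (hJ : SJet) (hP : SPick) (hL : SRatLoc) : SRatA := by
  intro d ι β _ _ b J ξ hd hD hξ hb
  have hQ : ∀ᵐ x : E d, ∀ k a, ∃ φ, Jet (fun η : E d => b (x + η) k a) φ ∧
      MvPowerSeries.constantCoeff φ = b x k a := by
    filter_upwards [hb, ae_all_iff.2 fun k => ae_all_iff.2 fun a => hA.apc d _ (hD.mb k a)]
      with x h1 h2 k a
    obtain ⟨φ, hφ⟩ := h1 k a
    exact ⟨φ, hφ, hJ.jval d _ φ _ hφ (h2 k a)⟩
  filter_upwards [hξ, hD.uniq, rata_dens hA hD.mJ, hS.right d _ hQ] with y h1 h2 h3 h4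
  obtain ⟨r, r', n, n', c, c', hn, -, -, hc⟩ :=
    hP d ι β (fun ω => b (y + ω)) (J y) _ (by omega) h4 h2
  choose φ hφ using h1
  choose ψ hψ hψ0 using fun i : Fin r => (hn i).2
  have e1 : ∀ a ∈ J y, ∃ c, φ a = MvPowerSeries.C c := fun a ha => by
    refine ⟨ξ y a, hJ.uniq d _ _ _ (hφ a) (hJ.congr d _ _ _ ?_ (hJ.const d (ξ y a)))⟩
    refine small_iff.2 ((small_iff.1 h3).mono' fun τ η hη hJ' => hη ?_)
    exact hD.nrm y (y + η) hJ'.symm a ha
  have e2 : ∀ ζ : ι → ℝ, (∀ a ∈ J y, ζ a = 0) →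
      (∀ i : Fin r × β, ∑ a, ζ a * MvPowerSeries.constantCoeff (ψ i.1 i.2 a) = 0) → ζ = 0 := by
    intro ζ hζ h0
    funext a
    rw [(hc ζ hζ a).1]
    refine Finset.sum_eq_zero fun i _ => ?_
    have := h0 i
    simp only [hψ0] at this
    rw [show ζ ⬝ᵥ b (y + n i.1) i.2 = 0 from this, mul_zero]
  obtain ⟨q, p, hq, hp⟩ := hL d ι (Fin r × β) ξ (fun i x => b x i.2) y (fun i => n i.1) (J y) φ
    (fun i a => ψ i.1 i.2 a) hd hD.mξ (fun i a => hD.mb i.2 a) (fun i => hD.orth i.2)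
    (fun i => (hn i.1).1) hφ (fun i a => hψ i.1 i.2 a) e1 e2
  exact ⟨φ, q, p, hq, fun a => ⟨hφ a, hp a⟩⟩

end Pool.Agent.MP_66cee2_co.X
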