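import Pool.Agent.MP_66cee2_co.X.BasicJ

/-
Exponential lower bound: two neighbours of a common point.
-/

namespace Pool.Agent.MP_66cee2_co.X

open MeasureTheory Set Filter Metric Topology
open scoped ENNReal RealInnerProductSpace

/-- a unit vector `w` near `n` with `w - h` a unit vector. -/
noncomputable def ridge_w {d : ℕ} (n h : E d) : E d :=
  (1 / 2 : ℝ) • h + √(1 - ‖h‖ ^ 2 / 4) • n

theorem ridge_norm {d : ℕ} {n h : E d} (hn : ‖n‖ = 1) (ho : ⟪n, h⟫ = 0) (hh : ‖h‖ ≤ 2) {a : ℝ}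
    (ha : a ^ 2 = 1 / 4) : ‖a • h + √(1 - ‖h‖ ^ 2 / 4) • n‖ = 1 := by
  have h0 : 0 ≤ 1 - ‖h‖ ^ 2 / 4 := by nlinarith [norm_nonneg h]
  have h1 : ‖a • h + √(1 - ‖h‖ ^ 2 / 4) • n‖ ^ 2 = 1 := by
    rw [norm_add_sq_real, real_inner_smul_left, real_inner_smul_right, real_inner_comm, ho,
      norm_smul, norm_smul, hn, mul_pow, mul_one, Real.norm_eq_abs, Real.norm_eq_abs, sq_abs,
      sq_abs, ha, Real.sq_sqrt h0]
    ring
  exact (pow_eq_one_iff_of_nonneg (norm_nonneg _) two_ne_zero).1 h1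

theorem ridge_w_norm {d : ℕ} {n h : E d} (hn : ‖n‖ = 1) (ho : ⟪n, h⟫ = 0) (hh : ‖h‖ ≤ 2) :
    ‖ridge_w n h‖ = 1 := ridge_norm hn ho hh (by norm_num)

theorem ridge_w_sub {d : ℕ} {n h : E d} (hn : ‖n‖ = 1) (ho : ⟪n, h⟫ = 0) (hh : ‖h‖ ≤ 2) :
    ‖ridge_w n h - h‖ = 1 := by
  have e : ridge_w n h - h = (-(1 / 2) : ℝ) • h + √(1 - ‖h‖ ^ 2 / 4) • n := by
    rw [ridge_w]
    module
  rw [e]
  exact ridge_norm hn ho hh (by norm_num)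

theorem ridge_w_near {d : ℕ} {n h : E d} (hn : ‖n‖ = 1) (hh : ‖h‖ ≤ 2) :
    ‖ridge_w n h - n‖ ≤ ‖h‖ := by
  have hp := norm_nonneg h
  have h0 : 0 ≤ 1 - ‖h‖ ^ 2 / 4 := by nlinarith
  have h1 : √(1 - ‖h‖ ^ 2 / 4) ≤ 1 := Real.sqrt_le_one.2 (by nlinarith)
  have h2 := Real.sq_sqrt h0
  have h3 := Real.sqrt_nonneg (1 - ‖h‖ ^ 2 / 4)
  have e : ridge_w n h - n = (1 / 2 : ℝ) • h - (1 - √(1 - ‖h‖ ^ 2 / 4)) • n := by
    rw [ridge_w]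
    module
  rw [e]
  refine (norm_sub_le _ _).trans ?_
  rw [norm_smul, norm_smul, hn, Real.norm_of_nonneg (by norm_num),
    Real.norm_of_nonneg (by linarith)]
  nlinarith

theorem ridge_w_meas {d : ℕ} (n : E d) : Measurable (ridge_w n) := by
  refine Continuous.measurable ?_
  unfold ridge_w
  fun_prop

theorem ridge_coord {x₁ x₀ t₁ t₀ b₀ b s e₁ e₂ e₃ e₄ : ℝ} (h1 : |x₁ - t₁| ≤ e₁)
    (h0 : |x₀ - t₀| ≤ e₁) (h2 : |b - b₀| ≤ e₂) (h3 : |b - s| ≤ e₃) (h4 : |t₁ - t₀| ≤ e₄) :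
    |(x₁ - x₀) * (b₀ - b) - (t₁ - t₀) * (b₀ - s)| ≤ 2 * (e₁ * e₂ + e₃ * e₄) := by
  have e : (x₁ - x₀) * (b₀ - b) - (t₁ - t₀) * (b₀ - s) =
      (x₀ - t₀) * (b - b₀) - (x₁ - t₁) * (b - b₀) - (b - s) * (t₁ - t₀) := by ring
  have p1 : 0 ≤ e₁ := (abs_nonneg _).trans h1
  have p3 : 0 ≤ e₃ := (abs_nonneg _).trans h3
  have p4 : 0 ≤ e₄ := (abs_nonneg _).trans h4
  have a0 : |(x₀ - t₀) * (b - b₀)| ≤ e₁ * e₂ := by
    rw [abs_mul]
    exact mul_le_mul h0 h2 (abs_nonneg _) p1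
  have a1 : |(x₁ - t₁) * (b - b₀)| ≤ e₁ * e₂ := by
    rw [abs_mul]
    exact mul_le_mul h1 h2 (abs_nonneg _) p1
  have a2 : |(b - s) * (t₁ - t₀)| ≤ e₃ * e₄ := by
    rw [abs_mul]
    exact mul_le_mul h3 h4 (abs_nonneg _) p3
  have a3 := mul_nonneg p3 p4
  rw [e]
  rw [abs_le] at a0 a1 a2 ⊢
  constructor <;> linarith [a0.1, a0.2, a1.1, a1.2, a2.1, a2.2]

theorem ridge_sum {ι : Type} [Fintype ι] {x₁ x₀ t₁ t₀ b₀ b s : ι → ℝ} {e₁ e₂ e₃ e₄ γ κ K : ℝ}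
    (h1 : ∀ a, |x₁ a - t₁ a| ≤ e₁) (h0 : ∀ a, |x₀ a - t₀ a| ≤ e₁) (h2 : ∀ a, |b a - b₀ a| ≤ e₂)
    (h3 : ∀ a, |b a - s a| ≤ e₃) (h4 : ∀ a, |t₁ a - t₀ a| ≤ e₄) (o1 : x₁ ⬝ᵥ b = 0)
    (o0 : x₀ ⬝ᵥ b = 0) (hK : e₁ * e₂ + e₃ * e₄ ≤ K) :
    |γ * (x₁ ⬝ᵥ b₀) + κ - (γ * (x₀ ⬝ᵥ b₀) + κ) - γ * ∑ a, (t₁ a - t₀ a) * (b₀ a - s a)| ≤
      |γ| * (Fintype.card ι * (2 * K)) := by
  have e : γ * (x₁ ⬝ᵥ b₀) + κ - (γ * (x₀ ⬝ᵥ b₀) + κ) - γ * ∑ a, (t₁ a - t₀ a) * (b₀ a - s a) =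
      γ * ∑ a, ((x₁ a - x₀ a) * (b₀ a - b a) - (t₁ a - t₀ a) * (b₀ a - s a)) := by
    have e1 : ∑ a, (x₁ a - x₀ a) * (b₀ a - b a) =
        x₁ ⬝ᵥ b₀ - x₀ ⬝ᵥ b₀ - x₁ ⬝ᵥ b + x₀ ⬝ᵥ b := by
      simp only [dotProduct, ← Finset.sum_sub_distrib, ← Finset.sum_add_distrib]
      exact Finset.sum_congr rfl fun a _ => by ring
    rw [Finset.sum_sub_distrib, e1, o1, o0]
    ring
  rw [e, abs_mul]
  refine mul_le_mul_of_nonneg_left ((Finset.abs_sum_le_sum_abs _ _).trans ?_) (abs_nonneg _)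
  rw [← Finset.card_univ, ← nsmul_eq_mul]
  refine Finset.sum_le_card_nsmul _ _ _ fun a _ => ?_
  have := ridge_coord (h1 a) (h0 a) (h2 a) (h3 a) (h4 a)
  linarith

theorem sRidge : SRidge := by
  intro d D ι _ ξ b y n T S b₀ e₁ e₂ e₃ e₄ e u γ κ mξ mb ho hn dT dS s1 s2 s3 h4 _ ⟨C, hC⟩ su H hH
  rw [small_iff] at s1 s2 s3 su
  have hN := norm_nonneg H
  have hp : 0 < 1 + ‖H‖ := by linarith
  have hc : 0 < 1 / (1 + ‖H‖) := by positivity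
  have hc1 : 1 / (1 + ‖H‖) ≤ 1 := (div_le_one hp).2 (by linarith)
  have mH : Measurable H := H.continuous.measurable
  have mw : Measurable fun v => ridge_w n (H v) := (ridge_w_meas n).comp mH
  have mg : Measurable fun v => ridge_w n (H v) - n := mw.sub_const n
  have b0 : ∀ τ : ℝ, ∀ z ∈ ball (0 : E d × E d) (1 / (1 + ‖H‖) * τ), ‖z.1‖ + ‖H z.2‖ < τ := by
    intro τ z hz
    rw [mem_ball_zero_iff, Prod.norm_def, max_lt_iff] at hz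
    have h2 : ‖H z.2‖ ≤ ‖H‖ * (1 / (1 + ‖H‖) * τ) :=
      (H.le_opNorm _).trans (mul_le_mul_of_nonneg_left hz.2.le hN)
    have e : τ = 1 / (1 + ‖H‖) * τ + ‖H‖ * (1 / (1 + ‖H‖) * τ) := by field_simp
    linarith [hz.1]
  have b1 : ∀ᶠ τ in 𝓝[>] (0 : ℝ), ∀ z ∈ ball (0 : E d × E d) (1 / (1 + ‖H‖) * τ),
      ‖z.1 + H z.2‖ < 1 * τ := Eventually.of_forall fun τ z hz => by
    rw [one_mul]
    exact (norm_add_le _ _).trans_lt (b0 τ z hz)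
  have b2 : ∀ᶠ τ in 𝓝[>] (0 : ℝ), ∀ z ∈ ball (0 : E d × E d) (1 / (1 + ‖H‖) * τ),
      ‖z.1 + (ridge_w n (H z.2) - n)‖ < 1 * τ := (ev_lt two_pos).mono fun τ hτ z hz => by
    have h1 := b0 τ z hz
    have h2 := ridge_w_near (h := H z.2) hn (by linarith [norm_nonneg z.1])
    have h3 := norm_add_le z.1 (ridge_w n (H z.2) - n)
    linarith
  have o0 := allPair_prod (measurableSet_orth mξ mb) ho (volume : Measure (E d))
    (s := fun _ => y) measurable_const mw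
  have o1 := allPair_prod (measurableSet_orth mξ mb) ho (volume : Measure (E d))
    (s := fun v => y + H v) (w := fun v => ridge_w n (H v) - H v) (mH.const_add y) (mw.sub mH)
  refine ⟨fun τ v η => γ * ∑ a, (ev (T τ a) (η + H v) - ev (T τ a) η) *
    (b₀ a - ev (S a) (η + (ridge_w n (H v) - n))), fun τ v => ?_,
    |γ| * (Fintype.card ι * (2 * C)), 1 / (1 + ‖H‖), hc, ?_⟩
  · refine IsPoly.const_mul (isPoly_sum _ fun a _ => ?_) γ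
    rw [two_mul]
    exact (((isPoly_ev _ (dT τ a)).shift _).sub (isPoly_ev _ (dT τ a))).mul
      ((isPoly_const D _).sub ((isPoly_ev _ (dS a)).shift _))
  · have all := ((((((((s1.fst one_pos).mono_rad hc1).union (s1.shift one_pos hc1 mH b1)).union
      (s2.shift one_pos hc1 mg b2)).union (s3.shift one_pos hc1 mg b2)).union
      ((su.fst one_pos).mono_rad hc1)).union (su.shift one_pos hc1 mH b1)).union
      (smR_of_ae (X := E d × E d) o0)).union (smR_of_ae (X := E d × E d) o1)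
    refine all.mono ?_
    filter_upwards [h4, hC, ev_lt two_pos] with τ h4 hC hτ z hz hbad
    by_contra hgood
    simp only [mem_union, mem_ofPred_eq, not_or, not_exists, not_lt, not_not, ne_eq] at hgood hbad
    obtain ⟨⟨⟨⟨⟨⟨⟨g0, g1⟩, g2⟩, g3⟩, u0⟩, u1⟩, p0⟩, p1⟩ := hgood
    have h1 := b0 τ z hz
    have hz1 := norm_nonneg z.1
    have hz2 := norm_nonneg (H z.2)
    have hh : ‖H z.2‖ ≤ 2 := by linarith
    have q0 := p0 (ridge_w_norm hn (hH _) hh)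
    have q1 := p1 (ridge_w_sub hn (hH _) hh)
    have e0 : z.1 + y + ridge_w n (H z.2) = y + n + (z.1 + (ridge_w n (H z.2) - n)) := by abel
    have e1 : z.1 + (y + H z.2) + (ridge_w n (H z.2) - H z.2) =
        y + n + (z.1 + (ridge_w n (H z.2) - n)) := by abel
    have e2 : z.1 + (y + H z.2) = y + (z.1 + H z.2) := by abel
    rw [e0, add_comm z.1 y] at q0
    rw [e1, e2] at q1
    have m0 : z.1 ∈ ball (0 : E d) τ := mem_ball_zero_iff.2 (by linarith)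
    have m1 : z.1 + H z.2 ∈ ball (0 : E d) τ :=
      mem_ball_zero_iff.2 ((norm_add_le _ _).trans_lt h1)
    have key := ridge_sum (γ := γ) (κ := κ) g1 g0 g2 g3 (fun a => h4 a _ m1 _ m0) q1 q0 hC
    rw [u0, u1] at hbad
    refine absurd (hbad.trans_le key) (not_lt.2 (le_of_eq ?_))
    ring

end Pool.Agent.MP_66cee2_co.X
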