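import Pool.Agent.MP_66cee2_co.X.SpecJ

/-
Measurable normalised bases of the orthogonal of a family on the unit sphere.
-/

namespace Pool.Agent.MP_66cee2_co.X

open MeasureTheory Set Filter Matrix

section Lin

variable {ι : Type} [Fintype ι] [DecidableEq ι]

/-- the matrix that detects free coordinates. -/
noncomputable def rows_M (G : Matrix ι ι ℝ) (S : Finset ι) : Matrix ι ι ℝ :=
  Gᵀ * G + diagonal fun a => if a ∈ S then 1 else 0

/-- the coordinates in `S` are free coordinates on the kernel. -/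
def rows_Fr (G : Matrix ι ι ℝ) (S : Finset ι) : Prop :=
  (rows_M G S).det ≠ 0 ∧ ∀ j ∈ S, G *ᵥ (fun a => (rows_M G S)⁻¹ a j) = 0

theorem rows_mulVec (G : Matrix ι ι ℝ) (S : Finset ι) (ζ : ι → ℝ) :
    rows_M G S *ᵥ ζ = Gᵀ *ᵥ (G *ᵥ ζ) + fun a => if a ∈ S then ζ a else 0 := by
  rw [rows_M, add_mulVec, mulVec_mulVec]
  refine congrArg _ (funext fun a => ?_)
  rw [mulVec_diagonal]
  split_ifs <;> simp

theorem rows_col {M : Matrix ι ι ℝ} (h : M.det ≠ 0) (j : ι) :
    M *ᵥ (fun a => M⁻¹ a j) = Pi.single j 1 := by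
  funext a
  have e : (M *ᵥ fun a => M⁻¹ a j) a = (M * M⁻¹) a j := rfl
  rw [e, mul_nonsing_inv _ (isUnit_iff_ne_zero.2 h), one_apply, Pi.single_apply]

theorem rows_inj {G : Matrix ι ι ℝ} {S : Finset ι} (h : rows_Fr G S) {ζ : ι → ℝ}
    (h1 : G *ᵥ ζ = 0) (h2 : ∀ a ∈ S, ζ a = 0) : ζ = 0 := by
  refine eq_zero_of_mulVec_eq_zero h.1 ?_
  rw [rows_mulVec, h1, mulVec_zero, zero_add]
  funext a
  split_ifs with ha
  · exact h2 a ha
  · rfl

theorem rows_val {G : Matrix ι ι ℝ} {S : Finset ι} (h : rows_Fr G S) {j : ι} (hj : j ∈ S)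
    {a : ι} (ha : a ∈ S) : (rows_M G S)⁻¹ a j = if a = j then 1 else 0 := by
  have h1 := rows_col h.1 j
  rw [rows_mulVec, h.2 j hj, mulVec_zero, zero_add] at h1
  have h2 := congrFun h1 a
  simpa only [if_pos ha, Pi.single_apply] using h2

theorem rows_ex (G : Matrix ι ι ℝ) : ∃ S, rows_Fr G S := by
  classical
  obtain ⟨S, hS, hmin⟩ := Finset.exists_min_image
    (Finset.univ.filter fun S : Finset ι => ∀ ζ : ι → ℝ, G *ᵥ ζ = 0 → (∀ a ∈ S, ζ a = 0) → ζ = 0)
    Finset.card ⟨Finset.univ, Finset.mem_filter.2 ⟨Finset.mem_univ _, fun ζ _ h =>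
      funext fun a => h a (Finset.mem_univ a)⟩⟩
  replace hS := (Finset.mem_filter.1 hS).2
  have hdet : (rows_M G S).det ≠ 0 := by
    intro h
    obtain ⟨ζ, hζ, h0⟩ := exists_mulVec_eq_zero_iff.2 h
    have h1 := congrArg (fun v => ζ ⬝ᵥ v) h0
    simp only [rows_mulVec, dotProduct_add, dotProduct_zero] at h1
    rw [dotProduct_mulVec, vecMul_transpose] at h1
    have h2 : 0 ≤ G *ᵥ ζ ⬝ᵥ G *ᵥ ζ := Finset.sum_nonneg fun a _ => mul_self_nonneg _
    have h3 : ∀ a, 0 ≤ ζ a * if a ∈ S then ζ a else 0 := fun a => by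
      split_ifs
      · exact mul_self_nonneg _
      · rw [mul_zero]
    have h4 : 0 ≤ ζ ⬝ᵥ fun a => if a ∈ S then ζ a else 0 := Finset.sum_nonneg fun a _ => h3 a
    have h5 : G *ᵥ ζ ⬝ᵥ G *ᵥ ζ = 0 := by linarith
    have h6 : (ζ ⬝ᵥ fun a => if a ∈ S then ζ a else 0) = 0 := by linarith
    refine hζ (hS ζ (dotProduct_self_eq_zero.1 h5) fun a ha => ?_)
    have h7 := (Finset.sum_eq_zero_iff_of_nonneg fun a _ => h3 a).1 h6 a (Finset.mem_univ a)
    rw [if_pos ha] at h7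
    exact mul_self_eq_zero.1 h7
  refine ⟨S, hdet, fun j hj => ?_⟩
  have h1 : ¬ ∀ ζ : ι → ℝ, G *ᵥ ζ = 0 → (∀ a ∈ S.erase j, ζ a = 0) → ζ = 0 := fun h =>
    absurd (hmin (S.erase j) (Finset.mem_filter.2 ⟨Finset.mem_univ _, h⟩))
      (not_le.2 (Finset.card_erase_lt_of_mem hj))
  push Not at h1
  obtain ⟨ζ, h2, h3, h4⟩ := h1
  have h5 : ζ j ≠ 0 := fun h => h4 (hS ζ h2 fun a ha => by
    by_cases e : a = j
    · rw [e, h]
    · exact h3 a (Finset.mem_erase.2 ⟨e, ha⟩))
  have h6 : G *ᵥ ((ζ j)⁻¹ • ζ) = 0 := by rw [mulVec_smul, h2, smul_zero]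
  have h7 : rows_M G S *ᵥ ((ζ j)⁻¹ • ζ) = Pi.single j 1 := by
    rw [rows_mulVec, h6, mulVec_zero, zero_add]
    funext a
    rw [Pi.single_apply, Pi.smul_apply, smul_eq_mul]
    by_cases e : a = j
    · rw [e, if_pos hj, if_pos rfl, inv_mul_cancel₀ h5]
    · rw [if_neg e]
      split_ifs with ha
      · rw [h3 a (Finset.mem_erase.2 ⟨e, ha⟩), mul_zero]
      · rfl
  have h8 : (fun a => (rows_M G S)⁻¹ a j) = (ζ j)⁻¹ • ζ :=
    sub_eq_zero.1 (eq_zero_of_mulVec_eq_zero hdet (by rw [mulVec_sub, h7, rows_col hdet, sub_self]))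
  rw [h8, h6]

variable {Y : Type} [MeasurableSpace Y]

theorem rows_mdet {A : Y → Matrix ι ι ℝ} (h : ∀ a b, Measurable fun y => A y a b) :
    Measurable fun y => (A y).det := by
  simp only [det_apply']
  exact Finset.measurable_sum _ fun σ _ =>
    (Finset.measurable_prod _ fun i _ => h _ _).const_mul _

theorem rows_minv {A : Y → Matrix ι ι ℝ} (h : ∀ a b, Measurable fun y => A y a b) (a b : ι) :
    Measurable fun y => (A y)⁻¹ a b := by
  simp only [inv_def, Ring.inverse_eq_inv', Matrix.smul_apply, smul_eq_mul, adjugate_apply]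
  refine (rows_mdet h).inv.mul (rows_mdet fun i k => ?_)
  simp only [updateRow_apply]
  split_ifs
  · exact measurable_const
  · exact h _ _

theorem rows_mM {G : Y → Matrix ι ι ℝ} (h : ∀ a b, Measurable fun y => G y a b) (S : Finset ι)
    (a b : ι) : Measurable fun y => rows_M (G y) S a b := by
  simp only [rows_M, Matrix.add_apply, mul_apply, transpose_apply]
  exact (Finset.measurable_sum _ fun k _ => (h _ _).mul (h _ _)).add measurable_const

theorem rows_mFr {G : Y → Matrix ι ι ℝ} (h : ∀ a b, Measurable fun y => G y a b) (S : Finset ι) :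
    MeasurableSet {y | rows_Fr (G y) S} := by
  have e : {y | rows_Fr (G y) S} = {y | (rows_M (G y) S).det = 0}ᶜ ∩
      ⋂ j ∈ S, ⋂ a, {y | ∑ b, G y a b * (rows_M (G y) S)⁻¹ b j = 0} := by
    ext y
    simp only [rows_Fr, mem_ofPred_eq, mem_inter_iff, mem_compl_iff, mem_iInter, funext_iff]
    rfl
  rw [e]
  refine (measurableSet_eq_fun (rows_mdet (rows_mM h S)) measurable_const).compl.inter
    (Finset.measurableSet_biInter _ fun j _ => MeasurableSet.iInter fun a => ?_)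
  exact measurableSet_eq_fun
    (Finset.measurable_sum _ fun b _ => (h _ _).mul (rows_minv (rows_mM h S) _ _)) measurable_const

end Lin

theorem rows_gram {d : ℕ} {ι β : Type} [Fintype ι] [Fintype β] (c : E d → β → ι → ℝ)
    (hc : ∀ k a, Measurable fun x => c x k a) :
    ∃ G : E d → Matrix ι ι ℝ, (∀ a b, Measurable fun y => G y a b) ∧
      ∀ y ζ, G y *ᵥ ζ = 0 ↔ ∀ᵐ ω ∂sig d, ∀ k, ζ ⬝ᵥ c (y + ω) k = 0 := by
  obtain ⟨u, hu⟩ : ∃ u : E d → β → ι → ℝ, ∀ x k, u x k = (1 + ‖c x k‖)⁻¹ • c x k := ⟨_, fun _ _ => rfl⟩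
  have hm : ∀ k a, Measurable fun x => u x k a := fun k a => by
    simp only [hu, Pi.smul_apply, smul_eq_mul]
    exact ((measurable_pi_lambda _ (hc k)).norm.const_add 1).inv.mul (hc k a)
  have hb : ∀ x k a, |u x k a| ≤ 1 := fun x k a => by
    have h1 : 0 < 1 + ‖c x k‖ := by positivity
    rw [hu, Pi.smul_apply, smul_eq_mul, abs_mul, abs_inv, abs_of_pos h1, inv_mul_le_iff₀ h1]
    linarith [norm_le_pi_norm (c x k) a, Real.norm_eq_abs (c x k a)]
  have hz : ∀ (ζ : ι → ℝ) x k, ζ ⬝ᵥ u x k = 0 ↔ ζ ⬝ᵥ c x k = 0 := fun ζ x k => by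
    have h1 : (1 + ‖c x k‖)⁻¹ ≠ 0 := by positivity
    rw [hu, dotProduct_smul, smul_eq_mul, mul_eq_zero, or_iff_right h1]
  have hi : ∀ (y : E d) a b, Integrable (fun ω => ∑ k, u (y + ω) k a * u (y + ω) k b) (sig d) := by
    intro y a b
    refine integrable_finsetSum _ fun k _ => Integrable.of_bound
      (((hm k a).mul (hm k b)).comp (measurable_const_add y)).aestronglyMeasurable 1
      (Eventually.of_forall fun ω => ?_)
    rw [Real.norm_eq_abs, abs_mul]
    exact mul_le_one₀ (hb _ _ _) (abs_nonneg _) (hb _ _ _)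
  refine ⟨fun y a b => ∫ ω, ∑ k, u (y + ω) k a * u (y + ω) k b ∂sig d, fun a b => ?_, fun y ζ => ?_⟩
  · refine (StronglyMeasurable.integral_prod_right' (ν := sig d)
      (f := fun z : E d × E d => ∑ k, u (z.1 + z.2) k a * u (z.1 + z.2) k b) ?_).measurable
    exact (Finset.measurable_sum _ fun k _ =>
      ((hm k a).mul (hm k b)).comp measurable_add).stronglyMeasurable
  have e1 : ∀ a ω, ∑ b, (∑ k, u (y + ω) k a * u (y + ω) k b) * ζ b =
      ∑ k, u (y + ω) k a * (ζ ⬝ᵥ u (y + ω) k) := fun a ω => by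
    simp only [dotProduct, Finset.sum_mul, Finset.mul_sum]
    rw [Finset.sum_comm]
    exact Finset.sum_congr rfl fun k _ => Finset.sum_congr rfl fun b _ => by ring
  have hi1 : ∀ a, Integrable (fun ω => ∑ k, u (y + ω) k a * (ζ ⬝ᵥ u (y + ω) k)) (sig d) := fun a => by
    simp only [← e1]
    exact integrable_finsetSum _ fun b _ => (hi y a b).mul_const _
  have e2 : ∀ a, ((fun a b => ∫ ω, ∑ k, u (y + ω) k a * u (y + ω) k b ∂sig d : Matrix ι ι ℝ) *ᵥ ζ) a =
      ∫ ω, ∑ k, u (y + ω) k a * (ζ ⬝ᵥ u (y + ω) k) ∂sig d := fun a => by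
    simp only [← e1]
    rw [integral_finsetSum _ fun b _ => (hi y a b).mul_const _]
    exact Finset.sum_congr rfl fun b _ => (integral_mul_const _ _).symm
  have e3 : ∀ ω, ∑ a, ζ a * ∑ k, u (y + ω) k a * (ζ ⬝ᵥ u (y + ω) k) =
      ∑ k, (ζ ⬝ᵥ u (y + ω) k) * (ζ ⬝ᵥ u (y + ω) k) := fun ω => by
    simp only [Finset.mul_sum]
    rw [Finset.sum_comm]
    refine Finset.sum_congr rfl fun k _ => ?_
    simp only [← mul_assoc]
    rw [← Finset.sum_mul]
    rfl
  constructor
  · intro h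
    have h1 : ∫ ω, ∑ k, (ζ ⬝ᵥ u (y + ω) k) * (ζ ⬝ᵥ u (y + ω) k) ∂sig d = 0 := by
      simp only [← e3]
      rw [integral_finsetSum _ fun a _ => (hi1 a).const_mul _]
      refine Finset.sum_eq_zero fun a _ => ?_
      rw [integral_const_mul, ← e2, h, Pi.zero_apply, mul_zero]
    have h2 : Integrable (fun ω => ∑ k, (ζ ⬝ᵥ u (y + ω) k) * (ζ ⬝ᵥ u (y + ω) k)) (sig d) := by
      simp only [← e3]
      exact integrable_finsetSum _ fun a _ => (hi1 a).const_mul _
    have h3 := (integral_eq_zero_iff_of_nonneg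
      (fun ω => Finset.sum_nonneg fun k _ => mul_self_nonneg _) h2).1 h1
    filter_upwards [h3] with ω hω k
    exact (hz ζ _ k).1 (mul_self_eq_zero.1 ((Finset.sum_eq_zero_iff_of_nonneg
      fun k _ => mul_self_nonneg _).1 hω k (Finset.mem_univ k)))
  · intro h
    funext a
    rw [e2]
    refine integral_eq_zero_of_ae ?_
    filter_upwards [h] with ω hω
    exact Finset.sum_eq_zero fun k _ => by rw [(hz ζ _ k).2 (hω k), mul_zero]

theorem sRows : SRows := by
  classical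
  intro d ι β _ _ _ c hc
  obtain ⟨G, hG, hk⟩ := rows_gram c hc
  obtain ⟨e, he⟩ := exists_surjective_nat (Finset ι)
  have hex : ∀ y, ∃ m, rows_Fr (G y) (e m) := fun y => by
    obtain ⟨S, hS⟩ := rows_ex (G y)
    obtain ⟨m, rfl⟩ := he S
    exact ⟨m, hS⟩
  have hm : ∀ m, MeasurableSet {y | rows_Fr (G y) (e m)} := fun m => rows_mFr hG _
  refine ⟨fun y => e (Nat.find (hex y)), fun y j a => if j ∈ e (Nat.find (hex y)) then
    (rows_M (G y) (e (Nat.find (hex y))))⁻¹ a j else 0, fun S => ?_, fun j a => ?_,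
    fun y j a ha => ?_, fun y j => ?_, fun y ζ h1 h2 => ?_⟩
  · exact measurable_find hex hm (t := {m | e m = S}) (MeasurableSet.of_discrete)
  · refine Measurable.find (f := fun m y => if j ∈ e m then (rows_M (G y) (e m))⁻¹ a j else 0)
      (fun m => ?_) hm hex
    split_ifs
    · exact rows_minv (rows_mM hG _) _ _
    · exact measurable_const
  · by_cases hj : j ∈ e (Nat.find (hex y))
    · simp only [if_pos hj]
      exact rows_val (Nat.find_spec (hex y)) hj ha
    · simp only [if_neg hj]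
      rw [if_neg fun h : a = j => hj (h ▸ ha)]
  · refine (hk y _).1 ?_
    by_cases hj : j ∈ e (Nat.find (hex y))
    · simp only [if_pos hj]
      exact (Nat.find_spec (hex y)).2 j hj
    · simp only [if_neg hj]
      exact mulVec_zero _
  · exact rows_inj (Nat.find_spec (hex y)) ((hk y ζ).2 h1) h2

end Pool.Agent.MP_66cee2_co.X
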