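import Pool.Agent.MP_66cee2_co.X.BasicJ

/-
Exponential lower bound: the induction step for Taylor expansions.
-/

namespace Pool.Agent.MP_66cee2_co.X

open MeasureTheory Set Filter Metric Topology
open scoped ENNReal

/-- one constant for finitely many expansions. -/
theorem step_all {d : ℕ} {I ι : Type} [Finite I] [Finite ι] {f : I → ι → E d → ℝ}
    {T : I → ι → MvPolynomial (Fin d) ℝ} {s : ℝ} (h : ∀ i a, Tay (f i a) (T i a) s) :
    ∃ C : ℝ, 0 ≤ C ∧ ∀ i, Small fun τ => {η | ∃ a, C * τ ^ s < |f i a η - ev (T i a) η|} := by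
  choose C₀ _ hC using fun i a => (h i a).exists_nonneg
  obtain ⟨C, hb⟩ := (finite_range fun p : I × ι => C₀ p.1 p.2).bddAbove
  refine ⟨max C 0, le_max_right _ _, fun i => small_iff.2 ?_⟩
  exact smR_exists (S := fun a τ => {η | max C 0 * τ ^ s < |f i a η - ev (T i a) η|}) fun a =>
    small_iff.1 (hC i a _ ((hb ⟨(i, a), rfl⟩).trans (le_max_left _ _)))

/-- one Lipschitz constant for finitely many polynomials. -/
theorem step_lip {d : ℕ} {ι : Type} [Finite ι] (T : ι → MvPolynomial (Fin d) ℝ) :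
    ∃ C : ℝ, 0 ≤ C ∧ ∀ᶠ τ in 𝓝[>] (0 : ℝ), ∀ a, ∀ η ∈ ball (0 : E d) τ, ∀ η' ∈ ball (0 : E d) τ,
      |ev (T a) η - ev (T a) η'| ≤ C * τ := by
  choose C₀ _ hC using fun a => ev_lip (T a)
  obtain ⟨C, hb⟩ := (finite_range C₀).bddAbove
  refine ⟨max C 0, le_max_right _ _, ?_⟩
  filter_upwards [eventually_all.2 hC, ev_pos] with τ hτ h0 a η hη η' hη'
  exact (hτ a η hη η' hη').trans
    (mul_le_mul_of_nonneg_right ((hb ⟨a, rfl⟩).trans (le_max_left _ _)) h0.le)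

theorem step_low (hJ : SJet) {d : ℕ} {f : E d → ℝ} {T : MvPolynomial (Fin d) ℝ} {s c : ℝ}
    (hs : 0 < s) (h : Tay f T s) (hc : ApC f c) : Tay f (MvPolynomial.C c) (min s 1) := by
  have := hJ.low d f T _ (min_le_right s 1) (hJ.mono d f T s _ (min_le_left s 1) h)
  rwa [hJ.val d f T s c hs h hc] at this

theorem step_err {s C₁ C₂ C₃ C₄ : ℝ} (hs : 1 / 3 ≤ s) (h₁ : 0 ≤ C₁) (h₂ : 0 ≤ C₂) (h₃ : 0 ≤ C₃)
    (h₄ : 0 ≤ C₄) : ∀ᶠ τ in 𝓝[>] (0 : ℝ), C₁ * τ ^ s * (C₂ * τ ^ min s 1) + C₃ * τ ^ s * (C₄ * τ) ≤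
      (C₁ * C₂ + C₃ * C₄) * |τ| ^ (s + 1 / 3) := by
  filter_upwards [ev_pos, ev_lt one_pos] with τ h0 h1
  have a1 : τ ^ min s 1 ≤ τ ^ (1 / 3 : ℝ) :=
    Real.rpow_le_rpow_of_exponent_ge h0 h1.le (le_min hs (by norm_num))
  have a2 : τ ≤ τ ^ (1 / 3 : ℝ) := by
    have := Real.rpow_le_rpow_of_exponent_ge h0 h1.le (show (1 / 3 : ℝ) ≤ 1 by norm_num)
    rwa [Real.rpow_one] at this
  have a3 : 0 ≤ τ ^ s := Real.rpow_nonneg h0.le s
  rw [abs_of_pos h0, Real.rpow_add h0]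
  have b1 := mul_le_mul_of_nonneg_left a1 (mul_nonneg (mul_nonneg h₁ h₂) a3)
  have b2 := mul_le_mul_of_nonneg_left a2 (mul_nonneg (mul_nonneg h₃ h₄) a3)
  nlinarith

theorem sStep (hA : SApp) (hJ : SJet) (hT : STele) (hC : SCore) : SStep := by
  intro d ι β _ _ b J ξ s hd hD hs hk hξ hb
  have hs0 : 0 < s := by linarith
  have hQ : ∀ᵐ x : E d, ∀ k a, HasTay (fun η : E d => b (x + η) k a) s ∧
      ApC (fun η : E d => b (x + η) k a) (b x k a) := by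
    have h1 : ∀ᵐ x : E d, ∀ k a, ApC (fun η : E d => b (x + η) k a) (b x k a) :=
      ae_all_iff.2 fun k => ae_all_iff.2 fun a => hA.apc d (fun x => b x k a) (hD.mb k a)
    filter_upwards [hb, h1] with x h h' k a using ⟨h k a, h' k a⟩
  filter_upwards [hC d ι β b J ξ _ hd hD hQ, hξ] with y ⟨F, hF, h⟩ hy a
  classical
  choose T hT' using hy
  choose S hS using fun (i : F × β) a => (hF i.1.1 i.1.2 i.2 a).1
  obtain ⟨D₁, hD₁⟩ := (finite_range fun a => (T a).totalDegree).bddAbove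
  obtain ⟨D₂, hD₂⟩ := (finite_range fun p : (F × β) × ι => (S p.1 p.2).totalDegree).bddAbove
  obtain ⟨C₁, h₁, e₁⟩ := step_all (I := Unit) (f := fun _ a η => ξ (y + η) a) (T := fun _ => T)
    fun _ => hT'
  obtain ⟨C₂, h₂, e₂⟩ := step_all (I := F × β) (f := fun i a η => b (i.1.1 + η) i.2 a)
    fun i a => step_low hJ hs0 (hS i a) (hF i.1.1 i.1.2 i.2 a).2
  obtain ⟨C₃, h₃, e₃⟩ := step_all (I := F × β) (f := fun i a η => b (i.1.1 + η) i.2 a) hS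
  obtain ⟨C₄, h₄, e₄⟩ := step_lip T
  refine hT d _ _ (by linarith) hk (h (max D₁ D₂) (fun _ => T)
    (fun x k a => if hx : x ∈ F then S (⟨x, hx⟩, k) a else 0) (fun τ => C₁ * τ ^ s)
    (fun τ => C₂ * τ ^ min s 1) (fun τ => C₃ * τ ^ s) (fun τ => C₄ * τ) _
    (fun _ a => (hD₁ ⟨a, rfl⟩).trans (le_max_left _ _)) (fun x hx k a => ?_) (e₁ ())
    (fun x hx k => ?_) (fun x hx k => ?_) e₄ (fun τ => Real.rpow_nonneg (abs_nonneg τ) _)
    ⟨_, step_err hs h₁ h₂ h₃ h₄⟩ a)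
  · simp only [dif_pos hx]
    exact (hD₂ ⟨((⟨x, hx⟩, k), a), rfl⟩).trans (le_max_right _ _)
  · simpa only [ev_C] using e₂ (⟨x, hx⟩, k)
  · simpa only [dif_pos hx] using e₃ (⟨x, hx⟩, k)

end Pool.Agent.MP_66cee2_co.X
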