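import Pool.Agent.MP_66cee2_co.X.BasicJ

/-
Exponential lower bound: polynomial approximation at every scale gives a Taylor expansion.
-/

namespace Pool.Agent.MP_66cee2_co.X

open MeasureTheory Set Filter Metric Topology
open scoped ENNReal

theorem tele_seq {b : ℕ → ℝ} {M ρ : ℝ} (h1 : ρ ≠ 1)
    (h : ∀ k, |b k - b (k + 1)| ≤ M * ρ ^ k) : ∃ L M' : ℝ, ∀ k, |b k - L| ≤ M' * ρ ^ k := by
  rcases lt_or_gt_of_ne h1 with h2 | h2
  · obtain ⟨L, hL⟩ := cauchySeq_tendsto_of_complete (cauchySeq_of_le_geometric (f := b) ρ M h2 h)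
    refine ⟨L, M / (1 - ρ), fun k => ?_⟩
    have := dist_le_of_le_geometric_of_tendsto (f := b) ρ M h2 h hL k
    rwa [Real.dist_eq, mul_div_right_comm] at this
  · have hM : 0 ≤ M := by simpa using (abs_nonneg _).trans (h 0)
    have h3 : 0 < ρ - 1 := sub_pos.2 h2
    refine ⟨b 0, M / (ρ - 1), fun k => ?_⟩
    induction k with
    | zero => simpa using div_nonneg hM h3.le
    | succ k ih =>
      have e : M / (ρ - 1) * ρ ^ (k + 1) = M / (ρ - 1) * ρ ^ k + M * ρ ^ k := by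
        field_simp
        ring
      have h4 := abs_sub_le (b (k + 1)) (b k) (b 0)
      rw [abs_sub_comm (b (k + 1)) (b k)] at h4
      linarith [h k]

theorem tele_real {a : ℝ → ℝ} {r K t : ℝ} (hr : r ≠ 0) (ht : 0 < t)
    (h : ∀ τ τ', 0 < τ → τ ≤ t → τ / 2 ≤ τ' → τ' ≤ τ → |a τ - a τ'| ≤ K * τ ^ r) :
    ∃ L K' : ℝ, ∀ τ, 0 < τ → τ ≤ t → |a τ - L| ≤ K' * τ ^ r := by
  have hρ1 : (1 / 2 : ℝ) ^ r ≠ 1 := by
    rcases lt_or_gt_of_ne hr with h1 | h1
    · exact (Real.one_lt_rpow_of_pos_of_lt_one_of_neg (by norm_num) (by norm_num) h1).ne'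
    · exact (Real.rpow_lt_one (by norm_num) (by norm_num) h1).ne
  have hw : ∀ k : ℕ, (t * (1 / 2) ^ k) ^ r = t ^ r * ((1 / 2) ^ r) ^ k := fun k => by
    rw [Real.mul_rpow ht.le (by positivity), ← Real.rpow_natCast, ← Real.rpow_natCast,
      ← Real.rpow_mul (by norm_num), ← Real.rpow_mul (by norm_num), mul_comm r]
  have hle : ∀ k : ℕ, t * (1 / 2) ^ k ≤ t := fun k =>
    mul_le_of_le_one_right ht.le (pow_le_one₀ (by norm_num) (by norm_num))
  obtain ⟨L, M, hL⟩ := tele_seq (b := fun k => a (t * (1 / 2) ^ k)) (M := K * t ^ r) hρ1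
    fun k => by
      have h1 : 0 < t * (1 / 2) ^ k := by positivity
      rw [mul_assoc K, ← hw]
      refine h _ _ h1 (hle k) ?_ ?_ <;> rw [pow_succ, ← mul_assoc] <;> linarith
  refine ⟨L, (|K| + |M / t ^ r|) * (2 ^ r + 1), fun τ h0 h1 => ?_⟩
  obtain ⟨k, k1, k2⟩ := exists_nat_pow_near_of_lt_one (div_pos h0 ht) ((div_le_one ht).2 h1)
    (by norm_num : (0 : ℝ) < 1 / 2) (by norm_num)
  rw [lt_div_iff₀ ht, pow_succ] at k1
  rw [div_le_iff₀ ht] at k2
  have h2 : 0 < t * (1 / 2) ^ k := by positivity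
  have h3 := h _ τ h2 (hle k) (by linarith) (by linarith)
  have htr : 0 < t ^ r := by positivity
  have h4 : |a (t * (1 / 2) ^ k) - L| ≤ M / t ^ r * (t * (1 / 2) ^ k) ^ r := by
    rw [hw, ← mul_assoc, div_mul_cancel₀ _ htr.ne']
    exact hL k
  have h5 : (t * (1 / 2) ^ k) ^ r ≤ (2 ^ r + 1) * τ ^ r := by
    have a1 : (0 : ℝ) < 2 ^ r * τ ^ r := by positivity
    have a2 : (0 : ℝ) < τ ^ r := by positivity
    rcases lt_or_gt_of_ne hr with h6 | h6
    · have := Real.rpow_le_rpow_of_nonpos h0 (by linarith : τ ≤ t * (1 / 2) ^ k) h6.le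
      linarith
    · have := Real.rpow_le_rpow h2.le (by linarith : t * (1 / 2) ^ k ≤ 2 * τ) h6.le
      rw [Real.mul_rpow two_pos.le h0.le] at this
      linarith
  have h6 : 0 < (t * (1 / 2) ^ k) ^ r := by positivity
  have h7 := abs_sub_le (a τ) (a (t * (1 / 2) ^ k)) L
  rw [abs_sub_comm (a τ) (a (t * (1 / 2) ^ k))] at h7
  have h8 := mul_le_mul_of_nonneg_right (le_abs_self K) h6.le
  have h9 := mul_le_mul_of_nonneg_right (le_abs_self (M / t ^ r)) h6.le
  have h10 := mul_le_mul_of_nonneg_left h5 (add_nonneg (abs_nonneg K) (abs_nonneg (M / t ^ r)))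
  rw [mul_assoc]
  linarith

theorem tele_ev {d : ℕ} {g : MvPolynomial (Fin d) ℝ} {F : Finset (Fin d →₀ ℕ)}
    (hF : g.support ⊆ F) {τ : ℝ} {η : E d} (hη : η ∈ ball (0 : E d) τ) :
    |ev g η| ≤ ∑ m ∈ F, |g.coeff m| * τ ^ m.degree := by
  rw [mem_ball_zero_iff] at hη
  have h0 : 0 ≤ τ := (norm_nonneg _).trans hη.le
  rw [ev, MvPolynomial.eval_eq']
  refine (Finset.abs_sum_le_sum_abs _ _).trans (le_trans (Finset.sum_le_sum fun m _ => ?_)
    (Finset.sum_le_sum_of_subset_of_nonneg hF fun m _ _ => by positivity))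
  rw [abs_mul, Finset.abs_prod, Finsupp.degree_eq_sum, ← Finset.prod_pow_eq_pow_sum]
  refine mul_le_mul_of_nonneg_left (Finset.prod_le_prod (fun i _ => abs_nonneg _) fun i _ => ?_)
    (abs_nonneg _)
  rw [abs_pow]
  exact pow_le_pow_left₀ (abs_nonneg _) ((PiLp.norm_apply_le η i).trans hη.le) _

theorem tele_half {d : ℕ} {f : E d → ℝ} {q : ℝ → MvPolynomial (Fin d) ℝ} {C s : ℝ} (hC : 0 ≤ C)
    (hs : 0 < s) (h : SmR 1 fun τ => {η | C * τ ^ s < |f η - ev (q τ) η|}) :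
    ∃ t : ℝ, 0 < t ∧ ∀ τ τ', 0 < τ → τ ≤ t → τ / 2 ≤ τ' → τ' ≤ τ →
      2 * volume ({η | 2 * C * τ ^ s < |ev (q τ - q τ') η|} ∩ ball 0 τ') ≤
        volume (ball (0 : E d) τ') := by
  obtain ⟨u, hu, h1⟩ := mem_nhdsGT_iff_exists_Ioc_subset.1
    (h.eventually_le (c' := 1 / 2) (κ := 1 / 4) (by norm_num) (by norm_num))
  refine ⟨u, hu, fun τ τ' t1 t2 t3 t4 => ?_⟩
  have t5 : 0 < τ' := by linarith
  have a1 := h1 ⟨t1, t2⟩
  have a2 := h1 ⟨t5, t4.trans t2⟩
  simp only [mem_ofPred_eq, one_mul] at a1 a2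
  have b1 := (measure_mono (inter_subset_inter_right _ (ball_subset_ball t4))).trans (a1.trans
    (mul_le_mul_right (measure_mono (ball_subset_ball (by linarith : 1 / 2 * τ ≤ τ'))) _))
  have b2 := a2.trans
    (mul_le_mul_right (measure_mono (ball_subset_ball (by linarith : 1 / 2 * τ' ≤ τ'))) _)
  have b3 : {η | 2 * C * τ ^ s < |ev (q τ - q τ') η|} ∩ ball (0 : E d) τ' ⊆
      ({η | C * τ ^ s < |f η - ev (q τ) η|} ∩ ball 0 τ') ∪
        ({η | C * τ' ^ s < |f η - ev (q τ') η|} ∩ ball 0 τ') := by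
    intro η hη
    rw [← union_inter_distrib_right]
    refine ⟨?_, hη.2⟩
    by_contra hn
    simp only [mem_union, mem_ofPred_eq, not_or, not_lt] at hn
    have c1 := hη.1
    simp only [mem_ofPred_eq, ev_sub] at c1
    have c2 := abs_sub_le (ev (q τ) η) (f η) (ev (q τ') η)
    rw [abs_sub_comm (ev (q τ) η) (f η)] at c2
    have c3 := mul_le_mul_of_nonneg_left (Real.rpow_le_rpow t5.le t4 hs.le) hC
    linarith [hn.1, hn.2]
  refine (mul_le_mul_right ((measure_mono b3).trans ((measure_union_le _ _).trans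
    (add_le_add b1 b2))) 2).trans (le_of_eq ?_)
  generalize volume (ball (0 : E d) τ') = V
  rw [← two_mul, ← mul_assoc, ← mul_assoc, ← ENNReal.ofReal_ofNat 2,
    ← ENNReal.ofReal_mul (by norm_num), ← ENNReal.ofReal_mul (by norm_num)]
  norm_num

theorem sTele (hP : SPoly) : STele := by
  classical
  rintro d f s hs hk ⟨D, p, hD, hN⟩
  obtain ⟨C₀, c, hC₀, hc, -, h0⟩ := hN.exists_pos fun τ => by positivity
  have h1 := h0.scale (inv_pos.2 hc)
  rw [mul_inv_cancel₀ hc.ne'] at h1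
  have hC : 0 ≤ C₀ * c⁻¹ ^ s := by positivity
  have h2 : SmR 1 fun τ => {η | C₀ * c⁻¹ ^ s * τ ^ s < |f η - ev (p (c⁻¹ * τ)) η|} :=
    h1.mono (ev_pos.mono fun τ hτ z _ hz => by
      simp only [mem_ofPred_eq] at hz ⊢
      rwa [abs_of_pos (mul_pos (inv_pos.2 hc) hτ), Real.mul_rpow (inv_pos.2 hc).le hτ.le,
        ← mul_assoc])
  generalize C₀ * c⁻¹ ^ s = C at hC h2
  have hq : ∀ τ, (p (c⁻¹ * τ)).totalDegree ≤ D := fun τ => hD _
  obtain ⟨t, ht, h3⟩ := tele_half (q := fun τ => p (c⁻¹ * τ)) hC hs h2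
  generalize hqq : (fun τ => p (c⁻¹ * τ)) = q at h3
  have e : ∀ τ, p (c⁻¹ * τ) = q τ := fun τ => congrFun hqq τ
  simp only [e] at h2 hq h3
  obtain ⟨K, hK⟩ := hP d D
  have h4 : ∀ m : Fin d →₀ ℕ, ∃ L K' : ℝ, ∀ τ, 0 < τ → τ ≤ t →
      |(q τ).coeff m - L| ≤ K' * τ ^ (s - m.degree) := fun m => by
    refine tele_real (K := |K| * (2 * C) * 2 ^ m.degree) (sub_ne_zero.2 (hk _)) ht
      fun τ τ' t1 t2 t3 t4 => ?_
    have a1 := hK (q τ - q τ') τ' _ ((MvPolynomial.totalDegree_sub _ _).trans (max_le (hq _) (hq _)))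
      (by linarith) (by positivity) (h3 τ τ' t1 t2 t3 t4) m
    rw [MvPolynomial.coeff_sub] at a1
    have a2 : τ ^ m.degree ≤ 2 ^ m.degree * τ' ^ m.degree := by
      rw [← mul_pow]
      exact pow_le_pow_left₀ t1.le (by linarith) _
    rw [Real.rpow_sub t1, Real.rpow_natCast, ← mul_div_assoc, le_div_iff₀ (by positivity)]
    have a3 := mul_le_mul_of_nonneg_left a2 (abs_nonneg ((q τ).coeff m - (q τ').coeff m))
    have a4 : K * (2 * C * τ ^ s) ≤ |K| * (2 * C * τ ^ s) :=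
      mul_le_mul_of_nonneg_right (le_abs_self K) (by positivity)
    have a5 := mul_le_mul_of_nonneg_left (a1.trans a4) (by positivity : (0 : ℝ) ≤ 2 ^ m.degree)
    linarith
  choose L K' h5 using h4
  set F := (Finsupp.finite_of_degree_le (σ := Fin d) D).toFinset with hF
  have hc' : ∀ m, (∑ m' ∈ F, MvPolynomial.monomial m' (L m')).coeff m = if m ∈ F then L m else 0 :=
    fun m => by simp only [MvPolynomial.coeff_sum, MvPolynomial.coeff_monomial, Finset.sum_ite_eq']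
  refine ⟨∑ m' ∈ F, MvPolynomial.monomial m' (L m'), C + ∑ m ∈ F, K' m, small_iff.2 (h2.mono ?_)⟩
  generalize ∑ m' ∈ F, MvPolynomial.monomial m' (L m') = T at hc'
  filter_upwards [ev_pos, ev_lt ht] with τ t1 t2 η hη hz
  rw [one_mul] at hη
  have a1 : (q τ - T).support ⊆ F := fun m hm => by
    by_contra hn
    have a2 : m ∉ (q τ).support := fun h => hn (by
      have := (MvPolynomial.le_totalDegree h).trans (hq τ)
      simpa [hF, Finsupp.degree_apply, Finsupp.sum] using this)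
    rw [MvPolynomial.mem_support_iff, MvPolynomial.coeff_sub, hc', if_neg hn,
      MvPolynomial.notMem_support_iff.1 a2, sub_zero] at hm
    exact hm rfl
  have a2 : |ev (q τ - T) η| ≤ (∑ m ∈ F, K' m) * τ ^ s := by
    rw [Finset.sum_mul]
    refine (tele_ev a1 hη).trans (Finset.sum_le_sum fun m hm => ?_)
    have a3 := h5 m τ t1 t2.le
    rw [Real.rpow_sub t1, Real.rpow_natCast, ← mul_div_assoc, le_div_iff₀ (by positivity)] at a3
    rwa [MvPolynomial.coeff_sub, hc', if_pos hm]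
  rw [ev_sub] at a2
  have a4 := abs_sub_le (f η) (ev (q τ) η) (ev T η)
  rw [add_mul] at hz
  linarith

end Pool.Agent.MP_66cee2_co.X
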