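import Pool.Agent.MP_66cee2_co.X.BasicJ

/-
The choice of the line field.
-/

namespace Pool.Agent.MP_66cee2_co.X

open MeasureTheory Set Filter Metric Topology

variable {d n : ℕ}

theorem u_smul_left (r : ℝ) (a b : Ix n → ℝ) : lz (r • a) b = r * lz a b := by
  simp only [lz, smul_dotProduct, smul_eq_mul]

theorem u_span_left {A : Ix n → Ix n → ℝ} {v w : Ix n → ℝ} (h : ∀ j, lz (A j) w = 0)
    (hv : v ∈ Submodule.span ℝ (range A)) : lz v w = 0 := by
  induction hv using Submodule.span_induction with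
  | mem _ hx => obtain ⟨j, rfl⟩ := hx; exact h j
  | zero => exact zero_dotProduct _
  | add x y _ _ hx hy => exact (add_dotProduct _ _ _).trans (by rw [← lz, ← lz, hx, hy, add_zero])
  | smul r x _ hx => rw [u_smul_left, hx, mul_zero]

theorem u_span {A B : Ix n → Ix n → ℝ} {v w : Ix n → ℝ} (h : ∀ j k, lz (A j) (B k) = 0)
    (hv : v ∈ Submodule.span ℝ (range A)) (hw : w ∈ Submodule.span ℝ (range B)) : lz v w = 0 :=
  u_span_left (fun j => (lz_comm _ _).trans
    (u_span_left (fun k => (lz_comm _ _).trans (h j k)) hw)) hv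

/-- the candidates. -/
noncomputable def uF (A : Ix n → Ix n → ℝ) : Option (Ix n × Option (Ix n)) → Ix n → ℝ
  | none => Pi.single sI 1
  | some (j, none) => A j
  | some (j, some j') => A j sI • A j' - A j' sI • A j

/-- when a candidate is allowed. -/
def uOk (J : Finset (Ix n)) (A : Ix n → Ix n → ℝ) : Option (Ix n × Option (Ix n)) → Prop
  | none => J = ∅
  | some (j, none) => J = {j} ∨ A j sI = 0
  | some (_, some _) => True

theorem u_exists (J : Finset (Ix n)) (A : Ix n → Ix n → ℝ)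
    (h : ∀ j, ∀ a ∈ J, A j a = if a = j then 1 else 0) : ∃ k, uOk J A k ∧ uF A k ≠ 0 := by
  rcases J.eq_empty_or_nonempty with h0 | ⟨j, hj⟩
  · exact ⟨none, h0, fun e => by simpa [uF] using congrFun e sI⟩
  by_cases h1 : J = {j} ∨ A j sI = 0
  · exact ⟨some (j, none), h1, fun e => by simpa [uF, h j j hj] using congrFun e j⟩
  push Not at h1
  obtain ⟨j', hj', hne⟩ : ∃ j' ∈ J, j' ≠ j := by
    by_contra h2
    push Not at h2
    exact h1.1 (Finset.eq_singleton_iff_unique_mem.2 ⟨hj, h2⟩)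
  refine ⟨some (j, some j'), trivial, fun e => h1.2 ?_⟩
  simpa [uF, h j' j' hj', h j j' hj', hne] using congrFun e j'

theorem u_mem {J : Finset (Ix n)} {A : Ix n → Ix n → ℝ} (hJ : J ≠ ∅) :
    ∀ k, uOk J A k → uF A k ∈ Submodule.span ℝ (range A)
  | none, h => absurd h hJ
  | some (j, none), _ => Submodule.subset_span ⟨j, rfl⟩
  | some (j, some j'), _ => sub_mem (Submodule.smul_mem _ _ (Submodule.subset_span ⟨j', rfl⟩))
      (Submodule.smul_mem _ _ (Submodule.subset_span ⟨j, rfl⟩))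

theorem u_measF {A : E d → Ix n → Ix n → ℝ} (h : ∀ j a, Measurable fun x => A x j a) :
    ∀ k a, Measurable fun x => uF (A x) k a
  | none, _ => measurable_const
  | some (j, none), a => h j a
  | some (j, some j'), a => ((h j sI).mul (h j' a)).sub ((h j' sI).mul (h j a))

theorem u_measOk {J : E d → Finset (Ix n)} {A : E d → Ix n → Ix n → ℝ}
    (hJ : ∀ S, MeasurableSet {x | J x = S}) (h : ∀ j a, Measurable fun x => A x j a) :
    ∀ k, MeasurableSet {x | uOk (J x) (A x) k}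
  | none => hJ ∅
  | some (j, none) => (hJ {j}).union (measurableSet_eq_fun (h j sI) measurable_const)
  | some (_, some _) => MeasurableSet.univ

theorem u_rat (hJ : SJet) {A : E d → Ix n → Ix n → ℝ} (h : ∀ j, RatJet fun η => A η j) :
    ∀ k, RatJet fun η => uF (A η) k
  | none => ⟨fun a => MvPowerSeries.C ((Pi.single sI 1 : Ix n → ℝ) a), 1,
      fun a => MvPolynomial.C ((Pi.single sI 1 : Ix n → ℝ) a), one_ne_zero,
      fun a => ⟨hJ.const d _, by simp⟩⟩
  | some (j, none) => h j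
  | some (j, some j') => by
    obtain ⟨φ, q, p, hq, H⟩ := h j
    obtain ⟨φ', q', p', hq', H'⟩ := h j'
    refine ⟨fun a => φ sI * φ' a - φ' sI * φ a, q * q', fun a => p sI * p' a - p' sI * p a,
      mul_ne_zero hq hq', fun a => ⟨hJ.sub d _ _ _ _ (hJ.mul d _ _ _ _ (H sI).1 (H' a).1)
        (hJ.mul d _ _ _ _ (H' sI).1 (H a).1), ?_⟩⟩
    refine Eq.trans ?_ (map_sub MvPolynomial.coeToMvPowerSeries.ringHom _ _).symm
    simp only [MvPolynomial.coeToMvPowerSeries.ringHom_apply, MvPolynomial.coe_mul, ← (H _).2,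
      ← (H' _).2]
    ring

theorem u_type {P : Matrix (Ix n) (Ix n) ℝ} {J : Finset (Ix n)} {A : Ix n → Ix n → ℝ}
    (hP : P.PosSemidef ∧ 0 < P sI sI ∧ trJ P = P sI sI) (hs : ∀ a, P a = ∑ j ∈ J, P a j • A j)
    (hJ : J ≠ ∅) : ∀ k, uOk J A k →
      uF A k sI = 0 ∨ (uF A k sI ≠ 0 ∧ lz (uF A k) (uF A k) = uF A k sI ^ 2)
  | none, h => absurd h hJ
  | some (j, some j'), _ => Or.inl (by simp [uF, mul_comm])
  | some (j, none), Or.inr h => Or.inl h
  | some (j, none), Or.inl h => by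
    subst h
    simp only [Finset.sum_singleton] at hs
    have h1 : ∀ a, P a j = P j j * A j a := fun a => by
      have := hP.1.1.apply j a
      rw [star_trivial] at this
      rw [this]
      exact congrFun (hs j) a
    have h2 : trJ P = P j j * lz (A j) (A j) := by
      rw [trJ, lz, dotProduct, Finset.mul_sum]
      refine Finset.sum_congr rfl fun a _ => ?_
      rw [hs a, h1 a]
      rcases a with i | b <;> simp only [Jv, Pi.smul_apply, smul_eq_mul] <;> ring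
    have h3 : P sI sI = P j j * A j sI ^ 2 := by
      rw [congrFun (hs sI) sI, h1 sI, Pi.smul_apply, smul_eq_mul]
      ring
    have h4 := hP.2.1.ne'
    rw [h3] at h4
    refine Or.inr ⟨fun e => right_ne_zero_of_mul h4 (by rw [show A j sI = 0 from e]; ring), ?_⟩
    exact mul_left_cancel₀ (left_ne_zero_of_mul h4) (h2.symm.trans (hP.2.2.trans h3))

theorem u_jet (hJ : SJet) {g : E d → Ix n → ℝ} {r : E d → ℝ} {c : ℝ} (hg : RatJet g)
    {v : Ix n → ℝ} (hv : v ≠ 0) (ha : ∀ a, ApC (fun η => g η a) (v a))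
    (hr : Small fun _ => {η | c < |r η|}) :
    ∃ Q : Ix n → MvPolynomial (Fin d) ℝ, Q ≠ 0 ∧ ∀ K : ℕ, ∃ C : ℝ, Small fun τ => {η | ∃ a b,
      C * τ ^ K < |ev (Q a) η * (r η • g η) b - ev (Q b) η * (r η • g η) a|} := by
  obtain ⟨φ, q, p, hq, H⟩ := hg
  refine ⟨p, fun e => hv (funext fun a => ?_), fun K => ?_⟩
  · have h1 := (H a).2
    rw [e, Pi.zero_apply, MvPolynomial.coe_zero, mul_eq_zero, MvPolynomial.coe_eq_zero_iff] at h1
    rw [← hJ.jval d _ _ _ (H a).1 (ha a), h1.resolve_left hq, map_zero, Pi.zero_apply]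
  have h0 : ∀ z : Ix n × Ix n, ∃ C : ℝ, Small fun τ =>
      {η | C * τ ^ K < |ev (p z.1) η * g η z.2 - ev (p z.2) η * g η z.1|} := fun z => by
    refine hJ.zero d _ ?_ K
    have := hJ.sub d _ _ _ _ (hJ.mul d _ _ _ _ (hJ.poly d (p z.1)) (H z.2).1)
      (hJ.mul d _ _ _ _ (hJ.poly d (p z.2)) (H z.1).1)
    rwa [← (H _).2, ← (H _).2, mul_right_comm, sub_self] at this
  choose C hC using h0
  obtain ⟨C', hC'⟩ := Finite.exists_le C
  refine ⟨c * C', small_iff.2 (((smR_exists fun z => small_iff.1 (hC z)).union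
    (small_iff.1 hr)).mono (ev_pos.mono fun τ hτ η _ ⟨a, b, hη⟩ => ?_))⟩
  by_contra hn
  simp only [mem_union, mem_ofPred_eq, not_or, not_exists, not_lt] at hn
  have h1 := (hn.1 (a, b)).trans (mul_le_mul_of_nonneg_right (hC' (a, b)) (pow_pos hτ K).le)
  have e : ev (p a) η * (r η • g η) b - ev (p b) η * (r η • g η) a =
      r η * (ev (p a) η * g η b - ev (p b) η * g η a) := by
    simp only [Pi.smul_apply, smul_eq_mul]
    ring
  rw [e, abs_mul, mul_assoc] at hη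
  exact absurd (mul_le_mul hn.2 h1 (abs_nonneg _) ((abs_nonneg _).trans hn.2)) (not_le.2 hη)

theorem sU (hS : SSig) (hA : SApp) (hJ : SJet) : SU := by
  classical
  intro d n P JA JB A B hd hP hG hR
  have mA : ∀ j a, Measurable fun x => A x j a := fun j => (hG.dA j).mξ
  have mD : ∀ k, Measurable fun x => uF (A x) k ⬝ᵥ uF (A x) k := fun k =>
    Finset.measurable_sum _ fun a _ => (u_measF mA k a).mul (u_measF mA k a)
  obtain ⟨e, he⟩ := exists_surjective_nat (Option (Ix n × Option (Ix n)) × ℕ)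
  have hex : ∀ x, ∃ m, uOk (JA x) (A x) (e m).1 ∧
      1 / ((e m).2 + 1 : ℝ) ≤ uF (A x) (e m).1 ⬝ᵥ uF (A x) (e m).1 := fun x => by
    obtain ⟨k, h1, h2⟩ := u_exists (JA x) (A x) (hG.nrm x)
    obtain ⟨i, hi⟩ := exists_nat_one_div_lt (lt_of_le_of_ne
      (Finset.sum_nonneg fun a _ => mul_self_nonneg (uF (A x) k a))
      fun h => h2 (dotProduct_self_eq_zero.1 h.symm))
    obtain ⟨m, hm⟩ := he (k, i)
    exact ⟨m, by rw [hm]; exact ⟨h1, hi.le⟩⟩
  have mp : ∀ m, MeasurableSet {x | uOk (JA x) (A x) (e m).1 ∧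
      1 / ((e m).2 + 1 : ℝ) ≤ uF (A x) (e m).1 ⬝ᵥ uF (A x) (e m).1} := fun m =>
    (u_measOk (hG.dA sI).mJ mA _).inter (measurableSet_le measurable_const (mD _))
  obtain ⟨N, hN⟩ : ∃ N : E d → ℕ, N = fun x => Nat.find (hex x) := ⟨_, rfl⟩
  have mN : Measurable N := hN ▸ measurable_find hex mp
  have sN : ∀ x, uOk (JA x) (A x) (e (N x)).1 ∧ 1 / ((e (N x)).2 + 1 : ℝ) ≤
      uF (A x) (e (N x)).1 ⬝ᵥ uF (A x) (e (N x)).1 := fun x => hN ▸ Nat.find_spec (hex x)
  obtain ⟨w, hw⟩ : ∃ w : E d → Ix n → ℝ, w = fun x => uF (A x) (e (N x)).1 := ⟨_, rfl⟩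
  have mw : ∀ a, Measurable fun x => w x a := fun a => by
    rw [hw, hN]
    exact Measurable.find (f := fun m x => uF (A x) (e m).1 a) (fun m => u_measF mA _ a) mp hex
  have hww : ∀ x, 1 / ((e (N x)).2 + 1 : ℝ) ≤ w x ⬝ᵥ w x := fun x => hw ▸ (sN x).2
  have pw : ∀ x, 0 < w x ⬝ᵥ w x := fun x => lt_of_lt_of_le (by positivity) (hww x)
  have pr : ∀ x, 0 < (√(w x ⬝ᵥ w x))⁻¹ := fun x => inv_pos.2 (Real.sqrt_pos.2 (pw x))
  have unit : ∀ x, ((√(w x ⬝ᵥ w x))⁻¹ • w x) ⬝ᵥ ((√(w x ⬝ᵥ w x))⁻¹ • w x) = 1 := fun x => by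
    rw [smul_dotProduct, dotProduct_smul, smul_eq_mul, smul_eq_mul, ← mul_assoc, ← mul_inv,
      Real.mul_self_sqrt (pw x).le, inv_mul_cancel₀ (pw x).ne']
  have good : ∀ᵐ x, JA x ≠ ∅ ∧ 0 < P x sI sI ∧ (∀ a, P x a ∈ Submodule.span ℝ (range (A x))) ∧
      (√(w x ⬝ᵥ w x))⁻¹ • w x ∈ Submodule.span ℝ (range (A x)) := by
    filter_upwards [hP.pos, hG.span] with x h1 h2
    have h3 : JA x ≠ ∅ := fun h => by
      have := congrFun (h2 sI) sI
      rw [h, Finset.sum_empty] at this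
      exact h1.2.1.ne' this
    refine ⟨h3, h1.2.1, fun a => ?_, Submodule.smul_mem _ _ (hw ▸ u_mem h3 _ (sN x).1)⟩
    rw [h2 a]
    exact sum_mem fun j _ => Submodule.smul_mem _ _ (Submodule.subset_span ⟨j, rfl⟩)
  have pin : AePair fun x y => ∀ a, lz (P x a) ((√(w y ⬝ᵥ w y))⁻¹ • w y) = 0 ∧
      lz ((√(w x ⬝ᵥ w x))⁻¹ • w x) (P y a) = 0 := by
    filter_upwards [good, hS.right d _ good, hG.orth] with x h1 h2 h3
    filter_upwards [h2, h3] with ω h4 h5 a
    exact ⟨u_span h5 (h1.2.2.1 a) h4.2.2.2, u_span h5 h1.2.2.2 (h4.2.2.1 a)⟩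
  refine ⟨fun x => (√(w x ⬝ᵥ w x))⁻¹ • w x, measurable_pi_lambda _ fun a => ?_, unit, ?_, pin,
    ?_, ?_⟩
  · exact (Finset.measurable_sum _ fun b _ => (mw b).mul (mw b)).sqrt.inv.mul (mw a)
  · filter_upwards [good, hS.right d _ good, hG.orth] with x h1 h2 h3
    filter_upwards [h2, h3] with ω h4 h5
    exact u_span h5 h1.2.2.2 h4.2.2.2
  · filter_upwards [good, hS.right d _ good, pin, hP.pos, hG.span] with x h1 h2 h3 h4 h5
    have h6 : w x sI = 0 ∨ (w x sI ≠ 0 ∧ lz (w x) (w x) = w x sI ^ 2) :=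
      hw ▸ u_type h4 h5 h1.1 _ (sN x).1
    rcases h6 with h6 | ⟨h6, h7⟩
    · have h7 : ((√(w x ⬝ᵥ w x))⁻¹ • w x) sI = 0 := by rw [Pi.smul_apply, h6, smul_zero]
      refine Or.inl ⟨h7, ?_⟩
      by_contra h8
      push Not at h8
      have := ae_neBot.2 (hS.ne d hd)
      obtain ⟨ω, h9, h10⟩ := (h2.and h3).exists
      have h11 := (h10 sI).2
      have h12 := unit x
      generalize (√(w x ⬝ᵥ w x))⁻¹ • w x = v at h7 h8 h11 h12
      rw [lz_eq] at h11
      simp only [h7, h8, zero_mul, Finset.sum_const_zero, mul_zero, zero_add] at h11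
      simp [dotProduct, h7, h8, (mul_eq_zero.1 h11).resolve_right h9.2.1.ne'] at h12
    · refine Or.inr ⟨mul_ne_zero (pr x).ne' h6, ?_⟩
      rw [u_smul_left, lz_comm, u_smul_left, h7, Pi.smul_apply, smul_eq_mul]
      ring
  · filter_upwards [ae_all_iff.2 fun m => hA.dens d _ (mN (measurableSet_singleton m)),
      ae_all_iff.2 hR, ae_all_iff.2 fun a => hA.apc d _ (mw a)] with x h1 h2 h3
    have h4 := small_iff.1 (h1 (N x) rfl)
    obtain ⟨φ, q, p, hq, H⟩ := u_rat hJ (A := fun η => A (x + η)) h2 (e (N x)).1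
    refine u_jet hJ (g := fun η => w (x + η)) (r := fun η => (√(w (x + η) ⬝ᵥ w (x + η)))⁻¹)
      (c := (√(1 / ((e (N x)).2 + 1 : ℝ)))⁻¹) (v := w x) ⟨φ, q, p, hq, fun a =>
        ⟨hJ.congr d _ _ _ (small_iff.2 (h4.mono' fun _ η hη h => hη ?_)) (H a).1, (H a).2⟩⟩
      (fun h => (pw x).ne' (by rw [h, zero_dotProduct])) h3
      (small_iff.2 (h4.mono' fun _ η hη h => not_le.2 (Set.mem_ofPred_eq ▸ hη :) ?_))
    · rw [hw]
      exact congrArg (fun m => uF (A (x + η)) (e m).1 a) (h : N (x + η) = N x).symm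
    · rw [abs_of_pos (pr _), ← (h : N (x + η) = N x)]
      exact inv_anti₀ (by positivity) (Real.sqrt_le_sqrt (hww _))

end Pool.Agent.MP_66cee2_co.X
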