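import Pool.Agent.MP_66cee2_co.X.SpecJ

/-! The theorem of Whitney on a ball from the theorem on an interval. -/

namespace Pool.Agent.MP_66cee2_co.X

open MeasureTheory Set Filter Metric Topology
open scoped ENNReal RealInnerProductSpace

theorem wh_deg {σ : Type} (q : MvPolynomial σ ℝ) (hq : q.totalDegree ≤ 1) (l : Polynomial ℝ) :
    (Polynomial.aeval q l).totalDegree ≤ l.natDegree := by
  rw [Polynomial.aeval_eq_sum_range]
  refine MvPolynomial.totalDegree_finsetSum_le fun k hk => ?_
  refine (MvPolynomial.totalDegree_smul_le _ _).trans ((MvPolynomial.totalDegree_pow _ _).trans ?_)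
  have := Finset.mem_range.1 hk
  nlinarith

theorem wh_cube {d M : ℕ} (a : Fin M → ℝ) (l : Fin M → Polynomial ℝ)
    (ha : ∀ j, a j ∈ Icc (0 : ℝ) 1) (s : Finset (Fin d)) :
    ∃ (C : ℝ) (D : ℕ), ∀ (g : (Fin d → ℝ) → ℝ) (r ε : ℝ), 0 < r →
      (∀ z z', (∀ i ∈ s, z i = z' i) → g z = g z') →
      (∀ i ∈ s, ∀ z : Fin d → ℝ, (∀ k, |z k| ≤ r) → ∀ x ∈ Icc (0 : ℝ) 1,
        |g (Function.update z i (-r + 2 * r * x)) -
          ∑ j, (l j).eval x * g (Function.update z i (-r + 2 * r * a j))| ≤ ε) →
      ∃ p : MvPolynomial (Fin d) ℝ, p.totalDegree ≤ D ∧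
        ∀ z : Fin d → ℝ, (∀ k, |z k| ≤ r) → |g z - MvPolynomial.eval z p| ≤ C * ε := by
  classical
  have hB : ∀ j, ∃ B : ℝ, ∀ x ∈ Icc (0 : ℝ) 1, ‖(l j).eval x‖ ≤ B := fun j =>
    isCompact_Icc.exists_bound_of_continuousOn (l j).continuous.continuousOn
  choose B hB using hB
  induction s using Finset.induction_on with
  | empty =>
    refine ⟨0, 0, fun g r ε _ hg _ => ⟨MvPolynomial.C (g 0), by simp, fun z _ => ?_⟩⟩
    simp [hg z 0 (by simp)]
  | insert i s hi ih =>
    obtain ⟨C, D, ih⟩ := ih
    refine ⟨1 + (∑ j, B j) * C, (∑ j, (l j).natDegree) + D, fun g r ε hr hg hd => ?_⟩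
    have hup : ∀ (z : Fin d → ℝ) (x : ℝ), (∀ k, |z k| ≤ r) → x ∈ Icc (0 : ℝ) 1 →
        ∀ k, |Function.update z i (-r + 2 * r * x) k| ≤ r := by
      intro z x hz hx k
      by_cases hk : k = i
      · subst hk
        rw [Function.update_self, abs_le]
        constructor <;> nlinarith [hx.1, hx.2]
      · rw [Function.update_of_ne hk]; exact hz k
    have hp := fun j => ih (fun z => g (Function.update z i (-r + 2 * r * a j))) r ε hr
      (fun z z' hz => hg _ _ fun k hk => by
        by_cases hki : k = i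
        · subst hki; simp
        · rw [Function.update_of_ne hki, Function.update_of_ne hki]
          exact hz k ((Finset.mem_insert.1 hk).resolve_left hki))
      (fun i' hi' z hz x hx => by
        have hne : i' ≠ i := fun e => hi (e ▸ hi')
        simp only [Function.update_comm hne]
        exact hd i' (Finset.mem_insert_of_mem hi') _ (hup z _ hz (ha j)) x hx)
    choose p hpD hp using hp
    let q : MvPolynomial (Fin d) ℝ :=
      MvPolynomial.C (2 * r)⁻¹ * MvPolynomial.X i + MvPolynomial.C (1 / 2)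
    have hq : q.totalDegree ≤ 1 := by
      refine (MvPolynomial.totalDegree_add _ _).trans (max_le ?_ (by rw [MvPolynomial.totalDegree_C]; norm_num))
      refine (MvPolynomial.totalDegree_mul _ _).trans ?_
      rw [MvPolynomial.totalDegree_C, MvPolynomial.totalDegree_X]
    refine ⟨∑ j, Polynomial.aeval q (l j) * p j, ?_, fun z hz => ?_⟩
    · refine MvPolynomial.totalDegree_finsetSum_le fun j _ => ?_
      refine (MvPolynomial.totalDegree_mul _ _).trans (add_le_add ((wh_deg q hq _).trans ?_) (hpD j))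
      exact Finset.single_le_sum (f := fun j => (l j).natDegree) (fun _ _ => Nat.zero_le _)
        (Finset.mem_univ j)
    · set x : ℝ := (2 * r)⁻¹ * z i + 1 / 2 with hxd
      have hzx : -r + 2 * r * x = z i := by rw [hxd]; field_simp; ring
      have hx : x ∈ Icc (0 : ℝ) 1 := by
        have := abs_le.1 (hz i)
        constructor <;> nlinarith [this.1, this.2]
      have h1 := hd i (Finset.mem_insert_self _ _) z hz x hx
      rw [hzx, Function.update_eq_self] at h1
      have hev : ∀ j, MvPolynomial.eval z (Polynomial.aeval q (l j)) = (l j).eval x := by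
        intro j
        have e := Polynomial.aeval_algHom_apply (MvPolynomial.aeval (R := ℝ) z) q (l j)
        simp only [MvPolynomial.aeval_eq_eval] at e
        rw [← e, Polynomial.coe_aeval_eq_eval]
        simp [q, hxd]
      have h2 : |∑ j, (l j).eval x * (g (Function.update z i (-r + 2 * r * a j)) -
          MvPolynomial.eval z (p j))| ≤ ∑ j, B j * (C * ε) := by
        refine (Finset.abs_sum_le_sum_abs _ _).trans (Finset.sum_le_sum fun j _ => ?_)
        rw [abs_mul]
        exact mul_le_mul (hB j x hx) (hp j z hz) (abs_nonneg _) ((norm_nonneg _).trans (hB j x hx))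
      rw [← Finset.sum_mul] at h2
      simp only [map_sum, map_mul, hev]
      simp only [mul_sub, Finset.sum_sub_distrib] at h2
      have := abs_sub_le (g z)
        (∑ j, (l j).eval x * g (Function.update z i (-r + 2 * r * a j)))
        (∑ j, (l j).eval x * MvPolynomial.eval z (p j))
      linarith

theorem wh_ball {d : ℕ} {τ : ℝ} (hτ : 0 < τ) (η : E d) (h : ∀ k, |η k| ≤ τ / (d + 1)) :
    η ∈ ball (0 : E d) τ := by
  rw [mem_ball_zero_iff]
  refine lt_of_pow_lt_pow_left₀ 2 hτ.le ?_
  rw [EuclideanSpace.real_norm_sq_eq]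
  have h1 : ∑ k, η k ^ 2 ≤ ∑ _k : Fin d, (τ / (d + 1)) ^ 2 :=
    Finset.sum_le_sum fun k _ => sq_le_sq' (abs_le.1 (h k)).1 (abs_le.1 (h k)).2
  refine h1.trans_lt ?_
  have hd : (0 : ℝ) ≤ d := Nat.cast_nonneg d
  simp only [Finset.sum_const, Finset.card_univ, Fintype.card_fin, nsmul_eq_mul]
  rw [div_pow, ← mul_div_assoc, div_lt_iff₀ (by positivity)]
  have : 0 < τ ^ 2 := by positivity
  nlinarith [mul_nonneg hd hd]

theorem sWh (h : SWh1) : SWh := by
  intro d M hM
  obtain ⟨C₁, a, l, ha, h⟩ := h M hM
  obtain ⟨C, D, hC⟩ := wh_cube (d := d) a l ha Finset.univ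
  have hd : (0 : ℝ) ≤ d := Nat.cast_nonneg d
  refine ⟨C * C₁, 1 / (d + 1), D, by positivity, ?_, fun g τ ε hτ hS hΔ => ?_⟩
  · rw [div_le_one (by positivity)]; linarith
  set r : ℝ := τ / (d + 1) with hr
  have hr0 : 0 < r := by positivity
  have hin : ∀ (i : Fin d) (z : Fin d → ℝ) (x : ℝ), (∀ k, |z k| ≤ r) → x ∈ Icc (0 : ℝ) 1 →
      (WithLp.toLp 2 (Function.update z i (-r + 2 * r * x)) : E d) ∈ ball (0 : E d) τ := by
    intro i z x hz hx
    refine wh_ball hτ _ fun k => ?_
    by_cases hk : k = i
    · subst hk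
      simp only [Function.update_self]
      rw [abs_le, ← hr]
      constructor <;> nlinarith [hx.1, hx.2]
    · simp only [Function.update_of_ne hk]; exact hz k
  obtain ⟨p, hpD, hp⟩ := hC (fun z => g (WithLp.toLp 2 z)) r (C₁ * ε) hr0
    (fun z z' hz => by rw [show z = z' from funext fun i => hz i (Finset.mem_univ i)])
    (fun i _ z hz => by
      refine h (fun t => g (WithLp.toLp 2 (Function.update z i (-r + 2 * r * t)))) ε ?_ ?_
      · obtain ⟨S, hS⟩ := hS
        exact ⟨S, fun x hx => hS _ (hin i z x hz hx)⟩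
      · intro x t hx hx'
        have e : ∀ k : ℕ, (WithLp.toLp 2 (Function.update z i (-r + 2 * r * x)) : E d) +
            k • (WithLp.toLp 2 (Pi.single i (2 * r * t)) : E d) =
            WithLp.toLp 2 (Function.update z i (-r + 2 * r * (x + k • t))) := by
          intro k
          ext m
          by_cases hm : m = i
          · subst hm; simp; ring
          · simp [hm]
        have := hΔ (WithLp.toLp 2 (Function.update z i (-r + 2 * r * x)))
          (WithLp.toLp 2 (Pi.single i (2 * r * t))) fun k hk => by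
            rw [e]
            refine hin i z _ hz ?_
            have hk' : (k : ℝ) ≤ M := by exact_mod_cast hk
            have hk0 : (0 : ℝ) ≤ k := Nat.cast_nonneg k
            rw [nsmul_eq_mul]
            rcases le_total 0 t with ht | ht
            · constructor <;> nlinarith [hx.1, hx.2, hx'.1, hx'.2]
            · constructor <;> nlinarith [hx.1, hx.2, hx'.1, hx'.2]
        rw [fwdDiff_iter_eq_sum_shift] at this ⊢
        simpa only [e] using this)
  refine ⟨p, hpD, fun η hη => ?_⟩
  have := hp (fun i => η i) fun k => by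
    have h1 : ‖η k‖ ≤ ‖η‖ := PiLp.norm_apply_le η k
    rw [mem_ball_zero_iff] at hη
    rw [hr]
    have : 1 / ((d : ℝ) + 1) * τ = τ / (d + 1) := by ring
    rw [Real.norm_eq_abs] at h1
    linarith
  rw [mul_assoc]
  exact this

end Pool.Agent.MP_66cee2_co.X
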