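import Pool.Agent.MP_66cee2_co.X.SpecJ

/-
The theorem of Whitney for bounded functions on an interval.
-/

namespace Pool.Agent.MP_66cee2_co.X

open Set

theorem wh1_tel (g : ℝ → ℝ) (x h : ℝ) (i : ℕ) {b : ℝ}
    (hb : ∀ j < i, |fwdDiff h g (x + j * h)| ≤ b) : |g (x + i * h) - g x| ≤ i * b := by
  induction i with
  | zero => simp
  | succ i ih =>
    have h1 := ih fun j hj => hb j (by omega)
    have h2 := hb i (by omega)
    have e : x + ((i + 1 : ℕ) : ℝ) * h = x + i * h + h := by push_cast; ring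
    rw [fwdDiff] at h2
    rw [e]
    have h3 := abs_sub_le (g (x + i * h + h)) (g (x + i * h)) (g x)
    push_cast
    linarith

theorem wh1_avg (g : ℝ → ℝ) (x h c : ℝ) (i : ℕ) {b : ℝ}
    (hb : ∀ j < i, |fwdDiff h g (x + j * h) - c| ≤ b) :
    |g (x + i * h) - g x - i * c| ≤ i * b := by
  induction i with
  | zero => simp
  | succ i ih =>
    have h1 := ih fun j hj => hb j (by omega)
    have h2 := hb i (by omega)
    have e : x + ((i + 1 : ℕ) : ℝ) * h = x + i * h + h := by push_cast; ring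
    rw [fwdDiff] at h2
    rw [e]
    rw [abs_le] at h1 h2 ⊢
    push_cast
    constructor <;> linarith [h1.1, h1.2, h2.1, h2.2]

/-- discrete interpolation inequality for the first difference. -/
theorem wh1_lk (M : ℕ) : ∀ θ : ℝ, 0 < θ → ∃ (N : ℕ) (A : ℝ), ∀ (g : ℝ → ℝ) (x h K ε : ℝ),
    (∀ i ≤ N + M + 1, |g (x + i * h)| ≤ K) →
    (∀ i ≤ N, |(fwdDiff h)^[M + 1] g (x + i * h)| ≤ ε) → |fwdDiff h g x| ≤ A * ε + θ * K := by
  induction M with
  | zero =>
    intro θ hθ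
    refine ⟨0, 1, fun g x h K ε h1 h2 => ?_⟩
    have h3 : 0 ≤ K := (abs_nonneg _).trans (h1 0 (by omega))
    have h4 := h2 0 le_rfl
    simp only [zero_add, Function.iterate_one, Nat.cast_zero, zero_mul, add_zero] at h4
    have := mul_nonneg hθ.le h3
    linarith
  | succ M ih =>
    intro θ hθ
    obtain ⟨L, hL⟩ := exists_nat_gt (4 / θ)
    have hL0 : (0 : ℝ) < L := lt_trans (by positivity) hL
    obtain ⟨N, A, hA⟩ := ih (θ / (4 * L)) (by positivity)
    refine ⟨N + L, L * A, fun g x h K ε h1 h2 => ?_⟩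
    have hK : 0 ≤ K := (abs_nonneg _).trans (h1 0 (by omega))
    have hε : 0 ≤ ε := (abs_nonneg _).trans (h2 0 (by omega))
    have h3 : ∀ i < L, |fwdDiff h (fwdDiff h g) (x + i * h)| ≤ A * ε + θ / (4 * L) * (2 * K) := by
      intro i hi
      refine hA (fwdDiff h g) (x + i * h) h (2 * K) ε (fun j hj => ?_) fun j hj => ?_
      · have a1 := h1 (i + j) (by omega)
        have a2 := h1 (i + j + 1) (by omega)
        have e1 : x + ((i + j : ℕ) : ℝ) * h = x + i * h + j * h := by push_cast; ring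
        have e2 : x + ((i + j + 1 : ℕ) : ℝ) * h = x + i * h + j * h + h := by push_cast; ring
        rw [e1] at a1
        rw [e2] at a2
        rw [fwdDiff]
        exact (abs_sub _ _).trans (by linarith)
      · have a1 := h2 (i + j) (by omega)
        have e1 : x + ((i + j : ℕ) : ℝ) * h = x + i * h + j * h := by push_cast; ring
        rwa [e1, Function.iterate_succ_apply] at a1
    set b := A * ε + θ / (4 * L) * (2 * K) with hb
    have hLpos : 0 < L := by exact_mod_cast hL0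
    have hb0 : 0 ≤ b := (abs_nonneg _).trans (h3 0 hLpos)
    have h4 := wh1_avg g x h (fwdDiff h g x) L (b := L * b) fun j hj =>
      (wh1_tel (fwdDiff h g) x h j fun k hk => h3 k (by omega)).trans
        (mul_le_mul_of_nonneg_right (by exact_mod_cast hj.le) hb0)
    have h5 := h1 L (by omega)
    have h6 := h1 0 (by omega)
    simp only [Nat.cast_zero, zero_mul, add_zero] at h6
    have h7 : L * |fwdDiff h g x| ≤ 2 * K + L * (L * b) := by
      rw [← abs_of_pos hL0, ← abs_mul, abs_of_pos hL0]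
      rw [abs_le] at h4 h5 h6 ⊢
      constructor <;> linarith [h4.1, h4.2, h5.1, h5.2, h6.1, h6.2]
    have h8 : 2 * K ≤ L * (θ / 2 * K) := by
      rw [div_lt_iff₀ hθ] at hL
      nlinarith
    have h9 : L * b = L * A * ε + θ / 2 * K := by
      rw [hb]
      field_simp
      ring
    refine le_of_mul_le_mul_left ?_ hL0
    rw [h9] at h7
    linarith

/-- a grid function that vanishes at the first nodes. -/
theorem wh1_z (M n : ℕ) : ∃ B : ℝ, ∀ (g : ℝ → ℝ) (x h ε : ℝ),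
    (∀ j < M, g (x + j * h) = 0) → (∀ i ≤ n, |(fwdDiff h)^[M] g (x + i * h)| ≤ ε) →
    ∀ i ≤ n + M, |g (x + i * h)| ≤ B * ε := by
  induction M with
  | zero => exact ⟨1, fun g x h ε _ h2 i hi => by simpa using h2 i hi⟩
  | succ M ih =>
    obtain ⟨B, hB⟩ := ih
    refine ⟨(n + M + 1 : ℕ) * B, fun g x h ε h1 h2 i hi => ?_⟩
    have h3 := hB (fwdDiff h g) x h ε (fun j hj => by
      have a1 := h1 j (by omega)
      have a2 := h1 (j + 1) (by omega)
      have e : x + ((j + 1 : ℕ) : ℝ) * h = x + j * h + h := by push_cast; ring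
      rw [e] at a2
      rw [fwdDiff, a1, a2, sub_zero]) fun j hj => by
        have a1 := h2 j hj
        rwa [Function.iterate_succ_apply] at a1
    have h4 := wh1_tel g x h i fun j hj => h3 j (by omega)
    have h5 := h1 0 (by omega)
    simp only [Nat.cast_zero, zero_mul, add_zero] at h5
    rw [h5, sub_zero] at h4
    have h6 : 0 ≤ B * ε := (abs_nonneg _).trans (h3 0 (by omega))
    rw [mul_assoc]
    exact h4.trans (mul_le_mul_of_nonneg_right (by exact_mod_cast hi) h6)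

theorem wh1_poly {p : Polynomial ℝ} {M : ℕ} (hp : p.natDegree < M) (x h : ℝ) :
    (fwdDiff h)^[M] p.eval x = 0 := by
  have h1 : (p.comp (Polynomial.C h * Polynomial.X + Polynomial.C x)).natDegree < M := by
    refine lt_of_le_of_lt (Polynomial.natDegree_comp_le.trans ?_) hp
    exact mul_le_of_le_one_right' Polynomial.natDegree_linear_le
  have h2 := congrFun (Polynomial.fwdDiff_iter_eq_zero_of_degree_lt h1) 0
  rw [fwdDiff_iter_eq_sum_shift] at h2 ⊢
  refine Eq.trans (Finset.sum_congr rfl fun k _ => ?_) h2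
  congr 1
  simp only [Polynomial.eval_comp, Polynomial.eval_add, Polynomial.eval_mul, Polynomial.eval_C,
    Polynomial.eval_X, nsmul_eq_mul, zero_add, mul_one]
  rw [mul_comm h, add_comm]

theorem wh1_mem {z h : ℝ} {n : ℕ} (h0 : z ∈ Icc (0 : ℝ) 1) (h1 : z + n * h ∈ Icc (0 : ℝ) 1)
    {i : ℕ} (hi : i ≤ n) : z + i * h ∈ Icc (0 : ℝ) 1 := by
  have a1 : (i : ℝ) ≤ n := by exact_mod_cast hi
  have a2 : (0 : ℝ) ≤ i := Nat.cast_nonneg i
  rcases le_total 0 h with hh | hh
  · have := mul_le_mul_of_nonneg_right a1 hh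
    have := mul_nonneg a2 hh
    exact ⟨by linarith [h0.1], by linarith [h1.2]⟩
  · have := mul_le_mul_of_nonpos_right a1 hh
    have := mul_nonpos_of_nonneg_of_nonpos a2 hh
    exact ⟨by linarith [h1.1], by linarith [h0.2]⟩

theorem wh1_core (M : ℕ) : ∃ (C : ℝ) (n : ℕ), M + 1 ≤ n ∧ ∀ (g : ℝ → ℝ) (ε S : ℝ),
    (∀ x ∈ Icc (0 : ℝ) 1, |g x| ≤ S) → (∀ j < M + 1, g (j * (n : ℝ)⁻¹) = 0) →
    (∀ x h : ℝ, x ∈ Icc (0 : ℝ) 1 → x + (M + 1 : ℕ) * h ∈ Icc (0 : ℝ) 1 →
      |(fwdDiff h)^[M + 1] g x| ≤ ε) → ∀ x ∈ Icc (0 : ℝ) 1, |g x| ≤ C * ε := by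
  obtain ⟨N, A, hA⟩ := wh1_lk M (1 / 2) (by norm_num)
  obtain ⟨B, hB⟩ := wh1_z (M + 1) (2 * N + M + 1)
  refine ⟨2 * (A + B), 2 * N + M + 1 + (M + 1), by omega, fun g ε S hS h0 hd => ?_⟩
  set n : ℕ := 2 * N + M + 1 + (M + 1) with hn
  have hn0 : (0 : ℝ) < n := by rw [hn]; positivity
  have hdd : ∀ (z h : ℝ) (m : ℕ), z ∈ Icc (0 : ℝ) 1 →
      z + (m + (M + 1) : ℕ) * h ∈ Icc (0 : ℝ) 1 →
      ∀ i ≤ m, |(fwdDiff h)^[M + 1] g (z + i * h)| ≤ ε := by
    intro z h m hz hz' i hi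
    refine hd _ _ (wh1_mem hz hz' (by omega)) ?_
    have e : z + i * h + (M + 1 : ℕ) * h = z + (i + (M + 1) : ℕ) * h := by push_cast; ring
    rw [e]
    exact wh1_mem hz hz' (by omega)
  have hgrid := hB g 0 (n : ℝ)⁻¹ ε (fun j hj => by rw [zero_add]; exact h0 j hj)
    (hdd 0 _ _ ⟨le_rfl, zero_le_one⟩ (by
      rw [zero_add, ← hn, mul_inv_cancel₀ hn0.ne']
      exact ⟨zero_le_one, le_rfl⟩))
  set K := sSup ((fun x => |g x|) '' Icc (0 : ℝ) 1) with hKdef
  have hK : ∀ x ∈ Icc (0 : ℝ) 1, |g x| ≤ K := fun x hx =>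
    le_csSup ⟨S, by rintro _ ⟨y, hy, rfl⟩; exact hS y hy⟩ ⟨x, hx, rfl⟩
  have hloc : ∀ z h : ℝ, z ∈ Icc (0 : ℝ) 1 → z + (N + (M + 1) : ℕ) * h ∈ Icc (0 : ℝ) 1 →
      |g (z + h) - g z| ≤ A * ε + 1 / 2 * K := fun z h hz hz' =>
    hA g z h K ε (fun i hi => hK _ (wh1_mem hz hz' hi)) (hdd z h N hz hz')
  have hall : ∀ x ∈ Icc (0 : ℝ) 1, |g x| ≤ (A + B) * ε + 1 / 2 * K := by
    intro x hx
    have hxn : 0 ≤ x * n := mul_nonneg hx.1 hn0.le
    have a1 : (⌊x * n⌋₊ : ℝ) ≤ x * n := Nat.floor_le hxn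
    have a2 : x * n < ⌊x * n⌋₊ + 1 := Nat.lt_floor_add_one _
    have a3 : ⌊x * n⌋₊ ≤ n := Nat.floor_le_of_le (by nlinarith [hx.2])
    have a4 := hgrid _ a3
    rw [zero_add] at a4
    set y : ℝ := (⌊x * n⌋₊ : ℝ) * (n : ℝ)⁻¹ with hy
    have a5 : y * n = ⌊x * n⌋₊ := by rw [hy]; field_simp
    have a6 : y ≤ x := le_of_mul_le_mul_right (by rw [a5]; exact a1) hn0
    have a7 : 0 ≤ y := by rw [hy]; positivity
    have a8 : (N + (M + 1) : ℕ) * (x - y) ≤ 1 / 2 := by
      have e : (n : ℝ) = 2 * (N + (M + 1) : ℕ) := by rw [hn]; push_cast; ring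
      have a9 : (x - y) * n ≤ 1 := by linarith
      rw [e] at a9
      linarith
    have a9 : 0 ≤ (N + (M + 1) : ℕ) * (x - y) := mul_nonneg (Nat.cast_nonneg _) (sub_nonneg.2 a6)
    have a10 : |g x - g y| ≤ A * ε + 1 / 2 * K := by
      rcases le_total y (1 / 2) with hy2 | hy2
      · have := hloc y (x - y) ⟨a7, by linarith⟩ ⟨by linarith, by linarith⟩
        rwa [add_sub_cancel] at this
      · have := hloc x (-(x - y)) hx ⟨by linarith, by linarith [hx.2]⟩
        rwa [neg_sub, add_sub_cancel, abs_sub_comm] at this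
    have a11 := abs_sub_abs_le_abs_sub (g x) (g y)
    linarith
  have hK2 : K ≤ (A + B) * ε + 1 / 2 * K :=
    csSup_le ((nonempty_Icc.2 zero_le_one).image _) (by
      rintro _ ⟨y, hy, rfl⟩
      exact hall y hy)
  intro x hx
  linarith [hK x hx]

theorem sWh1 : SWh1 := by
  intro M hM
  obtain ⟨M, rfl⟩ : ∃ M', M = M' + 1 := ⟨M - 1, by omega⟩
  obtain ⟨C, n, hn, hC⟩ := wh1_core M
  have hn0 : (0 : ℝ) < n := by exact_mod_cast (by omega : 0 < n)
  let a : Fin (M + 1) → ℝ := fun j => (j : ℕ) * (n : ℝ)⁻¹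
  have ha : InjOn a (Finset.univ : Finset (Fin (M + 1))) := fun i _ j _ h =>
    Fin.ext (Nat.cast_injective (R := ℝ) (mul_right_cancel₀ (inv_ne_zero hn0.ne') h))
  refine ⟨C, a, Lagrange.basis Finset.univ a, fun j => ⟨by positivity, ?_⟩, ?_⟩
  · show ((j : ℕ) : ℝ) * (n : ℝ)⁻¹ ≤ 1
    rw [mul_inv_le_iff₀ hn0, one_mul]
    exact_mod_cast j.2.le.trans hn
  rintro g ε ⟨S, hS⟩ hd x hx
  set p := Lagrange.interpolate Finset.univ a fun j => g (a j) with hp
  have hdeg : (-p).natDegree < M + 1 := by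
    rw [Polynomial.natDegree_neg]
    have h1 := Lagrange.degree_interpolate_lt (r := fun j => g (a j)) ha
    rw [Finset.card_univ, Fintype.card_fin] at h1
    exact Nat.lt_succ_of_le (Polynomial.natDegree_le_iff_degree_le.2
      (Order.le_of_lt_succ (by exact_mod_cast h1)))
  obtain ⟨S', hS'⟩ := isCompact_Icc.exists_bound_of_continuousOn
    (s := Icc (0 : ℝ) 1) (-p).continuous.continuousOn
  have h1 := hC (g + (-p).eval) ε (S + S') (fun y hy =>
    (abs_add_le _ _).trans (add_le_add (hS y hy) (hS' y hy))) (fun j hj => by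
      have h2 := Lagrange.eval_interpolate_at_node (r := fun j => g (a j)) ha
        (Finset.mem_univ (⟨j, hj⟩ : Fin (M + 1)))
      rw [Pi.add_apply, Polynomial.eval_neg]
      exact add_neg_eq_zero.2 h2.symm) (fun y h hy hy' => by
      rw [fwdDiff_iter_add, Pi.add_apply, wh1_poly hdeg, add_zero]
      exact hd y h hy hy') x hx
  rw [Pi.add_apply, Polynomial.eval_neg, ← sub_eq_add_neg, hp, Lagrange.interpolate_apply,
    Polynomial.eval_finsetSum] at h1
  simpa only [Polynomial.eval_mul, Polynomial.eval_C, mul_comm] using h1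

end Pool.Agent.MP_66cee2_co.X
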