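import Pool.Agent.MP_66cee2_co.XJ.Main
import Pool.Agent.MP_66cee2_co.XJ.Sig
import Pool.Agent.MP_66cee2_co.XJ.Up
import Pool.Agent.MP_66cee2_co.XJ.Pair
import Pool.Agent.MP_66cee2_co.XJ.Rows
import Pool.Agent.MP_66cee2_co.XJ.Gal
import Pool.Agent.MP_66cee2_co.XJ.Poly
import Pool.Agent.MP_66cee2_co.XJ.Wh1
import Pool.Agent.MP_66cee2_co.XJ.Wh
import Pool.Agent.MP_66cee2_co.XJ.RS
import Pool.Agent.MP_66cee2_co.XJ.Pick
import Pool.Agent.MP_66cee2_co.XJ.App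
import Pool.Agent.MP_66cee2_co.XJ.Jet
import Pool.Agent.MP_66cee2_co.XJ.Low
import Pool.Agent.MP_66cee2_co.XJ.Key
import Pool.Agent.MP_66cee2_co.XJ.Tele
import Pool.Agent.MP_66cee2_co.XJ.Ridge
import Pool.Agent.MP_66cee2_co.XJ.Core
import Pool.Agent.MP_66cee2_co.XJ.BaseA
import Pool.Agent.MP_66cee2_co.XJ.Base
import Pool.Agent.MP_66cee2_co.XJ.Step
import Pool.Agent.MP_66cee2_co.XJ.RatA
import Pool.Agent.MP_66cee2_co.XJ.U
import Pool.Agent.MP_66cee2_co.X.SegZ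

/-
Exponential lower bound: the first half of the measurable theorem.
-/

namespace Pool.Agent.MP_66cee2_co.X

theorem sCoreAll : SCore :=
  sCore sSig sApp (sPick sSig) sRidge sKey (sLow sRS (sWh sWh1))

theorem sJAll : SJ :=
  sJ_of (sGal sSig (sUp sSig) sRows) (sJet sPoly)
    (sBase sApp sPoly (sTele sPoly) sCoreAll (sBaseA sSig sApp (sPair sSig)))
    (sStep sApp (sJet sPoly) (sTele sPoly) sCoreAll)
    (sRatA sSig sApp (sJet sPoly) (sPick sSig) (sRatLoc sPoly2)) (sU sSig sApp (sJet sPoly))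

end Pool.Agent.MP_66cee2_co.X
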