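import Pool.Agent.MP_66cee2_co.X.BasicJ

/-
Exponential lower bound: rational jets from the rows.
-/

namespace Pool.Agent.MP_66cee2_co.X

open MeasureTheory Set Filter Metric Topology

theorem main_jv {d n : ℕ} (hJ : SJet) {B : E d → Ix n → Ix n → ℝ} {s : ℝ}
    (h : ∀ j, ∀ᵐ y : E d, ∀ a, HasTay (fun η : E d => B (y + η) j a) s) :
    ∀ᵐ x : E d, ∀ k a, HasTay (fun η : E d => Jv (B (x + η) k) a) s := by
  filter_upwards [ae_all_iff.2 h] with x hx k a
  cases a with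
  | inl i => exact hJ.smul d _ s 2 (hx k (Sum.inl i))
  | inr b => exact hx k (Sum.inr !b)

theorem main_ne (j k : ℕ) : (1 / 2 + (j : ℝ) / 3) + 1 / 3 ≠ k := by
  intro h
  have h1 : (5 + 2 * j : ℝ) = 6 * k := by linarith
  have h2 : 5 + 2 * j = 6 * k := by exact_mod_cast h1
  omega

theorem main_tay (hJ : SJet) (hB : SBase) (hS : SStep) {d n : ℕ} (hd : 2 ≤ d)
    {P : E d → Matrix (Ix n) (Ix n) ℝ} {JA JB : E d → Finset (Ix n)}
    {A B : E d → Ix n → Ix n → ℝ} (hG : Gal P JA JB A B) (m : ℕ) :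
    (∀ j, ∀ᵐ y : E d, ∀ a, HasTay (fun η : E d => A (y + η) j a) (1 / 2 + (m : ℝ) / 3)) ∧
    ∀ j, ∀ᵐ y : E d, ∀ a, HasTay (fun η : E d => B (y + η) j a) (1 / 2 + (m : ℝ) / 3) := by
  induction m with
  | zero =>
    simp only [Nat.cast_zero, zero_div, add_zero]
    exact ⟨fun j => hB d (Ix n) (Ix n) (fun x k => Jv (B x k)) JA (fun y => A y j) hd (hG.dA j),
      fun j => hB d (Ix n) (Ix n) (fun x k => Jv (A x k)) JB (fun y => B y j) hd (hG.dB j)⟩
  | succ m ih =>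
    have e : 1 / 2 + ((m + 1 : ℕ) : ℝ) / 3 = (1 / 2 + (m : ℝ) / 3) + 1 / 3 := by
      push_cast
      ring
    have h3 : (1 : ℝ) / 3 ≤ 1 / 2 + (m : ℝ) / 3 := by
      have : (0 : ℝ) ≤ m := Nat.cast_nonneg m
      linarith
    rw [e]
    exact ⟨fun j => hS d (Ix n) (Ix n) (fun x k => Jv (B x k)) JA (fun y => A y j) _ hd (hG.dA j)
        h3 (main_ne m) (ih.1 j) (main_jv hJ ih.2),
      fun j => hS d (Ix n) (Ix n) (fun x k => Jv (A x k)) JB (fun y => B y j) _ hd (hG.dB j)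
        h3 (main_ne m) (ih.2 j) (main_jv hJ ih.1)⟩

theorem main_jet (hJ : SJet) {d : ℕ} {f : E d → ℝ}
    (h : ∀ m : ℕ, HasTay f (1 / 2 + (m : ℝ) / 3)) : ∃ φ, Jet f φ := by
  refine hJ.ex d f fun k => ?_
  obtain ⟨T, hT⟩ := h (3 * k)
  refine ⟨T, hJ.mono d f T _ _ ?_ hT⟩
  push_cast
  linarith

theorem sJ_of (hG : SGal) (hJ : SJet) (hB : SBase) (hS : SStep) (hR : SRatA) (hU : SU) : SJ := by
  intro d n hd P hP
  obtain ⟨JA, JB, A, B, hG⟩ := hG d n P hP
  have h := main_tay hJ hB hS (by omega) hG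
  refine hU d n P JA JB A B (by omega) hP hG fun j =>
    hR d (Ix n) (Ix n) (fun x k => Jv (B x k)) JA (fun y => A y j) (by omega) (hG.dA j) ?_ ?_
  · filter_upwards [ae_all_iff.2 fun m => (h m).1 j] with y hy a
    exact main_jet hJ fun m => hy m a
  · filter_upwards [ae_all_iff.2 fun m => main_jv hJ (h m).2] with x hx k a
    exact main_jet hJ fun m => hx m k a

end Pool.Agent.MP_66cee2_co.X
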